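import Pool.Agent.H17.GP.Mea
import Mathlib.SetTheory.Cardinal.Regular
import Mathlib.SetTheory.Cardinal.Continuum

/-!
# Random sequences: basic definitions

`K` is a well-order of type `(2^ω)⁺`, `Pt = K → 2^ω` with the product `mu` of the coin tossing
measures. The sequence `yv z` attached to `z ∈ 2^ω`: `yv z n` codes `z 0, ..., z (n - 1)` and is
positive.
-/

set_option autoImplicit false

namespace Pool.Agent.H83.T

open MeasureTheory Pool.Agent.H17.GP Pool.Agent.H19.GP

/-- the finite sequence with code `c` -/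
def dw (c : ℕ) : List ℕ := Denumerable.ofNat (List ℕ) c

/-- the code of a finite sequence -/
def ew (l : List ℕ) : ℕ := Encodable.encode l

theorem dw_ew (l : List ℕ) : dw (ew l) = l := Denumerable.ofNat_encode l

theorem ew_dw (c : ℕ) : ew (dw c) = c := Denumerable.encode_ofNat c

/-- the sequence attached to `z`: a code of the first `n` digits -/
def yv (z : ℕ → Bool) (n : ℕ) : ℕ := vL n z + 1

/-- the successor of the continuum -/
noncomputable def kap : Cardinal.{0} := Order.succ Cardinal.continuum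

theorem kap_reg : kap.IsRegular := Cardinal.isRegular_succ Cardinal.aleph0_le_continuum

/-- the well-order of type `(2^ω)⁺` -/
abbrev K : Type := kap.ord.ToType

/-- the ordinal of an element of `K` -/
noncomputable def oK (a : K) : Ordinal.{0} := (Ordinal.ToType.toOrd a).1

theorem oK_lt (a : K) : oK a < kap.ord := (Ordinal.ToType.toOrd a).2

theorem oK_surj {α : Ordinal.{0}} (h : α < kap.ord) : ∃ a, oK a = α :=
  ⟨Ordinal.ToType.mk ⟨α, h⟩, by simp [oK, Ordinal.ToType.toOrd]⟩

theorem oK_lt_iff {a b : K} : oK a < oK b ↔ a < b := by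
  unfold oK
  rw [Subtype.coe_lt_coe]
  exact OrderIso.lt_iff_lt _

theorem oK_inj {a b : K} (h : oK a = oK b) : a = b := by
  rcases lt_trichotomy a b with h' | h' | h'
  · exact absurd h (oK_lt_iff.2 h').ne
  · exact h'
  · exact absurd h.symm (oK_lt_iff.2 h').ne

open Cardinal in
theorem K_bdd' {ι : Type} (h : #ι ≤ 𝔠) (f : ι → K) : ∃ b : K, ∀ i, f i < b := by
  have hc : #ι < (kap.ord).cof := by
    rw [kap_reg.cof_ord]
    exact lt_of_le_of_lt h (Order.lt_succ _)
  have h1 : (⨆ i, oK (f i) + 1) < kap.ord :=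
    Ordinal.iSup_add_one_lt_of_lt_cof hc fun i => oK_lt _
  obtain ⟨b, hb⟩ := oK_surj h1
  refine ⟨b, fun i => oK_lt_iff.1 ?_⟩
  rw [hb]
  exact Ordinal.lt_iSup_add_one (fun i => oK (f i)) i

open Cardinal in
/-- Subsets of `K` of size at most continuum are bounded. -/
theorem K_bdd (A : Set K) (hA : #A ≤ 𝔠) : ∃ b : K, ∀ a ∈ A, a < b := by
  obtain ⟨b, hb⟩ := K_bdd' hA (fun a : A => a.1)
  exact ⟨b, fun a ha => hb ⟨a, ha⟩⟩

instance : Nonempty K := by
  obtain ⟨b, -⟩ := K_bdd ∅ (by simp)
  exact ⟨b⟩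

/-- the probability space -/
abbrev Pt : Type := K → (ℕ → Bool)

/-- the product measure -/
noncomputable def mu : Measure Pt := Measure.infinitePi (fun _ : K => lam)

instance : IsProbabilityMeasure mu := by
  unfold mu; infer_instance

/-- the word `t` hits `z` at some place `≥ m` -/
def Hit (z : ℕ → Bool) (t : List ℕ) (m : ℕ) : Prop :=
  ∃ i, m ≤ i ∧ i < t.length ∧ t.getD i 0 = yv z i

theorem measurable_yv (n : ℕ) : Measurable (fun z : ℕ → Bool => yv z n) :=
  (measurable_vL n).add_const 1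

theorem measurableSet_Hit1 (t : List ℕ) (m : ℕ) : MeasurableSet {z | Hit z t m} := by
  have : {z : ℕ → Bool | Hit z t m} = ⋃ i, ⋃ _ : m ≤ i ∧ i < t.length, {z | yv z i = t.getD i 0} := by
    ext z
    simp only [Hit, Set.mem_ofPred_eq, Set.mem_iUnion, exists_prop]
    exact ⟨fun ⟨i, h1, h2, h3⟩ => ⟨i, ⟨h1, h2⟩, h3.symm⟩, fun ⟨i, ⟨h1, h2⟩, h3⟩ => ⟨i, h1, h2, h3.symm⟩⟩
  rw [this]
  exact MeasurableSet.iUnion fun i => MeasurableSet.iUnion fun _ =>
    measurableSet_eq_fun (measurable_yv i) measurable_const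

theorem measurableSet_Hit (b : K) (t : List ℕ) (m : ℕ) : MeasurableSet {x : Pt | Hit (x b) t m} :=
  (measurableSet_Hit1 t m).preimage (measurable_pi_apply b)

end Pool.Agent.H83.T
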