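import Mathlib

/-!
# TT-4: closure under operations of countable arity (job)

PROOF. Let `A : Λ ⊕ Unit → Type` be `fun c => match c with | .inl _ => ℕ | .inr _ => Empty` and
`W = WType A`. By `WType.cardinalMk_le_of_le'` (Mathlib, `Mathlib/Data/W/Cardinal.lean`), `#W ≤ 𝔠`, because
`∑_{c} 𝔠 ^ #(A c) ≤ (#Λ + 1) * 𝔠 ≤ 𝔠` (`Cardinal.continuum_power_aleph0`, `Cardinal.sum_le_sum`,
`Cardinal.sum_const'`, `Cardinal.mul_le_of_le`). Let `ev : W → K` with `ev (mk (.inr _) _) = x₀` and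
`ev (mk (.inl c) f) = op c (fun n => ev (f n))` (recursion, `WType.elim`), and `D = Set.range ev`
(`Cardinal.mk_range_le`). Closure: choose preimages of the `s n`.
-/

set_option autoImplicit false

namespace Pool.Agent.H83.T

open Cardinal

/-- The arities: `ℕ` for an operation, none for the base point. -/
def cbArity (Λ : Type) : Λ ⊕ Unit → Type
  | .inl _ => ℕ
  | .inr _ => Empty

theorem mk_wtype_cbArity {Λ : Type} (hΛ : #Λ ≤ 𝔠) : #(WType (cbArity Λ)) ≤ 𝔠 := by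
  apply WType.cardinalMk_le_of_le
  have h1 : ∀ c : Λ ⊕ Unit, (𝔠 : Cardinal.{0}) ^ #(cbArity Λ c) ≤ 𝔠 := by
    intro c
    rcases c with c | c
    · have h : #(cbArity Λ (Sum.inl c)) = ℵ₀ := mk_nat
      rw [h, continuum_power_aleph0]
    · have h : #(cbArity Λ (Sum.inr c)) = 0 := mk_eq_zero_iff.mpr (inferInstanceAs (IsEmpty Empty))
      rw [h, power_zero]
      exact (one_lt_aleph0.le).trans aleph0_le_continuum
  refine (Cardinal.sum_le_sum _ (fun _ => (𝔠 : Cardinal.{0})) h1).trans ?_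
  rw [Cardinal.sum_const']
  have h2 : #(Λ ⊕ Unit) ≤ 𝔠 := by
    rw [mk_sum, lift_id, lift_id]
    refine add_le_of_le aleph0_le_continuum hΛ ?_
    rw [mk_unit]
    exact (one_lt_aleph0.le).trans aleph0_le_continuum
  calc #(Λ ⊕ Unit) * 𝔠 ≤ 𝔠 * 𝔠 := mul_le_mul' h2 le_rfl
    _ = 𝔠 := continuum_mul_self

/-- Evaluation of the trees of operations. -/
def cbEval {K Λ : Type} (x₀ : K) (op : Λ → (ℕ → K) → K) : WType (cbArity Λ) → K
  | ⟨Sum.inl c, f⟩ => op c (fun n => cbEval x₀ op (f n))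
  | ⟨Sum.inr _, _⟩ => x₀

theorem exists_closed {K Λ : Type} (hΛ : #Λ ≤ 𝔠) (x₀ : K) (op : Λ → (ℕ → K) → K) :
    ∃ D : Set K, #D ≤ 𝔠 ∧ x₀ ∈ D ∧ ∀ c (s : ℕ → K), (∀ n, s n ∈ D) → op c s ∈ D := by
  refine ⟨Set.range (cbEval x₀ op), mk_range_le.trans (mk_wtype_cbArity hΛ), ?_, ?_⟩
  · exact ⟨⟨Sum.inr (), fun e => (e : Empty).elim⟩, by rw [cbEval]⟩
  · intro c s hs
    choose w hw using hs
    refine ⟨⟨Sum.inl c, fun n => w n⟩, ?_⟩
    rw [cbEval]
    congr 1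
    funext n
    exact hw n

end Pool.Agent.H83.T
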