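import Pool.Agent.H83.T.CbA

/-!
# TT-5: a closed set that reflects types (job)

`CD K ι k`: combinatorial data. A block is a function `Fin k → K`; `H : List ι` is a macro node,
`Phi H a a'` a finite set of bad ordinals and `Rr H a a'` the finite set of non-rare children of `H`
for the previous block `a` and the block `a'` at `H`; `Ok a a'`: `a'` is admissible after `a`; `Gr a a'`: the
raise after `a, a'`.

`Good C ast s a`: the block `a` is above all `s n` and has the same type over `s` as `ast`.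

PROOF of `exists_D`. Let `Ty = List ι → (Fin k → ℕ) → Set ℕ × Finset ι`; `#Ty ≤ 𝔠` (a function type with
countable domain and values in a type of size `≤ 𝔠`). For `s : ℕ → K` and a block `a` let
`tp s a : Ty := fun H u => ({n | s n ∈ C.Phi H (s ∘ u) a}, C.Rr H (s ∘ u) a)`. Apply `exists_closed` with `x₀` any
element and the labels `Λ = Ty × Fin k ⊕ List ι × ℕ ⊕ Unit ⊕ Fin k` and the operations
* `(τ, j)`: if there is `a` with `(∀ n j, s n < a j)`, `(∀ u, C.Ok (s ∘ u) a)` and `tp s a = τ`, the `j`-th entry of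
  the chosen such `a`, else `s 0`;
* `(H, m)`: the `m`-th element of `(C.Phi H (fun j => s j) (fun j => s (k + j))).toList` (default `s 0`);
* `C.Gr (fun j => s j) (fun j => s (k + j))`;
* `j`: `d₀ j`.
This gives `D`. `hOk` for `A = D` gives `ast`. For `s` in `D` the type of `ast` is realised by `ast`, so the
chosen block `a` for `τ = tp s ast` is in `D` and `Good`. (Two blocks `a a'` in `D` are coded by
the sequence `s n = if h : n < k then a ⟨n, h⟩ else if h : n - k < k then a' ⟨n - k, h⟩ else x₀`.)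
-/

set_option autoImplicit false

namespace Pool.Agent.H83.T

open Cardinal

/-- combinatorial data -/
structure CD (K ι : Type) (k : ℕ) where
  /-- bad ordinals -/
  Phi : List ι → (Fin k → K) → (Fin k → K) → Finset K
  /-- non-rare children -/
  Rr : List ι → (Fin k → K) → (Fin k → K) → Finset ι
  /-- admissible -/
  Ok : (Fin k → K) → (Fin k → K) → Prop
  /-- raise -/
  Gr : (Fin k → K) → (Fin k → K) → K

variable {K ι : Type} {k : ℕ} [LinearOrder K]

/-- `a` is above `s` and has the type of `ast` over `s` -/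
def Good (C : CD K ι k) (ast : Fin k → K) (s : ℕ → K) (a : Fin k → K) : Prop :=
  (∀ n j, s n < a j) ∧ ∀ u : Fin k → ℕ, C.Ok (s ∘ u) a ∧ ∀ H,
    C.Rr H (s ∘ u) a = C.Rr H (s ∘ u) ast ∧
    ∀ n, (s n ∈ C.Phi H (s ∘ u) a ↔ s n ∈ C.Phi H (s ∘ u) ast)

/-- the block `a` is in `D` -/
def In (D : Set K) (a : Fin k → K) : Prop := ∀ j, a j ∈ D

/-- the type of `a` over `s` -/
def cbTp (C : CD K ι k) (s : ℕ → K) (a : Fin k → K) (H : List ι) (u : Fin k → ℕ) :
    Set ℕ × Finset ι :=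
  ({n | s n ∈ C.Phi H (s ∘ u) a}, C.Rr H (s ∘ u) a)

theorem cb_mk_fun {X Y : Type} [Countable Y] (h : #X ≤ 𝔠) : #(Y → X) ≤ 𝔠 := by
  have h1 : #(Y → X) = #X ^ #Y := (Cardinal.power_def X Y).symm
  rw [h1]
  calc #X ^ #Y ≤ 𝔠 ^ #Y := Cardinal.power_le_power_right h
    _ ≤ 𝔠 ^ ℵ₀ := Cardinal.power_le_power_left Cardinal.continuum_ne_zero Cardinal.mk_le_aleph0
    _ = 𝔠 := Cardinal.continuum_power_aleph0

theorem cb_mk_countable {Y : Type} [Countable Y] : #Y ≤ 𝔠 :=
  Cardinal.mk_le_aleph0.trans Cardinal.aleph0_le_continuum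

theorem cb_mk_prod {X Y : Type} (h : #X ≤ 𝔠) (h' : #Y ≤ 𝔠) : #(X × Y) ≤ 𝔠 := by
  rw [Cardinal.mk_prod, Cardinal.lift_id, Cardinal.lift_id]
  calc #X * #Y ≤ 𝔠 * 𝔠 := mul_le_mul' h h'
    _ = 𝔠 := Cardinal.continuum_mul_self

theorem cb_mk_sum {X Y : Type} (h : #X ≤ 𝔠) (h' : #Y ≤ 𝔠) : #(X ⊕ Y) ≤ 𝔠 := by
  rw [Cardinal.mk_sum, Cardinal.lift_id, Cardinal.lift_id]
  exact Cardinal.add_le_of_le Cardinal.aleph0_le_continuum h h'

theorem cb_mk_ty {ι : Type} [Countable ι] {k : ℕ} :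
    #(List ι → (Fin k → ℕ) → Set ℕ × Finset ι) ≤ 𝔠 := by
  refine cb_mk_fun (cb_mk_fun (cb_mk_prod ?_ cb_mk_countable))
  rw [Cardinal.mk_set, Cardinal.mk_nat, Cardinal.two_power_aleph0]

open Classical in
/-- the operations -/
noncomputable def cbOp (C : CD K ι k) (d₀ : Fin k → K) :
    (((List ι → (Fin k → ℕ) → Set ℕ × Finset ι) × Fin k) ⊕
      ((List ι × ℕ) ⊕ (Unit ⊕ Fin k))) → (ℕ → K) → K
  | .inl (τ, j), s =>
    if h : ∃ a : Fin k → K, (∀ n j, s n < a j) ∧ (∀ u : Fin k → ℕ, C.Ok (s ∘ u) a) ∧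
      cbTp C s a = τ then h.choose j else s 0
  | .inr (.inl (H, m)), s =>
    ((C.Phi H (fun j => s j) (fun j => s (k + j))).toList).getD m (s 0)
  | .inr (.inr (.inl _)), s => C.Gr (fun j => s j) (fun j => s (k + j))
  | .inr (.inr (.inr j)), _ => d₀ j

omit [LinearOrder K] in
/-- the code of two blocks -/
theorem cb_code {D : Set K} {x₀ : K} (hx : x₀ ∈ D) {a a' : Fin k → K} (ha : In D a)
    (ha' : In D a') : ∃ s : ℕ → K, (∀ n, s n ∈ D) ∧ (fun j : Fin k => s j) = a ∧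
      (fun j : Fin k => s (k + j)) = a' := by
  refine ⟨fun n => if h : n < k then a ⟨n, h⟩ else if h : n - k < k then a' ⟨n - k, h⟩ else x₀,
    ?_, ?_, ?_⟩
  · intro n
    dsimp only
    split_ifs with h h'
    · exact ha _
    · exact ha' _
    · exact hx
  · funext j
    simp only [j.2, dite_true]
  · funext j
    have h1 : ¬ (k + (j : ℕ) < k) := by omega
    have h2 : k + (j : ℕ) - k = j := by omega
    simp only [h1, dite_false, h2, j.2, dite_true]

theorem exists_D [Countable ι] [Nonempty K] (C : CD K ι k)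
    (hOk : ∀ A : Set K, #A ≤ 𝔠 → ∃ a', (∀ j, ∀ x ∈ A, x < a' j) ∧ ∀ a, In A a → C.Ok a a')
    (d₀ : Fin k → K) :
    ∃ (D : Set K) (ast : Fin k → K), D.Nonempty ∧ In D d₀ ∧
      (∀ H a a', In D a → In D a' → ∀ b ∈ C.Phi H a a', b ∈ D) ∧
      (∀ a a', In D a → In D a' → C.Gr a a' ∈ D) ∧
      ∀ s : ℕ → K, (∀ n, s n ∈ D) → ∃ a, In D a ∧ Good C ast s a := by
  classical
  obtain ⟨D, hD, hx, hcl⟩ := exists_closed
    (Λ := ((List ι → (Fin k → ℕ) → Set ℕ × Finset ι) × Fin k) ⊕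
      ((List ι × ℕ) ⊕ (Unit ⊕ Fin k)))
    (cb_mk_sum (cb_mk_prod cb_mk_ty cb_mk_countable) cb_mk_countable)
    (Classical.arbitrary K) (cbOp C d₀)
  obtain ⟨ast, h1, h2⟩ := hOk D hD
  refine ⟨D, ast, ⟨_, hx⟩, ?_, ?_, ?_, ?_⟩
  · intro j
    exact hcl (.inr (.inr (.inr j))) (fun _ => Classical.arbitrary K) (fun _ => hx)
  · intro H a a' ha ha' b hb
    obtain ⟨s, hs, e1, e2⟩ := cb_code hx ha ha'
    obtain ⟨m, hm, hbm⟩ := List.getElem_of_mem (Finset.mem_toList.2 hb)
    have h3 := hcl (.inr (.inl (H, m))) s hs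
    have h4 : cbOp C d₀ (.inr (.inl (H, m))) s = b := by
      show ((C.Phi H (fun j => s j) (fun j => s (k + j))).toList).getD m (s 0) = b
      rw [e1, e2, List.getD_eq_getElem _ _ hm, hbm]
    rw [h4] at h3
    exact h3
  · intro a a' ha ha'
    obtain ⟨s, hs, e1, e2⟩ := cb_code hx ha ha'
    have h3 := hcl (.inr (.inr (.inl ()))) s hs
    have h4 : cbOp C d₀ (.inr (.inr (.inl ()))) s = C.Gr a a' := by
      show C.Gr (fun j => s j) (fun j => s (k + j)) = C.Gr a a'
      rw [e1, e2]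
    rw [h4] at h3
    exact h3
  · intro s hs
    have h : ∃ a : Fin k → K, (∀ n j, s n < a j) ∧ (∀ u : Fin k → ℕ, C.Ok (s ∘ u) a) ∧
        cbTp C s a = cbTp C s ast :=
      ⟨ast, fun n j => h1 j (s n) (hs n), fun u => h2 _ fun j => hs (u j), rfl⟩
    refine ⟨h.choose, ?_, ?_, ?_⟩
    · intro j
      have h3 := hcl (.inl (cbTp C s ast, j)) s hs
      have h4 : cbOp C d₀ (.inl (cbTp C s ast, j)) s = h.choose j := by
        exact dif_pos h
      rw [h4] at h3
      exact h3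
    · exact h.choose_spec.1
    · intro u
      refine ⟨h.choose_spec.2.1 u, fun H => ?_⟩
      have h3 := congrFun (congrFun h.choose_spec.2.2 H) u
      have h4 : ({n | s n ∈ C.Phi H (s ∘ u) h.choose} : Set ℕ) =
          {n | s n ∈ C.Phi H (s ∘ u) ast} := congrArg Prod.fst h3
      exact ⟨congrArg Prod.snd h3, fun n => iff_of_eq (congrFun h4 n)⟩

end Pool.Agent.H83.T
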