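import Pool.Agent.H83.T.CbB

/-!
# TT-6: bad finite sets (job)

PROOF. Suppose not: for every finite `N` there are a finite set `F N ⊆ D` disjoint from `N` and a sequence
`s N` in `D` such that every `a` in `D` with `Good C ast (s N) a` has some `H ∈ L` and `b ∈ F N` with
`b ∈ C.Phi H a ast`. Define `N₀ = ∅`, `Nₙ₊₁ = Nₙ ∪ F Nₙ`; the sets `F Nₙ` are pairwise disjoint. Let
`t m = s (N_{(unpair m).1}) (unpair m).2`, a sequence in `D`, and `a` in `D` with `Good C ast t a` (hypothesis `hD`).
Then `Good C ast (s Nₙ) a` for every `n` (`Good` is inherited by subsequences: `Good.sub`), so for every `n` there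
is an element of `F Nₙ` in the finite set `⋃ H ∈ L, C.Phi H a ast`. This gives an injective
map of `ℕ` to a finite set, contradiction.
-/

set_option autoImplicit false

namespace Pool.Agent.H83.T

open Cardinal

variable {K ι : Type} {k : ℕ} [LinearOrder K]

theorem Good.sub {C : CD K ι k} {ast : Fin k → K} {s t : ℕ → K} {a : Fin k → K}
    (h : Good C ast t a) (v : ℕ → ℕ) (hv : ∀ n, s n = t (v n)) : Good C ast s a := by
  have hs : s = t ∘ v := funext hv
  refine ⟨fun n j => by rw [hv]; exact h.1 _ _, fun u => ?_⟩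
  have hu : s ∘ u = t ∘ (v ∘ u) := by rw [hs]; rfl
  obtain ⟨h1, h2⟩ := h.2 (v ∘ u)
  rw [hu]
  exact ⟨h1, fun H => ⟨(h2 H).1, fun n => by rw [hv]; exact (h2 H).2 _⟩⟩

theorem exists_N (C : CD K ι k) (D : Set K) (ast : Fin k → K)
    (hD : ∀ s : ℕ → K, (∀ n, s n ∈ D) → ∃ a, In D a ∧ Good C ast s a) (L : Finset (List ι)) :
    ∃ N : Finset K, ∀ F : Finset K, Disjoint F N → (∀ b ∈ F, b ∈ D) →
      ∀ s : ℕ → K, (∀ n, s n ∈ D) → ∃ a, In D a ∧ Good C ast s a ∧
        ∀ H ∈ L, ∀ b ∈ F, b ∉ C.Phi H a ast := by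
  by_contra hcon
  push Not at hcon
  choose F hFN _hFD s hs hbad using hcon
  set N : ℕ → Finset K := fun n => Nat.rec ∅ (fun _ A => A ∪ F A) n with hN
  have hNs : ∀ n, N (n + 1) = N n ∪ F (N n) := fun n => rfl
  have hmono : Monotone N := monotone_nat_of_le_succ fun n => by
    rw [hNs]; exact Finset.subset_union_left
  set t : ℕ → K := fun m => s (N (Nat.unpair m).1) (Nat.unpair m).2 with ht
  obtain ⟨a, haD, hag⟩ := hD t fun n => hs _ _
  have hgood : ∀ n, Good C ast (s (N n)) a := fun n =>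
    Good.sub hag (fun m => Nat.pair n m) fun m => by simp [ht]
  have hb : ∀ n, ∃ b, b ∈ F (N n) ∧ b ∈ L.biUnion fun H => C.Phi H a ast := by
    intro n
    obtain ⟨H, hH, b, hbF, hbP⟩ := hbad (N n) a haD (hgood n)
    exact ⟨b, hbF, Finset.mem_biUnion.2 ⟨H, hH, hbP⟩⟩
  choose b hbF hbP using hb
  have hlt : ∀ m n, m < n → b m ≠ b n := by
    intro m n hmn he
    have h1 : b m ∈ N n := hmono (Nat.succ_le_of_lt hmn) (by
      show b m ∈ N (m + 1)
      rw [hNs]; exact Finset.mem_union_right _ (hbF m))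
    exact Finset.disjoint_left.1 (hFN (N n)) (hbF n) (he ▸ h1)
  have hinj : Function.Injective b := by
    intro m n he
    rcases lt_trichotomy m n with h | h | h
    · exact absurd he (hlt m n h)
    · exact h
    · exact absurd he.symm (hlt n m h)
  refine (Set.infinite_range_of_injective hinj) ((L.biUnion fun H => C.Phi H a ast).finite_toSet.subset ?_)
  rintro _ ⟨n, rfl⟩
  exact hbP n

end Pool.Agent.H83.T
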