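import Pool.Agent.H83.T.CbC

/-!
# TT-7: the choice of the blocks (job)

`pb d₀ B H` is the previous block of the macro node `H`: `d₀` for the root, `B H` for `i :: H`.

PROOF of `comb`. Take `D`, `ast` from `exists_D`, for every finite `L` the finite set `N_L` of `exists_N`, and
`N = ⋃ L, (N_L ∩ D)` (countable, since `Finset (List ι)` is countable). For a finite set `B ⊆ D` let
`s_B : ℕ → K` be a sequence in `D` with range `N ∪ B ∪ {x₀}`, `x₀ ∈ D` (`Set.Countable.exists_eq_range`).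
STEP: for every macro node `H`, block `p` in `D` and finite `B ⊆ D` there is a block `a` in `D` with
`Good C ast s_B a` and `∀ i ∈ C.Rr H p ast, ∀ b ∈ B, b ∉ N → b ∉ C.Phi (i :: H) a ast`: apply the property of
`N_L` for `L = (C.Rr H p ast).image (· :: H)`, `F = B.filter (· ∉ N)`.
Call it `new H p B`. State `st : List ι → (Fin k → K) × (Fin k → K) × Finset K`, `st H = (p, a, B)`:
`st [] = (d₀, new [] d₀ B₀, B₀)` with `B₀ = univ.image d₀`, and for `st H = (p, a, B)`,
`B' = B ∪ univ.image p ∪ univ.image a ∪ C.Phi H p a ∪ {C.Gr p a}`, `st (i :: H) = (a, new (i :: H) a B', B')`.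
By induction everything is in `D` and `univ.image p ⊆ B`. Let `B H` (the function to be constructed) be the second component; the first
component is `pb d₀ B H`. Write `Bf H` for the third component. Then
* `Good C ast s_{Bf H} (B H)`, hence `b < B H j` for `b ∈ N` and for `b ∈ Bf H` (in particular for
  `b = C.Gr (pb H) (B H)` and the node `i :: H`), and `C.Ok (pb H) (B H)` as `pb H = s ∘ u` for some `u`;
* `Bf Q ⊆ Bf H` for suffixes `Q` of `H`, and `C.Phi Q (pb Q) (B Q) ⊆ Bf H` if `Q` is a proper suffix;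
* the last claim: let `i ∈ C.Rr H (pb H) (B H) = C.Rr H (pb H) ast` (`Good`), `Q` a proper suffix of `H`,
  `b ∈ C.Phi (i :: H) (B H) (B (i :: H))`, `b ∈ C.Phi Q (pb Q) (B Q) ⊆ Bf H`, and suppose `b ∉ N`. By STEP for
  `B H = new H (pb H) (Bf H)`: `b ∉ C.Phi (i :: H) (B H) ast`. But `b ∈ Bf H ⊆ Bf (i :: H)` and `B H = s ∘ u` for the sequence
  `s` of `Bf (i :: H)`, so by `Good` for `B (i :: H)`, `b ∈ C.Phi (i :: H) (B H) ast`. Contradiction.
-/

set_option autoImplicit false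

namespace Pool.Agent.H83.T

open Cardinal

variable {K ι : Type} {k : ℕ}

/-- the previous block -/
def pb (d₀ : Fin k → K) (B : List ι → (Fin k → K)) : List ι → (Fin k → K)
  | [] => d₀
  | _ :: H => B H

/-- the states of the construction: previous block, block, finite set -/
noncomputable def combSt [LinearOrder K] (C : CD K ι k) (d₀ : Fin k → K)
    (new : List ι → (Fin k → K) → Finset K → (Fin k → K)) :
    List ι → (Fin k → K) × (Fin k → K) × Finset K
  | [] => (d₀, new [] d₀ (Finset.univ.image d₀), Finset.univ.image d₀)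
  | i :: H =>
    ((combSt C d₀ new H).2.1,
      new (i :: H) (combSt C d₀ new H).2.1
        ((combSt C d₀ new H).2.2 ∪ Finset.univ.image (combSt C d₀ new H).2.1 ∪
          C.Phi H (combSt C d₀ new H).1 (combSt C d₀ new H).2.1 ∪
          {C.Gr (combSt C d₀ new H).1 (combSt C d₀ new H).2.1}),
      (combSt C d₀ new H).2.2 ∪ Finset.univ.image (combSt C d₀ new H).2.1 ∪
        C.Phi H (combSt C d₀ new H).1 (combSt C d₀ new H).2.1 ∪
        {C.Gr (combSt C d₀ new H).1 (combSt C d₀ new H).2.1})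

section

variable [LinearOrder K] (C : CD K ι k) (d₀ : Fin k → K)
  (new : List ι → (Fin k → K) → Finset K → (Fin k → K))

theorem combSt_pb (H : List ι) :
    pb d₀ (fun G => (combSt C d₀ new G).2.1) H = (combSt C d₀ new H).1 := by
  cases H <;> rfl

theorem combSt_new (H : List ι) :
    (combSt C d₀ new H).2.1 = new H (combSt C d₀ new H).1 (combSt C d₀ new H).2.2 := by
  cases H <;> rfl

theorem combSt_fst_mem (H : List ι) (j : Fin k) :
    (combSt C d₀ new H).1 j ∈ (combSt C d₀ new H).2.2 := by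
  cases H with
  | nil => exact Finset.mem_image_of_mem _ (Finset.mem_univ j)
  | cons i H =>
    show (combSt C d₀ new H).2.1 j ∈ (combSt C d₀ new H).2.2 ∪
      Finset.univ.image (combSt C d₀ new H).2.1 ∪
      C.Phi H (combSt C d₀ new H).1 (combSt C d₀ new H).2.1 ∪
      {C.Gr (combSt C d₀ new H).1 (combSt C d₀ new H).2.1}
    simp only [Finset.mem_union]
    exact Or.inl (Or.inl (Or.inr (Finset.mem_image_of_mem _ (Finset.mem_univ j))))

theorem combSt_mono (i : ι) (H : List ι) (b : K) (hb : b ∈ (combSt C d₀ new H).2.2) :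
    b ∈ (combSt C d₀ new (i :: H)).2.2 := by
  show b ∈ (combSt C d₀ new H).2.2 ∪ Finset.univ.image (combSt C d₀ new H).2.1 ∪
      C.Phi H (combSt C d₀ new H).1 (combSt C d₀ new H).2.1 ∪
      {C.Gr (combSt C d₀ new H).1 (combSt C d₀ new H).2.1}
  simp only [Finset.mem_union]
  exact Or.inl (Or.inl (Or.inl hb))

theorem combSt_phi (i : ι) (H : List ι) (b : K)
    (hb : b ∈ C.Phi H (combSt C d₀ new H).1 (combSt C d₀ new H).2.1) :
    b ∈ (combSt C d₀ new (i :: H)).2.2 := by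
  show b ∈ (combSt C d₀ new H).2.2 ∪ Finset.univ.image (combSt C d₀ new H).2.1 ∪
      C.Phi H (combSt C d₀ new H).1 (combSt C d₀ new H).2.1 ∪
      {C.Gr (combSt C d₀ new H).1 (combSt C d₀ new H).2.1}
  simp only [Finset.mem_union]
  exact Or.inl (Or.inr hb)

theorem combSt_gr (i : ι) (H : List ι) :
    C.Gr (combSt C d₀ new H).1 (combSt C d₀ new H).2.1 ∈ (combSt C d₀ new (i :: H)).2.2 := by
  show C.Gr (combSt C d₀ new H).1 (combSt C d₀ new H).2.1 ∈
      (combSt C d₀ new H).2.2 ∪ Finset.univ.image (combSt C d₀ new H).2.1 ∪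
      C.Phi H (combSt C d₀ new H).1 (combSt C d₀ new H).2.1 ∪
      {C.Gr (combSt C d₀ new H).1 (combSt C d₀ new H).2.1}
  simp only [Finset.mem_union, Finset.mem_singleton]
  exact Or.inr trivial

theorem combSt_suffix (Q : List ι) : ∀ H : List ι, Q <:+ H → Q ≠ H → ∀ b,
    b ∈ C.Phi Q (combSt C d₀ new Q).1 (combSt C d₀ new Q).2.1 →
    b ∈ (combSt C d₀ new H).2.2
  | [], h, hne, b, _ => absurd (List.suffix_nil.1 h) hne
  | i :: H, h, hne, b, hb => by
    rcases List.suffix_cons_iff.1 h with h | h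
    · exact absurd h hne
    · by_cases hQ : Q = H
      · subst hQ
        exact combSt_phi C d₀ new i Q b hb
      · exact combSt_mono C d₀ new i H b (combSt_suffix Q H h hQ b hb)

theorem combSt_in {D : Set K} (hd0 : In D d₀)
    (hPhi : ∀ H a a', In D a → In D a' → ∀ b ∈ C.Phi H a a', b ∈ D)
    (hGr : ∀ a a', In D a → In D a' → C.Gr a a' ∈ D)
    (hnew : ∀ H p B, In D (new H p B)) :
    ∀ H : List ι, In D (combSt C d₀ new H).1 ∧ In D (combSt C d₀ new H).2.1 ∧
      ∀ b ∈ (combSt C d₀ new H).2.2, b ∈ D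
  | [] => by
    refine ⟨hd0, hnew _ _ _, ?_⟩
    intro b hb
    obtain ⟨j, -, rfl⟩ := Finset.mem_image.1 hb
    exact hd0 j
  | i :: H => by
    obtain ⟨h1, h2, h3⟩ := combSt_in hd0 hPhi hGr hnew H
    refine ⟨h2, hnew _ _ _, ?_⟩
    intro b hb
    have hb' : b ∈ (combSt C d₀ new H).2.2 ∪ Finset.univ.image (combSt C d₀ new H).2.1 ∪
      C.Phi H (combSt C d₀ new H).1 (combSt C d₀ new H).2.1 ∪
      {C.Gr (combSt C d₀ new H).1 (combSt C d₀ new H).2.1} := hb
    simp only [Finset.mem_union, Finset.mem_singleton] at hb'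
    rcases hb' with ((hb' | hb') | hb') | hb'
    · exact h3 b hb'
    · obtain ⟨j, -, rfl⟩ := Finset.mem_image.1 hb'
      exact h2 j
    · exact hPhi _ _ _ h1 h2 b hb'
    · rw [hb']
      exact hGr _ _ h1 h2

end

theorem comb [LinearOrder K] [Countable ι] [Nonempty K] (C : CD K ι k)
    (hOk : ∀ A : Set K, #A ≤ 𝔠 → ∃ a', (∀ j, ∀ x ∈ A, x < a' j) ∧ ∀ a, In A a → C.Ok a a')
    (d₀ : Fin k → K) :
    ∃ (N : Set K) (B : List ι → (Fin k → K)), N.Countable ∧
      (∀ H j, ∀ b ∈ N, b < B H j) ∧ (∀ H, C.Ok (pb d₀ B H) (B H)) ∧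
      (∀ i H j, C.Gr (pb d₀ B H) (B H) < B (i :: H) j) ∧
      ∀ i H, i ∈ C.Rr H (pb d₀ B H) (B H) → ∀ Q, Q <:+ H → Q ≠ H → ∀ b,
        b ∈ C.Phi (i :: H) (B H) (B (i :: H)) → b ∈ C.Phi Q (pb d₀ B Q) (B Q) → b ∈ N := by
  classical
  obtain ⟨D, ast, ⟨x₀, hx₀⟩, hd0, hPhi, hGr, hD⟩ := exists_D C hOk d₀
  choose NL hNL using exists_N C D ast hD
  obtain ⟨N, hN⟩ : ∃ N : Set K, N = ⋃ L, ((NL L : Set K) ∩ D) := ⟨_, rfl⟩
  have hNc : N.Countable := by
    rw [hN]
    exact Set.countable_iUnion fun L => ((NL L).countable_toSet).mono Set.inter_subset_left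
  have hND : ∀ b ∈ N, b ∈ D := by
    intro b hb
    rw [hN] at hb
    obtain ⟨L, hL⟩ := Set.mem_iUnion.1 hb
    exact hL.2
  have hs : ∀ B : Finset K, ∃ s : ℕ → K, N ∪ ((B : Set K) ∩ D) ∪ {x₀} = Set.range s := by
    intro B
    refine Set.Countable.exists_eq_range ?_ ⟨x₀, Or.inr rfl⟩
    exact (hNc.union ((B.countable_toSet).mono Set.inter_subset_left)).union
      (Set.countable_singleton _)
  choose s hs using hs
  have hsD : ∀ B n, s B n ∈ D := by
    intro B n
    have h1 : s B n ∈ N ∪ ((B : Set K) ∩ D) ∪ {x₀} := by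
      rw [hs B]
      exact ⟨n, rfl⟩
    rcases h1 with (h1 | h1) | h1
    · exact hND _ h1
    · exact h1.2
    · rw [Set.mem_singleton_iff.1 h1]
      exact hx₀
  have hsN : ∀ B, ∀ b ∈ N, ∃ n, s B n = b := by
    intro B b hb
    have h1 : b ∈ N ∪ ((B : Set K) ∩ D) ∪ {x₀} := Or.inl (Or.inl hb)
    rw [hs B] at h1
    exact h1
  have hsB : ∀ B : Finset K, ∀ b ∈ B, b ∈ D → ∃ n, s B n = b := by
    intro B b hb hbD
    have h1 : b ∈ N ∪ ((B : Set K) ∩ D) ∪ {x₀} := Or.inl (Or.inr ⟨hb, hbD⟩)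
    rw [hs B] at h1
    exact h1
  have step : ∀ (H : List ι) (p : Fin k → K) (B : Finset K), ∃ a, In D a ∧ Good C ast (s B) a ∧
      ∀ i ∈ C.Rr H p ast, ∀ b ∈ B, b ∈ D → b ∉ N → b ∉ C.Phi (i :: H) a ast := by
    intro H p B
    obtain ⟨a, ha, hg, h⟩ := hNL ((C.Rr H p ast).image (fun i => i :: H))
      (B.filter (fun b => b ∈ D ∧ b ∉ N)) (by
        rw [Finset.disjoint_left]
        intro b hb hb'
        rw [Finset.mem_filter] at hb
        refine hb.2.2 ?_
        rw [hN]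
        exact Set.mem_iUnion.2 ⟨_, hb', hb.2.1⟩) (by
        intro b hb
        rw [Finset.mem_filter] at hb
        exact hb.2.1) (s B) (hsD B)
    refine ⟨a, ha, hg, fun i hi b hb hbD hbN => ?_⟩
    exact h (i :: H) (Finset.mem_image.2 ⟨i, hi, rfl⟩) b (Finset.mem_filter.2 ⟨hb, hbD, hbN⟩)
  choose new hnewD hnewG hnewP using step
  have hin := combSt_in C d₀ new hd0 hPhi hGr hnewD
  have hgood : ∀ H, Good C ast (s (combSt C d₀ new H).2.2) (combSt C d₀ new H).2.1 := by
    intro H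
    have h1 := hnewG H (combSt C d₀ new H).1 (combSt C d₀ new H).2.2
    rw [← combSt_new C d₀ new H] at h1
    exact h1
  have hu : ∀ H, ∃ u : Fin k → ℕ, s (combSt C d₀ new H).2.2 ∘ u = (combSt C d₀ new H).1 := by
    intro H
    have h1 : ∀ j, ∃ n, s (combSt C d₀ new H).2.2 n = (combSt C d₀ new H).1 j := fun j =>
      hsB _ _ (combSt_fst_mem C d₀ new H j) ((hin H).1 j)
    choose u hu using h1
    exact ⟨u, funext hu⟩
  refine ⟨N, fun H => (combSt C d₀ new H).2.1, hNc, ?_, ?_, ?_, ?_⟩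
  · intro H j b hb
    obtain ⟨n, rfl⟩ := hsN (combSt C d₀ new H).2.2 b hb
    exact (hgood H).1 n j
  · intro H
    rw [combSt_pb]
    obtain ⟨u, hu⟩ := hu H
    rw [← hu]
    exact ((hgood H).2 u).1
  · intro i H j
    rw [combSt_pb]
    have h1 := combSt_gr C d₀ new i H
    obtain ⟨n, hn⟩ := hsB _ _ h1 ((hin (i :: H)).2.2 _ h1)
    rw [← hn]
    exact (hgood (i :: H)).1 n j
  · intro i H hi Q hQ hne b hb hbQ
    rw [combSt_pb] at hi hbQ
    by_contra hbN
    have hbH : b ∈ (combSt C d₀ new H).2.2 := combSt_suffix C d₀ new Q H hQ hne b hbQ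
    have hbD : b ∈ D := (hin H).2.2 b hbH
    obtain ⟨u, hu'⟩ := hu H
    have hi' : i ∈ C.Rr H (combSt C d₀ new H).1 ast := by
      have h1 := (((hgood H).2 u).2 H).1
      rw [hu'] at h1
      rw [← h1]
      exact hi
    have h2 := hnewP H (combSt C d₀ new H).1 (combSt C d₀ new H).2.2 i hi' b hbH hbD hbN
    rw [← combSt_new C d₀ new H] at h2
    have hbH' : b ∈ (combSt C d₀ new (i :: H)).2.2 := combSt_mono C d₀ new i H b hbH
    obtain ⟨n, hn⟩ := hsB _ b hbH' hbD
    obtain ⟨v, hv⟩ := hu (i :: H)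
    have h3 := (((hgood (i :: H)).2 v).2 (i :: H)).2 n
    rw [hv, hn] at h3
    exact h2 (h3.1 hb)

end Pool.Agent.H83.T
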