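import Pool.Agent.H83.T.CrB

/-!
# TT-10: the ordinals are above the ordinals of the replies (job)

PROOF. `R.rho (wnd ..) x` has ordinal `< Gw R (bw k h (pb d₀ B (Mac k h)) (B (Mac k h)))` (`wnd_eq_bw`, `Gw_spec`).
If `h.length % k + 1 < k` then `alB k B (t :: h) = bl (B (Mac k h)) (h.length % k + 1)` by `Mac_cons_lt` (and
`(h.length + 1) % k = h.length % k + 1`), which is `≥` this by `hOk` (`(dat R k).Ok` unfolds). Otherwise
`h.length % k + 1 = k` and `alB k B (t :: h) = bl (B (i :: Mac k h)) 0` by `Mac_cons_eq`, which is above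
`(dat R k).Gr ..` by `hGr`, so use `Gr_spec`.
-/

set_option autoImplicit false

namespace Pool.Agent.H83.T

theorem raise {k : ℕ} (hk : 0 < k) (R : Rep) (d₀ : Fin k → K) (B : List (List ℕ) → (Fin k → K))
    (hOk : ∀ H, (dat R k).Ok (pb d₀ B H) (B H))
    (hGr : ∀ i H j, (dat R k).Gr (pb d₀ B H) (B H) < B (i :: H) j) (h : List ℕ) (t : ℕ) (x : Pt) :
    (R.rho (wnd k (alB k B) h) x).2 ≤ alB k B (t :: h) := by
  rw [wnd_eq_bw hk d₀ B h]
  have h1 := Gw_spec R (bw k h (pb d₀ B (Mac k h)) (B (Mac k h))) x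
  have hdm := Nat.div_add_mod h.length k
  have hml := Nat.mod_lt h.length hk
  by_cases hr : h.length % k + 1 < k
  · have hM := Mac_cons_lt (t := t) hr
    have hl : (t :: h).length % k = h.length % k + 1 := by
      have e : (t :: h).length = k * (h.length / k) + (h.length % k + 1) := by
        rw [List.length_cons]; omega
      rw [e, Nat.mul_add_mod, Nat.mod_eq_of_lt hr]
    unfold alB
    rw [hM, hl]
    exact h1.le.trans (hOk (Mac k h) h hr)
  · have hr' : h.length % k + 1 = k := by omega
    obtain ⟨i, hi⟩ := Mac_cons_eq (t := t) hr'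
    have hl : (t :: h).length % k = 0 := by
      have e : (t :: h).length = k * (h.length / k) + k := by
        rw [List.length_cons]; omega
      rw [e, Nat.mul_add_mod, Nat.mod_self]
    unfold alB
    rw [hi, hl]
    unfold bl
    rw [dif_pos hk]
    exact (h1.trans ((Gr_spec R k _ _ h).trans (hGr i (Mac k h) ⟨0, hk⟩))).le

end Pool.Agent.H83.T
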