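import Pool.Agent.H83.T.CrDef

/-!
# TT-11: Borel-Cantelli (job)

PROOF. `MeasureTheory.ae_finite_setOf_mem` (`∑' i, μ (s i) ≠ ∞ → ∀ᵐ x ∂μ, {i | x ∈ s i}.Finite`) for the
countable index type `List ℕ` and `s h = {x | Lw .. ≤ ..}` resp. `s h = {x | b ∉ Ew .. ∧ Hit ..}` (empty if `b ∈ Ew ..`,
otherwise of measure `< eta h` by `not_mem_Ew`). `mu (s h) ≤ ENNReal.ofReal (eta h)` (`Lw_spec`;
`ENNReal.ofReal_toReal`), `∑' h, ENNReal.ofReal (eta h) ≠ ∞` by `Summable.tsum_ofReal_ne_top` (or `ENNReal.ofReal_tsum_of_nonneg`), and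
`eta h = (1/2)^(ew h + 1)` is summable: `summable_geometric_two` composed with the injective function
`ew : List ℕ → ℕ` (`Summable.comp_injective`; injective by `dw_ew`).
-/

set_option autoImplicit false

namespace Pool.Agent.H83.T

open MeasureTheory

theorem summable_eta : Summable eta := by
  have hinj : Function.Injective (ew : List ℕ → ℕ) := by
    intro a b h
    rw [← dw_ew a, ← dw_ew b, h]
  have h1 : Summable (fun n : ℕ => (1 / 2 : ℝ) ^ (n + 1)) :=
    (summable_nat_add_iff 1).2 summable_geometric_two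
  exact h1.comp_injective hinj

private theorem crD_tsum {f : List ℕ → ENNReal} (h : ∀ i, f i ≤ ENNReal.ofReal (eta i)) :
    ∑' i, f i ≠ ⊤ :=
  ne_top_of_le_ne_top summable_eta.tsum_ofReal_ne_top (ENNReal.tsum_le_tsum h)

theorem bc_rare (R : Rep) (w : List ℕ → List (ℕ × K)) :
    ∀ᵐ x ∂mu, {h : List ℕ | Lw R h (w h) ≤ (R.rho (w h) x).1}.Finite := by
  have h1 : ∑' h, mu {x | Lw R h (w h) ≤ (R.rho (w h) x).1} ≠ ⊤ := by
    refine crD_tsum fun h => ?_
    exact (ENNReal.le_ofReal_iff_toReal_le (measure_ne_top _ _) (eta_pos h).le).2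
      (Lw_spec R h (w h))
  exact ae_finite_setOfPred_mem h1

theorem bc_hit (R : Rep) (w : List ℕ → List (ℕ × K)) (b : K) :
    ∀ᵐ x ∂mu, {h : List ℕ | b ∉ Ew R h (w h) ∧
      Hit (x b) (dw (R.rho (w h) x).1) (dw (sw h)).length}.Finite := by
  have h1 : ∑' h, mu {x : Pt | b ∉ Ew R h (w h) ∧
      Hit (x b) (dw (R.rho (w h) x).1) (dw (sw h)).length} ≠ ⊤ := by
    refine crD_tsum fun h => ?_
    by_cases hb : b ∈ Ew R h (w h)
    · have : {x : Pt | b ∉ Ew R h (w h) ∧
          Hit (x b) (dw (R.rho (w h) x).1) (dw (sw h)).length} = ∅ := by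
        ext x
        simp [hb]
      rw [this, measure_empty]
      exact zero_le
    · refine (ENNReal.le_ofReal_iff_toReal_le (measure_ne_top _ _) (eta_pos h).le).2 ?_
      refine le_trans (ENNReal.toReal_mono (measure_ne_top _ _) (measure_mono ?_))
        (not_mem_Ew hb).le
      rintro x ⟨-, hx⟩
      exact hx
  exact ae_finite_setOfPred_mem h1

end Pool.Agent.H83.T
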