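import Pool.Agent.H83.T.CrB

/-!
# TT-12: finitely many hits (job)

Write `W h = wnd k (alB k B) h = bw k h (pb d₀ B (Mac k h)) (B (Mac k h))` (`wnd_eq_bw`), `t n = (R.rho (W (hn n)) x).1`, so
`hn (n + 1) = t n :: hn n` and `(hn n).length = n`.

PROOF. `hn` is injective (lengths), so by `f1` there is `n₀` with `t n < Lw R (hn n) (W (hn n))` for all `n ≥ n₀` (no rare
steps). Suppose `b` is hit at infinitely many `n`. By `f2` (and injectivity) infinitely many `n` satisfy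
`b ∈ Ew R (hn n) (W (hn n))`. Let `n = k m + r`, `r < k`, with `k m ≥ n₀`, `h₀ = hn (k m)`. `H m := Mac k h₀ = mac k m h₀`
has `(H m).flatten = h₀` (`mac_flatten`), and for `j ≤ k`: `hn (k m + j) = u_j ++ h₀` with `u_j ∈ RR R k (pb d₀ B (H m)) (B (H m)) h₀ j`
for all `j ≤ k`, by induction on `j`: for `j < k`, `Mac k (hn (k m + j)) = H m` (`Mac_cons_lt`), hence
`W (u_j ++ h₀) = bw k (u_j ++ h₀) (pb d₀ B (H m)) (B (H m))`, and `t < Lw ..`.
So `b ∈ Ew R (hn n) (W (hn n))` gives `b ∈ (dat R k).Phi (H m) (pb d₀ B (H m)) (B (H m))`; this holds for infinitely many `m`.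
Also `H (m + 1) = i :: H m` with `i = u_k` (`u_k ++ h₀ = hn (k (m + 1))`, take `k`), `i ∈ (dat R k).Rr (H m) (pb ..) (B (H m))` for
`k m ≥ n₀`. Choose two such `m₁`, `m₂` with `m₁ + 1 < m₂`, both `k m ≥ n₀`. With `m = m₂ - 1`, `H m₂ = i :: H m`, `Q = H m₁` is a
proper suffix of `H m` (`H` grows by cons; `m₁ < m`), `pb d₀ B (i :: H m) = B (H m)`, so `hlast` gives
`b ∈ N`, contradiction.
-/

set_option autoImplicit false

namespace Pool.Agent.H83.T

theorem hn_len (R : Rep) (k : ℕ) (al : List ℕ → K) (x : Pt) (n : ℕ) :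
    (hn R k al x n).length = n := by
  induction n with
  | zero => rfl
  | succ n ih => simp [hn, ih]

theorem mac_len (k m : ℕ) (h : List ℕ) : (mac k m h).length = m := by
  induction m generalizing h with
  | zero => rfl
  | succ m ih => simp [mac, ih]

theorem Mac_app {k m : ℕ} (u h₀ : List ℕ) (hu : u.length < k) (hh : h₀.length = m * k) :
    Mac k (u ++ h₀) = mac k m h₀ := by
  have hl : (u ++ h₀).length = u.length + m * k := by simp [hh]
  unfold Mac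
  rw [hl, Nat.add_mul_mod_self_right, Nat.mod_eq_of_lt hu,
    Nat.add_mul_div_right _ _ (by omega), Nat.div_eq_of_lt hu, Nat.zero_add, List.drop_left]

theorem finite_hn (R : Rep) (k : ℕ) (al : List ℕ → K) (x : Pt) {P : List ℕ → Prop}
    (hP : {h | P h}.Finite) : {n | P (hn R k al x n)}.Finite := by
  have hinj : Function.Injective (hn R k al x) := by
    intro a b hab
    rw [← hn_len R k al x a, hab, hn_len]
  exact hP.preimage hinj.injOn

/-- the macro node number `m` of the play -/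
noncomputable def Hm (R : Rep) (k : ℕ) (B : List (List ℕ) → (Fin k → K)) (x : Pt) (m : ℕ) :
    List (List ℕ) := mac k m (hn R k (alB k B) x (m * k))

theorem steps {k : ℕ} (hk : 0 < k) (R : Rep) (d₀ : Fin k → K) (B : List (List ℕ) → (Fin k → K))
    (x : Pt) {n₀ : ℕ}
    (hn₀ : ∀ n, n₀ ≤ n → (R.rho (wnd k (alB k B) (hn R k (alB k B) x n)) x).1 <
      Lw R (hn R k (alB k B) x n) (wnd k (alB k B) (hn R k (alB k B) x n)))
    (m : ℕ) (hm : n₀ ≤ m * k) (j : ℕ) (hj : j ≤ k) :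
    ∃ u, u.length = j ∧ hn R k (alB k B) x (m * k + j) = u ++ hn R k (alB k B) x (m * k) ∧
      u ∈ RR R k (pb d₀ B (Hm R k B x m)) (B (Hm R k B x m)) (hn R k (alB k B) x (m * k)) j := by
  induction j with
  | zero => exact ⟨[], rfl, rfl, by simp [RR]⟩
  | succ j ih =>
    obtain ⟨u, hul, hu1, hu2⟩ := ih (by omega)
    have hM : Mac k (hn R k (alB k B) x (m * k + j)) = Hm R k B x m := by
      rw [hu1]
      exact Mac_app u _ (by omega) (hn_len _ _ _ _ _)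
    have hW := wnd_eq_bw hk d₀ B (hn R k (alB k B) x (m * k + j))
    rw [hM] at hW
    have h1 := hn₀ (m * k + j) (by omega)
    refine ⟨(R.rho (wnd k (alB k B) (hn R k (alB k B) x (m * k + j))) x).1 :: u, by simp [hul],
      ?_, ?_⟩
    · show (R.rho (wnd k (alB k B) (hn R k (alB k B) x (m * k + j))) x).1 ::
        hn R k (alB k B) x (m * k + j) = _
      rw [List.cons_append, ← hu1]
    · rw [RR, Finset.mem_biUnion]
      refine ⟨u, hu2, Finset.mem_image.2 ⟨_, Finset.mem_range.2 ?_, rfl⟩⟩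
      rw [← hu1, ← hW]
      exact h1

theorem Hm_flatten (R : Rep) (k : ℕ) (B : List (List ℕ) → (Fin k → K)) (x : Pt) (m : ℕ) :
    (Hm R k B x m).flatten = hn R k (alB k B) x (m * k) := mac_flatten (hn_len _ _ _ _ _)

theorem Hm_succ {k : ℕ} (hk : 0 < k) (R : Rep) (d₀ : Fin k → K) (B : List (List ℕ) → (Fin k → K))
    (x : Pt) {n₀ : ℕ}
    (hn₀ : ∀ n, n₀ ≤ n → (R.rho (wnd k (alB k B) (hn R k (alB k B) x n)) x).1 <
      Lw R (hn R k (alB k B) x n) (wnd k (alB k B) (hn R k (alB k B) x n)))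
    (m : ℕ) (hm : n₀ ≤ m * k) :
    ∃ i, Hm R k B x (m + 1) = i :: Hm R k B x m ∧
      i ∈ (dat R k).Rr (Hm R k B x m) (pb d₀ B (Hm R k B x m)) (B (Hm R k B x m)) := by
  obtain ⟨u, hul, hu1, hu2⟩ := steps hk R d₀ B x hn₀ m hm k le_rfl
  refine ⟨u, ?_, ?_⟩
  · have h1 : (m + 1) * k = m * k + k := by ring
    unfold Hm
    rw [mac, h1, hu1, List.take_left' hul, List.drop_left' hul]
  · show u ∈ RR R k _ _ (Hm R k B x m).flatten k
    rw [Hm_flatten]
    exact hu2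

theorem mem_Phi {k : ℕ} (hk : 0 < k) (R : Rep) (d₀ : Fin k → K) (B : List (List ℕ) → (Fin k → K))
    (x : Pt) {n₀ : ℕ}
    (hn₀ : ∀ n, n₀ ≤ n → (R.rho (wnd k (alB k B) (hn R k (alB k B) x n)) x).1 <
      Lw R (hn R k (alB k B) x n) (wnd k (alB k B) (hn R k (alB k B) x n)))
    (m : ℕ) (hm : n₀ ≤ m * k) (r : ℕ) (hr : r < k) {b : K}
    (hb : b ∈ Ew R (hn R k (alB k B) x (m * k + r))
      (wnd k (alB k B) (hn R k (alB k B) x (m * k + r)))) :
    b ∈ (dat R k).Phi (Hm R k B x m) (pb d₀ B (Hm R k B x m)) (B (Hm R k B x m)) := by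
  obtain ⟨u, hul, hu1, hu2⟩ := steps hk R d₀ B x hn₀ m hm r hr.le
  have hM : Mac k (hn R k (alB k B) x (m * k + r)) = Hm R k B x m := by
    rw [hu1]
    exact Mac_app u _ (by omega) (hn_len _ _ _ _ _)
  have hW := wnd_eq_bw hk d₀ B (hn R k (alB k B) x (m * k + r))
  rw [hM] at hW
  show b ∈ (Finset.range k).biUnion fun r =>
    (RR R k (pb d₀ B (Hm R k B x m)) (B (Hm R k B x m)) (Hm R k B x m).flatten r).biUnion fun u =>
    Ew R (u ++ (Hm R k B x m).flatten)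
      (bw k (u ++ (Hm R k B x m).flatten) (pb d₀ B (Hm R k B x m)) (B (Hm R k B x m)))
  rw [Finset.mem_biUnion]
  refine ⟨r, Finset.mem_range.2 hr, ?_⟩
  rw [Finset.mem_biUnion]
  refine ⟨u, ?_, ?_⟩
  · rw [Hm_flatten]
    exact hu2
  · rw [Hm_flatten, ← hu1, ← hW]
    exact hb

theorem Hm_suffix {k : ℕ} (hk : 0 < k) (R : Rep) (d₀ : Fin k → K)
    (B : List (List ℕ) → (Fin k → K))
    (x : Pt) {n₀ : ℕ}
    (hn₀ : ∀ n, n₀ ≤ n → (R.rho (wnd k (alB k B) (hn R k (alB k B) x n)) x).1 <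
      Lw R (hn R k (alB k B) x n) (wnd k (alB k B) (hn R k (alB k B) x n)))
    (m : ℕ) (hm : n₀ ≤ m * k) (d : ℕ) : Hm R k B x m <:+ Hm R k B x (m + d) := by
  induction d with
  | zero => exact List.suffix_rfl
  | succ d ih =>
    obtain ⟨i, hi, -⟩ := Hm_succ hk R d₀ B x hn₀ (m + d)
      (hm.trans (Nat.mul_le_mul_right _ (Nat.le_add_right _ _)))
    rw [← add_assoc, hi]
    exact ih.trans (List.suffix_cons _ _)

theorem fin_hits {k : ℕ} (hk : 0 < k) (R : Rep) (d₀ : Fin k → K) (B : List (List ℕ) → (Fin k → K))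
    (N : Set K)
    (hlast : ∀ i H, i ∈ (dat R k).Rr H (pb d₀ B H) (B H) → ∀ Q, Q <:+ H → Q ≠ H → ∀ b,
      b ∈ (dat R k).Phi (i :: H) (B H) (B (i :: H)) → b ∈ (dat R k).Phi Q (pb d₀ B Q) (B Q) → b ∈ N)
    (x : Pt) (b : K) (hb : b ∉ N)
    (f1 : {h : List ℕ | Lw R h (wnd k (alB k B) h) ≤ (R.rho (wnd k (alB k B) h) x).1}.Finite)
    (f2 : {h : List ℕ | b ∉ Ew R h (wnd k (alB k B) h) ∧
      Hit (x b) (dw (R.rho (wnd k (alB k B) h) x).1) (dw (sw h)).length}.Finite) :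
    {n | Hit (x b) (dw (R.rho (wnd k (alB k B) (hn R k (alB k B) x n)) x).1)
      (dw (sw (hn R k (alB k B) x n))).length}.Finite := by
  have g1 := finite_hn R k (alB k B) x f1
  have g2 := finite_hn R k (alB k B) x f2
  obtain ⟨M, hM⟩ := g1.bddAbove
  have hn₀ : ∀ n, M + 1 ≤ n → (R.rho (wnd k (alB k B) (hn R k (alB k B) x n)) x).1 <
      Lw R (hn R k (alB k B) x n) (wnd k (alB k B) (hn R k (alB k B) x n)) := by
    intro n hn
    by_contra hc
    have := hM (show n ∈ _ from not_lt.1 hc)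
    omega
  have g3 : {n | b ∈ Ew R (hn R k (alB k B) x n)
      (wnd k (alB k B) (hn R k (alB k B) x n))}.Finite := by
    by_contra hinf
    have hinf : {n | b ∈ Ew R (hn R k (alB k B) x n)
      (wnd k (alB k B) (hn R k (alB k B) x n))}.Infinite := hinf
    obtain ⟨n₁, hn₁, hb₁⟩ := hinf.exists_gt ((M + 1) * k)
    have e₁ : n₁ / k * k + n₁ % k = n₁ := Nat.div_add_mod' n₁ k
    have hm₁ : M + 1 ≤ n₁ / k := (Nat.le_div_iff_mul_le hk).2 hb₁.le
    have hm₁' : M + 1 ≤ n₁ / k * k := hm₁.trans (Nat.le_mul_of_pos_right _ hk)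
    obtain ⟨n₂, hn₂, hb₂⟩ := hinf.exists_gt ((n₁ / k + 2) * k)
    have e₂ : n₂ / k * k + n₂ % k = n₂ := Nat.div_add_mod' n₂ k
    have hm₂ : n₁ / k + 2 ≤ n₂ / k := (Nat.le_div_iff_mul_le hk).2 hb₂.le
    have hm₂' : M + 1 ≤ n₂ / k * k := le_trans (by omega) (Nat.le_mul_of_pos_right _ hk)
    have p₁ := mem_Phi hk R d₀ B x hn₀ (n₁ / k) hm₁' (n₁ % k) (Nat.mod_lt _ hk)
      (b := b) (by rw [e₁]; exact hn₁)
    have p₂ := mem_Phi hk R d₀ B x hn₀ (n₂ / k) hm₂' (n₂ % k) (Nat.mod_lt _ hk)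
      (b := b) (by rw [e₂]; exact hn₂)
    obtain ⟨m, hm⟩ : ∃ m, n₂ / k = m + 1 := ⟨n₂ / k - 1, by omega⟩
    rw [hm] at p₂
    have hmM : M + 1 ≤ m * k := le_trans (by omega : M + 1 ≤ m) (Nat.le_mul_of_pos_right _ hk)
    obtain ⟨i, hi1, hi2⟩ := Hm_succ hk R d₀ B x hn₀ m hmM
    rw [hi1] at p₂
    obtain ⟨d, hd⟩ : ∃ d, m = n₁ / k + d := ⟨m - n₁ / k, by omega⟩
    have hsuf := Hm_suffix hk R d₀ B x hn₀ (n₁ / k) hm₁' d
    rw [← hd] at hsuf
    have hne : Hm R k B x (n₁ / k) ≠ Hm R k B x m := by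
      intro he
      have := congrArg List.length he
      unfold Hm at this
      rw [mac_len, mac_len] at this
      omega
    exact hb (hlast i _ hi2 _ hsuf hne b p₂ p₁)
  refine (g2.union g3).subset ?_
  intro n hnn
  by_cases h : b ∈ Ew R (hn R k (alB k B) x n) (wnd k (alB k B) (hn R k (alB k B) x n))
  · exact Or.inr h
  · exact Or.inl ⟨h, hnn⟩

end Pool.Agent.H83.T
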