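import Pool.Agent.H83.T.CrDef

/-!
# TT-13: the real number built in the play (job)

Write `h n = hn R k al x n`, `s n = dw (sw (h n))`, `t n = dw (R.rho (wnd k al (h n)) x).1`, so that
`s (n + 1) = t n ++ zeros` (`dw_sw_cons`) and `s n <+: t n` (`R.pre` and `wnd_last`).

PROOFS.
* `hn_meas`: induction on `n`; `{x | h (n + 1) = l}` is empty for `l = []`, and for `l = v :: l'` it is
  `{x | h n = l'} ∩ {x | (R.rho (wnd k al l') x).1 = v}`, `R.meas1`.
* `hn_length`: induction.
* `s_prefix`: `s m <+: s n` for `m ≤ n`, since `s n <+: t n <+: s (n + 1)`.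
* `s_len`: `n < (s n).length` by induction: `(s (n + 1)).length ≥ (s n).length + 4`.
* `rl_eq`: for `i < (s n).length` the `i`-th entries of `s n` and `s i` (`i < (s i).length`) agree, since one is a prefix of the
  other.
* `rl_fin`: let `rl i = yv (x b) i` (which is `≥ 1`). If `i < (s 0).length` we get a contradiction, since `s 0` consists
  of zeros (`dw_sw_nil`). Otherwise let `n` be maximal with `(s n).length ≤ i` (lengths go to infinity), so
  `(s n).length ≤ i < (s (n + 1)).length`, `rl i` is the `i`-th entry of `s (n + 1) = t n ++ zeros`; as it is not `0`,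
  `i < (t n).length`, and `Hit (x b) (t n) (s n).length`. So `n` is in the finite set `hfin`, and `i < (t n).length` for one of
  these `n`: finitely many `i`.
-/

set_option autoImplicit false

namespace Pool.Agent.H83.T

open MeasureTheory

theorem hn_meas (R : Rep) (k : ℕ) (al : List ℕ → K) (n : ℕ) (l : List ℕ) :
    MeasurableSet {x | hn R k al x n = l} := by
  induction n generalizing l with
  | zero =>
    by_cases h : ([] : List ℕ) = l
    · have : {x : Pt | hn R k al x 0 = l} = Set.univ := by
        ext x; simp [hn, h]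
      rw [this]; exact MeasurableSet.univ
    · have : {x : Pt | hn R k al x 0 = l} = ∅ := by
        ext x; simp [hn, h]
      rw [this]; exact MeasurableSet.empty
  | succ n ih =>
    cases l with
    | nil =>
      have : {x : Pt | hn R k al x (n + 1) = []} = ∅ := by
        ext x; simp [hn]
      rw [this]; exact MeasurableSet.empty
    | cons v l =>
      have : {x : Pt | hn R k al x (n + 1) = v :: l} =
          {x | hn R k al x n = l} ∩ {x | (R.rho (wnd k al l) x).1 = v} := by
        ext x
        simp only [hn, Set.mem_ofPred_eq, Set.mem_inter_iff, List.cons.injEq]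
        constructor
        · rintro ⟨h1, h2⟩
          exact ⟨h2, by rw [← h2]; exact h1⟩
        · rintro ⟨h1, h2⟩
          exact ⟨by rw [h1]; exact h2, h1⟩
      rw [this]
      exact (ih l).inter (R.meas1 _ _)

theorem hn_length (R : Rep) (k : ℕ) (al : List ℕ → K) (x : Pt) (n : ℕ) :
    (hn R k al x n).length = n := by
  induction n with
  | zero => rfl
  | succ n ih => simp [hn, ih]

theorem s_t {k : ℕ} (hk : 0 < k) (R : Rep) (al : List ℕ → K) (x : Pt) (h : List ℕ) :
    dw (sw h) <+: dw (R.rho (wnd k al h) x).1 := by
  obtain ⟨w, hw⟩ := wnd_last hk al h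
  rw [hw]
  exact R.pre w _ _ x

theorem s_succ (R : Rep) (k : ℕ) (al : List ℕ → K) (x : Pt) (n : ℕ) :
    ∃ m, 4 ≤ m ∧ dw (sw (hn R k al x (n + 1))) =
      dw (R.rho (wnd k al (hn R k al x n)) x).1 ++ List.replicate m 0 := by
  refine ⟨_, ?_, dw_sw_cons _ _⟩
  omega

theorem s_prefix {k : ℕ} (hk : 0 < k) (R : Rep) (al : List ℕ → K) (x : Pt) {m n : ℕ} (h : m ≤ n) :
    dw (sw (hn R k al x m)) <+: dw (sw (hn R k al x n)) := by
  induction n, h using Nat.le_induction with
  | base => exact List.prefix_rfl
  | succ n _ ih =>
    obtain ⟨j, _, hj⟩ := s_succ R k al x n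
    rw [hj]
    exact ih.trans ((s_t hk R al x _).trans (List.prefix_append _ _))

theorem s_len {k : ℕ} (hk : 0 < k) (R : Rep) (al : List ℕ → K) (x : Pt) (n : ℕ) :
    n < (dw (sw (hn R k al x n))).length := by
  induction n with
  | zero =>
    have := sw_len (hn R k al x 0)
    omega
  | succ n ih =>
    obtain ⟨j, hj1, hj⟩ := s_succ R k al x n
    rw [hj, List.length_append, List.length_replicate]
    have := (s_t hk R al x (hn R k al x n)).length_le
    omega

theorem getD_prefix {a b : List ℕ} (h : a <+: b) {i : ℕ} (hi : i < a.length) :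
    b.getD i 0 = a.getD i 0 := by
  obtain ⟨c, rfl⟩ := h
  rw [List.getD_append _ _ _ _ hi]

theorem rl_eq {k : ℕ} (hk : 0 < k) (R : Rep) (al : List ℕ → K) (x : Pt) {n i : ℕ}
    (h : i < (dw (sw (hn R k al x n))).length) :
    (dw (sw (hn R k al x n))).getD i 0 = rl R k al x i := by
  unfold rl
  rcases le_total i n with h1 | h1
  · exact getD_prefix (s_prefix hk R al x h1) (s_len hk R al x i)
  · exact (getD_prefix (s_prefix hk R al x h1) h).symm

theorem rl_fin {k : ℕ} (hk : 0 < k) (R : Rep) (al : List ℕ → K) (x : Pt) (b : K)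
    (hfin : {n | Hit (x b) (dw (R.rho (wnd k al (hn R k al x n)) x).1)
      (dw (sw (hn R k al x n))).length}.Finite) :
    {i | rl R k al x i = yv (x b) i}.Finite := by
  have hsub : {i | rl R k al x i = yv (x b) i} ⊆
      ⋃ n ∈ {n | Hit (x b) (dw (R.rho (wnd k al (hn R k al x n)) x).1)
        (dw (sw (hn R k al x n))).length},
        {i | i < (dw (R.rho (wnd k al (hn R k al x n)) x).1).length} := by
    intro i hi
    have hi : rl R k al x i = yv (x b) i := hi
    have hpos : 1 ≤ rl R k al x i := by rw [hi]; unfold yv; omega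
    have h0 : (dw (sw (hn R k al x 0))).length ≤ i := by
      by_contra hc
      have h1 := rl_eq hk R al x (n := 0) (i := i) (by omega)
      have h2 : dw (sw (hn R k al x 0)) = List.replicate (ew [] + 4) 0 := dw_sw_nil
      rw [h2] at h1 hc
      rw [List.length_replicate] at hc
      have h3 : (List.replicate (ew [] + 4) 0).getD i 0 = 0 := by
        simp [List.getD_eq_getElem?_getD, List.getElem?_replicate]
        split <;> rfl
      omega
    have hex : ∃ n, i < (dw (sw (hn R k al x n))).length := ⟨i, s_len hk R al x i⟩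
    classical
    obtain ⟨m, hm, hmin⟩ : ∃ m, i < (dw (sw (hn R k al x m))).length ∧
        ∀ j, j < m → ¬ i < (dw (sw (hn R k al x j))).length :=
      ⟨Nat.find hex, Nat.find_spec hex, fun j hj => Nat.find_min hex hj⟩
    cases m with
    | zero => omega
    | succ n =>
      have h4 : (dw (sw (hn R k al x n))).length ≤ i := by
        have := hmin n (by omega)
        omega
      obtain ⟨j, _, hj⟩ := s_succ R k al x n
      have h5 := rl_eq hk R al x hm
      have h6 : i < (dw (R.rho (wnd k al (hn R k al x n)) x).1).length := by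
        by_contra hc
        rw [hj, List.getD_append_right _ _ _ _ (by omega)] at h5
        have h3 : (List.replicate j 0).getD
            (i - (dw (R.rho (wnd k al (hn R k al x n)) x).1).length) 0 = 0 := by
          simp [List.getD_eq_getElem?_getD, List.getElem?_replicate]
          split <;> rfl
        omega
      rw [hj, List.getD_append _ _ _ _ h6] at h5
      simp only [Set.mem_iUnion, exists_prop]
      exact ⟨n, ⟨i, h4, h6, by rw [h5, hi]⟩, h6⟩
  exact (hfin.biUnion fun n _ => Set.finite_lt_nat _).subset hsub

end Pool.Agent.H83.T
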