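import Pool.Agent.H83.T.CrA
import Pool.Agent.H83.T.CrC
import Pool.Agent.H83.T.CrD
import Pool.Agent.H83.T.CrE
import Pool.Agent.H83.T.CrF

/-!
# The core theorem

For every system of replies there is a choice of ordinals for player I such that the ordinals are
legal, and the real number built in the play is not hit infinitely often by any late sequence.
-/

set_option autoImplicit false

namespace Pool.Agent.H83.T

open MeasureTheory Cardinal

theorem core {k : ℕ} (hk : 0 < k) (R : Rep) :
    ∃ al : List ℕ → K, (∀ h t x, (R.rho (wnd k al h) x).2 ≤ al (t :: h)) ∧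
      ∀ b, (∃ h, al h ≤ b) → ∀ᵐ x ∂mu, {i | rl R k al x i = yv (x b) i}.Finite := by
  obtain ⟨N, B, -, hN, hOk, hGr, hlast⟩ := comb (dat R k) (dat_ok R k) (fun _ => Classical.arbitrary K)
  refine ⟨alB k B, fun h t x => raise hk R _ B hOk hGr h t x, ?_⟩
  rintro b ⟨h, hb⟩
  have hbN : b ∉ N := by
    intro hbN
    have h1 : b < alB k B h := by
      unfold alB bl
      rw [dif_pos (Nat.mod_lt _ hk)]
      exact hN _ _ b hbN
    exact absurd hb (not_le.2 h1)
  filter_upwards [bc_rare R (wnd k (alB k B)), bc_hit R (wnd k (alB k B)) b] with x h1 h2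
  exact rl_fin hk R _ x b (fin_hits hk R _ B N hlast x b hbN h1 h2)

end Pool.Agent.H83.T
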