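import Pool.Agent.H83.T.CrDef

/-!
# TT-8: admissible blocks above a given set (job)

PROOF of `bw_congr`. Both windows have the same words, and the ordinals agree: for an entry
`g = h.drop d` (`d < k`) with `h.length / k * k ≤ g.length ≤ h.length` one has `g.length % k ≤ h.length % k`, as
`g.length = h.length / k * k + (g.length - h.length / k * k)` and `g.length - h.length / k * k ≤ h.length % k < k`.

PROOF of `dat_ok`. Let `A` be of size `≤ 𝔠`. If `k = 0` take any block (all statements are vacuous or `Fin 0`). Define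
blocks `c 0, c 1, ..., c k` by recursion: `c 0` is arbitrary, `c (r + 1)` is `c r` with the entry `r` replaced by a `g`
that is above all elements of `A` and above `Gw R (bw k h a (c r))` for all `h : List ℕ` and all blocks `a` with `In A a`
(`K_bdd'` for the index type `A ⊕ (List ℕ × (Fin k → A))`, of size `≤ 𝔠`: a finite power of a set of size `≤ 𝔠` times a
countable set; `Cardinal.mk_pi`, `Cardinal.power_nat_le`, ...). Then `a' = c k` works: the entry `r` of `c k` is the entry `r` of `c (r + 1)`
(later steps change other entries), and `bl (c k) j = bl (c (r + 1)) j` for `j ≤ r`. For `Ok a a'`, `In A a`, and `h` with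
`r = h.length % k + 1 < k`: the entry `r` of `a'` is above `Gw R (bw k h a (c r))`, and
`bw k h a (c r) = bw k h a a'` by `bw_congr`, because `c r` and `a'` have the same entries `j ≤ h.length % k = r - 1`.
-/

set_option autoImplicit false

namespace Pool.Agent.H83.T

open Cardinal

theorem bw_congr {k : ℕ} (hk : 0 < k) (h : List ℕ) (a c c' : Fin k → K)
    (hc : ∀ j ≤ h.length % k, bl c j = bl c' j) : bw k h a c = bw k h a c' := by
  unfold bw
  refine List.map_congr_left fun i hi => ?_
  have hi' : i < min k (h.length + 1) := List.mem_range.1 hi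
  set d := min k (h.length + 1) - 1 - i with hd
  have hlen : (h.drop d).length = h.length - d := List.length_drop
  split_ifs with hcase
  · rw [hlen] at hcase ⊢
    have h1 : h.length / k * k + h.length % k = h.length := Nat.div_add_mod' _ _
    have h2 : h.length % k < k := Nat.mod_lt _ hk
    obtain ⟨e, he⟩ := Nat.exists_eq_add_of_le hcase
    have he' : e ≤ h.length % k := by omega
    have h3 : (h.length - d) % k = e := by
      rw [he, Nat.add_comm, Nat.add_mul_mod_self_right]
      exact Nat.mod_eq_of_lt (by omega)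
    rw [h3, hc e he']
  · rfl

theorem dat_step (R : Rep) (k : ℕ) (A : Set K) (hA : #A ≤ 𝔠) (c : Fin k → K) :
    ∃ g : K, (∀ x ∈ A, x < g) ∧ ∀ (h : List ℕ) (a : Fin k → K), In A a →
      Gw R (bw k h a c) < g := by
  have hcard : #(A ⊕ (List ℕ × (Fin k → A))) ≤ 𝔠 := by
    rw [mk_sum, mk_prod, lift_id, lift_id, lift_id, lift_id]
    have h1 : #(Fin k → A) ≤ 𝔠 := by
      rw [← power_def, mk_fin]
      exact (power_le_power_right hA).trans (power_nat_le aleph0_le_continuum)
    have h2 : #(List ℕ) ≤ 𝔠 := mk_le_aleph0.trans aleph0_le_continuum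
    calc #A + #(List ℕ) * #(Fin k → A) ≤ 𝔠 + 𝔠 * 𝔠 :=
          add_le_add hA (mul_le_mul' h2 h1)
      _ = 𝔠 := by rw [continuum_mul_self, continuum_add_self]
  obtain ⟨g, hg⟩ := K_bdd' hcard
    (Sum.elim (fun x => x.1) (fun p => Gw R (bw k p.1 (fun j => (p.2 j).1) c)))
  refine ⟨g, fun x hx => hg (Sum.inl ⟨x, hx⟩), ?_⟩
  intro h a ha
  exact hg (Sum.inr (h, fun j => ⟨a j, ha j⟩))

/-- the blocks of the construction -/
noncomputable def datC {k : ℕ} (G : (Fin k → K) → K) : ℕ → (Fin k → K)
  | 0 => fun _ => Classical.arbitrary K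
  | r + 1 => fun j => if j.1 = r then G (datC G r) else datC G r j

theorem datC_eq {k : ℕ} (G : (Fin k → K) → K) (n : ℕ) (j : Fin k) (hj : j.1 < n) :
    datC G n j = G (datC G j.1) := by
  induction n with
  | zero => omega
  | succ n ih =>
    by_cases h : j.1 = n
    · simp [datC, h]
    · simp only [datC, if_neg h]
      exact ih (by omega)

theorem dat_ok (R : Rep) (k : ℕ) (A : Set K) (hA : #A ≤ 𝔠) :
    ∃ a' : Fin k → K, (∀ j, ∀ x ∈ A, x < a' j) ∧ ∀ a, In A a → (dat R k).Ok a a' := by
  choose G hG1 hG2 using dat_step R k A hA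
  refine ⟨datC G k, ?_, ?_⟩
  · intro j x hx
    rw [datC_eq G k j j.2]
    exact hG1 _ x hx
  · intro a ha
    change ∀ h : List ℕ, h.length % k + 1 < k →
      Gw R (bw k h a (datC G k)) ≤ bl (datC G k) (h.length % k + 1)
    intro h hr
    have hk : 0 < k := by omega
    have h1 : bl (datC G k) (h.length % k + 1) = G (datC G (h.length % k + 1)) := by
      unfold bl
      rw [dif_pos hr, datC_eq G k _ hr]
    have h2 : bw k h a (datC G (h.length % k + 1)) = bw k h a (datC G k) := by
      refine bw_congr hk h a _ _ ?_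
      intro j hj
      have hjk : j < k := by omega
      unfold bl
      rw [dif_pos hjk, dif_pos hjk, datC_eq G _ ⟨j, hjk⟩ (by
        change j < h.length % k + 1
        omega), datC_eq G k ⟨j, hjk⟩ hjk]
    rw [h1, ← h2]
    exact (hG2 _ h a ha).le

end Pool.Agent.H83.T
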