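import Pool.Agent.H83.T.CrDef

/-!
# TT-9: bookkeeping for histories and macro nodes (job)

`Mac k h = mac k (h.length / k) (h.drop (h.length % k))`.

PROOFS.
* `Mac_cons_lt`: `(t :: h).length % k = h.length % k + 1`, the same quotient, and
  `(t :: h).drop (r + 1) = h.drop r`.
* `Mac_cons_eq`: `(t :: h).length = (h.length / k + 1) * k`, so `Mac k (t :: h) = mac k (h.length / k + 1) (t :: h)`
  `= (t :: h).take k :: mac k (h.length / k) ((t :: h).drop k)` and `(t :: h).drop k = h.drop (k - 1)`.
* `mac_flatten` : induction on `m`.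
* `wnd_eq_bw`: compare the entries. Let `l = min k (h.length + 1)`, `i < l`, `d = l - 1 - i < k`, `g = h.drop d`,
  `n = h.length`, `g.length = n - d`. If `n / k * k ≤ n - d`: then `g.length / k = n / k`, `g.length % k = n % k - d`,
  `g.drop (g.length % k) = h.drop (n % k)`, so `Mac k g = Mac k h` and `alB k B g = bl (B (Mac k h)) (g.length % k)`.
  Otherwise `n - d < n / k * k`, so `n / k = m + 1`, `m * k ≤ n - d < (m + 1) * k` (as `d < k` and `d > n % k`), `g.length / k = m`,
  `g.drop (g.length % k) = h.drop (n - m * k) = (h.drop (n % k)).drop k`, so `Mac k h = i :: Mac k g`, hence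
  `pb d₀ B (Mac k h) = B (Mac k g)`.
-/

set_option autoImplicit false

namespace Pool.Agent.H83.T

private theorem crb_divmod {k q r n : ℕ} (h : n = q * k + r) (hr : r < k) :
    n / k = q ∧ n % k = r := by
  subst h
  have hk : 0 < k := by omega
  constructor
  · rw [Nat.mul_comm, Nat.mul_add_div hk, Nat.div_eq_of_lt hr, Nat.add_zero]
  · rw [Nat.mul_comm, Nat.mul_add_mod, Nat.mod_eq_of_lt hr]

private theorem crb_eq (n k : ℕ) : n = n / k * k + n % k := by
  have := Nat.div_add_mod n k
  rw [Nat.mul_comm] at this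
  omega

theorem Mac_cons_lt {k : ℕ} {t : ℕ} {h : List ℕ} (hr : h.length % k + 1 < k) :
    Mac k (t :: h) = Mac k h := by
  have h0 := crb_eq h.length k
  obtain ⟨h1, h2⟩ := crb_divmod (k := k) (q := h.length / k) (r := h.length % k + 1)
    (n := (t :: h).length) (by rw [List.length_cons]; omega) hr
  unfold Mac
  rw [h1, h2, List.drop_succ_cons]

theorem Mac_cons_eq {k : ℕ} {t : ℕ} {h : List ℕ} (hr : h.length % k + 1 = k) :
    ∃ i, Mac k (t :: h) = i :: Mac k h := by
  have h0 := crb_eq h.length k
  obtain ⟨h1, h2⟩ := crb_divmod (k := k) (q := h.length / k + 1) (r := 0)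
    (n := (t :: h).length) (by rw [List.length_cons, Nat.add_mul]; omega) (by omega)
  refine ⟨(t :: h).take k, ?_⟩
  unfold Mac
  rw [h1, h2, List.drop_zero, mac]
  have h3 : (t :: h).drop k = h.drop (h.length % k) := by
    conv_lhs => rw [← hr]
    rw [List.drop_succ_cons]
  rw [h3]

theorem mac_flatten {k m : ℕ} {h : List ℕ} (hh : h.length = m * k) :
    (mac k m h).flatten = h := by
  induction m generalizing h with
  | zero =>
    rw [Nat.zero_mul] at hh
    rw [List.eq_nil_of_length_eq_zero hh]
    rfl
  | succ m ih =>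
    rw [mac, List.flatten_cons, ih (h := h.drop k) (by
      rw [List.length_drop, hh, Nat.add_mul]; omega), List.take_append_drop]

theorem wnd_eq_bw {k : ℕ} (hk : 0 < k) (d₀ : Fin k → K) (B : List (List ℕ) → (Fin k → K))
    (h : List ℕ) :
    wnd k (alB k B) h = bw k h (pb d₀ B (Mac k h)) (B (Mac k h)) := by
  unfold wnd bw
  apply List.map_congr_left
  intro i hi
  rw [List.mem_range] at hi
  refine Prod.ext rfl ?_
  show alB k B (h.drop (min k (h.length + 1) - 1 - i)) = _
  obtain ⟨d, hd⟩ : ∃ d, d = min k (h.length + 1) - 1 - i := ⟨_, rfl⟩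
  have hdk : d < k := by omega
  have hdn : d ≤ h.length := by omega
  rw [← hd]
  have h0 := crb_eq h.length k
  have hlt : h.length % k < k := Nat.mod_lt _ hk
  have hgl : (h.drop d).length = h.length - d := List.length_drop
  split_ifs with hc
  · rw [hgl] at hc
    obtain ⟨h1, h2⟩ := crb_divmod (k := k) (q := h.length / k) (r := h.length % k - d)
      (n := (h.drop d).length) (by rw [hgl]; omega) (by omega)
    unfold alB
    have h3 : Mac k (h.drop d) = Mac k h := by
      unfold Mac
      rw [h1, h2, List.drop_drop]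
      congr 2
      omega
    rw [h3]
  · rw [hgl, not_le] at hc
    obtain ⟨m, hm⟩ : ∃ m, h.length / k = m + 1 := by
      rcases Nat.eq_zero_or_pos (h.length / k) with h5 | h5
      · rw [h5, Nat.zero_mul] at hc; omega
      · exact ⟨h.length / k - 1, by omega⟩
    rw [hm, Nat.add_mul, Nat.one_mul] at h0 hc
    obtain ⟨h1, h2⟩ := crb_divmod (k := k) (q := m) (r := k + h.length % k - d)
      (n := (h.drop d).length) (by rw [hgl]; omega) (by omega)
    unfold alB
    have h3 : Mac k h = (h.drop (h.length % k)).take k :: Mac k (h.drop d) := by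
      unfold Mac
      rw [h1, h2, hm, mac, List.drop_drop, List.drop_drop]
      congr 3
      omega
    rw [h3, pb]

end Pool.Agent.H83.T
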