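import Pool.Agent.H83.T.VFin
import Pool.Agent.H83.T.CbD

/-!
# Replies, words, windows, blocks

`Rep`: the replies `rho w x = (word code, ordinal)` to the window `w` at the point `x`.
A history is the list `h` of the word codes of the replies, the most recent first. `sw h` is the
(code of the) word played at `h`, `al h` the ordinal played at `h`; `wnd k al h` is the window at `h`.

Blocks: `Mac k h` is the macro node of the history `h` (the history without the `h.length % k` most recent
entries, cut in pieces of length `k`), `alB k B h` the ordinal given by the blocks `B`.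
`bw k h a a'` is the window at `h` if the previous block is `a` and the current block is `a'`.
-/

set_option autoImplicit false

namespace Pool.Agent.H83.T

open MeasureTheory Pool.Agent.H17.GP Pool.Agent.H19.GP

/-- replies -/
structure Rep where
  /-- the reply -/
  rho : List (ℕ × K) → Pt → ℕ × K
  meas : ∀ w v, MeasurableSet {x | rho w x = v}
  ctb : ∀ w, (Set.range (rho w)).Countable
  pre : ∀ w c a x, dw c <+: dw (rho (w ++ [(c, a)]) x).1

/-- the word played at the history `h` -/
def sw : List ℕ → ℕ
  | [] => ew (List.replicate (ew [] + 4) 0)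
  | t :: h => ew (dw t ++ List.replicate (ew (t :: h) + 4) 0)

theorem dw_sw_cons (t : ℕ) (h : List ℕ) :
    dw (sw (t :: h)) = dw t ++ List.replicate (ew (t :: h) + 4) 0 := by
  rw [sw, dw_ew]

theorem dw_sw_nil : dw (sw []) = List.replicate (ew [] + 4) 0 := by
  rw [sw, dw_ew]

theorem sw_len (h : List ℕ) : ew h + 4 ≤ (dw (sw h)).length := by
  cases h with
  | nil => rw [dw_sw_nil]; simp
  | cons t h => rw [dw_sw_cons]; simp

/-- the window at `h` -/
def wnd (k : ℕ) (al : List ℕ → K) (h : List ℕ) : List (ℕ × K) :=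
  (List.range (min k (h.length + 1))).map fun i =>
    (sw (h.drop (min k (h.length + 1) - 1 - i)), al (h.drop (min k (h.length + 1) - 1 - i)))

theorem wnd_last {k : ℕ} (hk : 0 < k) (al : List ℕ → K) (h : List ℕ) :
    ∃ w, wnd k al h = w ++ [(sw h, al h)] := by
  obtain ⟨l, hl⟩ : ∃ l, min k (h.length + 1) = l + 1 := ⟨min k (h.length + 1) - 1, by omega⟩
  refine ⟨(List.range l).map fun i =>
    (sw (h.drop (min k (h.length + 1) - 1 - i)), al (h.drop (min k (h.length + 1) - 1 - i))), ?_⟩
  unfold wnd
  rw [hl, List.range_succ, List.map_append]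
  simp

/-- entries of a block -/
noncomputable def bl {k : ℕ} (a : Fin k → K) (r : ℕ) : K :=
  if h : r < k then a ⟨r, h⟩ else Classical.arbitrary K

/-- cut in pieces of length `k` -/
def mac (k : ℕ) : ℕ → List ℕ → List (List ℕ)
  | 0, _ => []
  | m + 1, h => h.take k :: mac k m (h.drop k)

/-- the macro node of `h` -/
def Mac (k : ℕ) (h : List ℕ) : List (List ℕ) := mac k (h.length / k) (h.drop (h.length % k))

/-- the ordinal at `h` given by the blocks -/
noncomputable def alB (k : ℕ) (B : List (List ℕ) → (Fin k → K)) (h : List ℕ) : K :=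
  bl (B (Mac k h)) (h.length % k)

/-- the window at `h` for the previous block `a` and the current block `a'` -/
noncomputable def bw (k : ℕ) (h : List ℕ) (a a' : Fin k → K) : List (ℕ × K) :=
  (List.range (min k (h.length + 1))).map fun i =>
    (sw (h.drop (min k (h.length + 1) - 1 - i)),
      if h.length / k * k ≤ (h.drop (min k (h.length + 1) - 1 - i)).length then
        bl a' ((h.drop (min k (h.length + 1) - 1 - i)).length % k)
      else bl a ((h.drop (min k (h.length + 1) - 1 - i)).length % k))

/-- the bound at `h` -/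
noncomputable def eta (h : List ℕ) : ℝ := (1 / 2) ^ (ew h + 1)

theorem eta_pos (h : List ℕ) : 0 < eta h := by unfold eta; positivity

theorem Rep.meas1 (R : Rep) (w : List (ℕ × K)) (v : ℕ) : MeasurableSet {x | (R.rho w x).1 = v} := by
  have : {x | (R.rho w x).1 = v} = ⋃ p ∈ Set.range (R.rho w) ∩ {p | p.1 = v}, {x | R.rho w x = p} := by
    ext x
    simp
  rw [this]
  exact MeasurableSet.biUnion ((R.ctb w).mono Set.inter_subset_left) fun p _ => R.meas w p

theorem Ew_fin (R : Rep) (h : List ℕ) (w : List (ℕ × K)) :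
    {b : K | eta h ≤ (mu {x | Hit (x b) (dw (R.rho w x).1) (dw (sw h)).length}).toReal}.Finite := by
  apply fin_hit (R.meas1 w)
  have h1 := sw_len h
  have h2 : (1 / 2 : ℝ) ^ (dw (sw h)).length ≤ (1 / 2) ^ (ew h + 4) :=
    pow_le_pow_of_le_one (by norm_num) (by norm_num) h1
  unfold eta
  have h3 : (0 : ℝ) < (1 / 2) ^ (ew h) := by positivity
  rw [pow_add] at h2 ⊢
  nlinarith

/-- the finite set of sequences that are hit with large probability at `h` -/
noncomputable def Ew (R : Rep) (h : List ℕ) (w : List (ℕ × K)) : Finset K := (Ew_fin R h w).toFinset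

theorem not_mem_Ew {R : Rep} {h : List ℕ} {w : List (ℕ × K)} {b : K} (hb : b ∉ Ew R h w) :
    (mu {x | Hit (x b) (dw (R.rho w x).1) (dw (sw h)).length}).toReal < eta h := by
  by_contra hc
  exact hb ((Ew_fin R h w).mem_toFinset.2 (not_lt.1 hc))

/-- the cut at `h` -/
noncomputable def Lw (R : Rep) (h : List ℕ) (w : List (ℕ × K)) : ℕ :=
  (exists_cut (R.meas1 w) (eta h) (eta_pos h)).choose

theorem Lw_spec (R : Rep) (h : List ℕ) (w : List (ℕ × K)) :
    (mu {x | Lw R h w ≤ (R.rho w x).1}).toReal ≤ eta h :=
  (exists_cut (R.meas1 w) (eta h) (eta_pos h)).choose_spec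

theorem exists_Gw (R : Rep) (w : List (ℕ × K)) : ∃ g : K, ∀ x, (R.rho w x).2 < g := by
  have hc : (Prod.snd '' Set.range (R.rho w)).Countable := (R.ctb w).image _
  obtain ⟨b, hb⟩ := K_bdd _ (hc.le_aleph0.trans Cardinal.aleph0_le_continuum)
  exact ⟨b, fun x => hb _ ⟨_, ⟨x, rfl⟩, rfl⟩⟩

/-- a bound for the ordinals of the replies -/
noncomputable def Gw (R : Rep) (w : List (ℕ × K)) : K := (exists_Gw R w).choose

theorem Gw_spec (R : Rep) (w : List (ℕ × K)) (x : Pt) : (R.rho w x).2 < Gw R w :=
  (exists_Gw R w).choose_spec x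

/-- the non-rare continuations of length `r` of the history `h₀` -/
noncomputable def RR (R : Rep) (k : ℕ) (a a' : Fin k → K) (h₀ : List ℕ) : ℕ → Finset (List ℕ)
  | 0 => {[]}
  | r + 1 => (RR R k a a' h₀ r).biUnion fun u =>
      (Finset.range (Lw R (u ++ h₀) (bw k (u ++ h₀) a a'))).image fun t => t :: u

theorem exists_Gr (R : Rep) (k : ℕ) (a a' : Fin k → K) :
    ∃ g : K, ∀ h : List ℕ, Gw R (bw k h a a') < g :=
  K_bdd' (Cardinal.mk_le_aleph0.trans Cardinal.aleph0_le_continuum) _

/-- the combinatorial data of the replies -/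
noncomputable def dat (R : Rep) (k : ℕ) : CD K (List ℕ) k where
  Phi H a a' := (Finset.range k).biUnion fun r => (RR R k a a' H.flatten r).biUnion fun u =>
    Ew R (u ++ H.flatten) (bw k (u ++ H.flatten) a a')
  Rr H a a' := RR R k a a' H.flatten k
  Ok a a' := ∀ h : List ℕ, h.length % k + 1 < k →
    Gw R (bw k h a a') ≤ bl a' (h.length % k + 1)
  Gr a a' := (exists_Gr R k a a').choose

theorem Gr_spec (R : Rep) (k : ℕ) (a a' : Fin k → K) (h : List ℕ) :
    Gw R (bw k h a a') < (dat R k).Gr a a' := (exists_Gr R k a a').choose_spec h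

/-- the history at the point `x` -/
noncomputable def hn (R : Rep) (k : ℕ) (al : List ℕ → K) (x : Pt) : ℕ → List ℕ
  | 0 => []
  | n + 1 => (R.rho (wnd k al (hn R k al x n)) x).1 :: hn R k al x n

/-- the real number built in the play -/
noncomputable def rl (R : Rep) (k : ℕ) (al : List ℕ → K) (x : Pt) (i : ℕ) : ℕ :=
  (dw (sw (hn R k al x i))).getD i 0

end Pool.Agent.H83.T
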