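import Pool.Agent.H83.T.NmE
import Pool.Agent.H83.T.CrF

/-!
# TT-29: the play in a generic model (job)

`Pl A R k al`: the decided history `h`, the decided replies `(t n, g n)`, and elements `sM`, `aM` of the model: the sequences
of the words and of the ordinals.

PROOFS.
* `eb_meas`: with `P m = {x | ∀ i ≥ m, rl x i ≠ yv (x b) i}` (measurable: countable intersection; `rl x i` is a function of
  `hn R k al x i`, `hn_meas`; increasing in `m`), `{x | eb x = m}` is `P m \ ⋃ m' < m, P m'` for `m > 0`, and `P 0 ∪ (⋃ m, P m)ᶜ` for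
  `m = 0` (`Nat.sInf_mem`, `Nat.sInf_empty`, `Nat.notMem_of_lt_sInf`).
* `eb_spec`: the set is not empty, `Nat.sInf_mem`.
* `rho_meas`, `pl_meas1` ..: countable unions over `hn R k al x n = l` (`hn_meas`, `R.meas`).
* `exists_Pl`: `fN_val` for `hN` (with `θ = ω`, `t = P.w`): for every `n` there is `e n` with `Ev {x | ew (hn R k al x n) = e n}`; let
  `h n = dw (e n)`. `fN_val` for `gNm` gives `g n` with `Ev {x | (R.rho (wnd k al (hn R k al x n)) x).2 = g n}`. `t n` is the head of `h (n + 1)`.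
  Intersections of events with `Ev` are nonempty and `Ev` (`Ev.inter`, `Ev.nonempty`, `Ev.mono`): `h 0 = []`, `h (n + 1) = t n :: h n`, and
  `R.rho (wnd k al (h n)) x = (t n, g n)` on the event `hn x n = h n ∧ hn x (n + 1) = h (n + 1) ∧ (R.rho (wnd k al (hn x n)) x).2 = g n`. `fN_val` for `sNm`, `aNm`
  gives `rs`, `ra`; elements of `S` are those with names `kN _` (`fN_val` also gives the named element), `or_spec`, `o_eq`.
-/

set_option autoImplicit false
set_option linter.unusedVariables false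

namespace Pool.Agent.H83.T

open MeasureTheory Pool.Agent.H86 Pool.Agent.H86.Name Pool.Agent.H83.F

section

variable (R : Rep) (k : ℕ) (al : List ℕ → K)

/-- a bound for the hits of the sequence `b` -/
noncomputable def eb (b : K) (x : Pt) : ℕ := sInf {m | ∀ i, m ≤ i → rl R k al x i ≠ yv (x b) i}

theorem rl_yv_meas (b : K) (i : ℕ) : MeasurableSet {x | rl R k al x i = yv (x b) i} := by
  have : {x | rl R k al x i = yv (x b) i} = ⋃ l : List ℕ, {x | hn R k al x i = l} ∩
      {x : Pt | yv (x b) i = (dw (sw l)).getD i 0} := by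
    ext x
    simp only [Set.mem_ofPred_eq, Set.mem_iUnion, Set.mem_inter_iff]
    constructor
    · intro h
      exact ⟨_, rfl, h.symm⟩
    · rintro ⟨l, h1, h2⟩
      unfold rl
      rw [h1, h2]
  rw [this]
  exact MeasurableSet.iUnion fun l => (hn_meas R k al i l).inter (meas_yv b i _)

theorem ebP_meas (b : K) (m : ℕ) :
    MeasurableSet {x | ∀ i, m ≤ i → rl R k al x i ≠ yv (x b) i} := by
  have : {x | ∀ i, m ≤ i → rl R k al x i ≠ yv (x b) i} =
      ⋂ i : ℕ, ⋂ _ : m ≤ i, {x | rl R k al x i = yv (x b) i}ᶜ := by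
    ext x
    simp
  rw [this]
  exact MeasurableSet.iInter fun i => MeasurableSet.iInter fun _ => (rl_yv_meas R k al b i).compl

theorem fiA_sInf_eq_iff (S : Set ℕ) (m : ℕ) :
    sInf S = m ↔ (m ∈ S ∧ ∀ m' < m, m' ∉ S) ∨ (m = 0 ∧ ∀ m', m' ∉ S) := by
  constructor
  · intro h
    by_cases hS : S.Nonempty
    · left
      refine ⟨h ▸ Nat.sInf_mem hS, fun m' hm' => ?_⟩
      rw [← h] at hm'
      exact Nat.notMem_of_lt_sInf hm'
    · right
      rw [Set.not_nonempty_iff_eq_empty] at hS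
      subst hS
      rw [Nat.sInf_empty] at h
      exact ⟨h.symm, fun m' hm' => hm'⟩
  · rintro (⟨h1, h2⟩ | ⟨h1, h2⟩)
    · apply le_antisymm (Nat.sInf_le h1)
      by_contra hc
      exact h2 _ (not_le.1 hc) (Nat.sInf_mem ⟨m, h1⟩)
    · have : S = ∅ := Set.eq_empty_iff_forall_notMem.2 h2
      rw [this, Nat.sInf_empty, h1]

theorem eb_meas (b : K) (m : ℕ) : MeasurableSet {x | eb R k al b x = m} := by
  have : {x | eb R k al b x = m} =
      ({x | ∀ i, m ≤ i → rl R k al x i ≠ yv (x b) i} ∩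
        ⋂ m' : ℕ, ⋂ _ : m' < m, {x | ∀ i, m' ≤ i → rl R k al x i ≠ yv (x b) i}ᶜ) ∪
      ({x : Pt | m = 0} ∩ ⋂ m' : ℕ, {x | ∀ i, m' ≤ i → rl R k al x i ≠ yv (x b) i}ᶜ) := by
    ext x
    have h := fiA_sInf_eq_iff {m | ∀ i, m ≤ i → rl R k al x i ≠ yv (x b) i} m
    constructor
    · intro hx
      rcases h.1 hx with ⟨h1, h2⟩ | ⟨h1, h2⟩
      · left
        refine ⟨h1, ?_⟩
        rw [Set.mem_iInter]
        intro m'
        rw [Set.mem_iInter]
        exact fun hm' => h2 m' hm'
      · right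
        refine ⟨h1, ?_⟩
        rw [Set.mem_iInter]
        exact fun m' => h2 m'
    · rintro (⟨h1, h2⟩ | ⟨h1, h2⟩)
      · refine h.2 (Or.inl ⟨h1, fun m' hm' => ?_⟩)
        exact Set.mem_iInter.1 (Set.mem_iInter.1 h2 m') hm'
      · refine h.2 (Or.inr ⟨h1, fun m' => ?_⟩)
        exact Set.mem_iInter.1 h2 m'
  rw [this]
  refine MeasurableSet.union ((ebP_meas R k al b m).inter ?_) (MeasurableSet.inter ?_ ?_)
  · exact MeasurableSet.iInter fun m' => MeasurableSet.iInter fun _ => (ebP_meas R k al b m').compl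
  · exact MeasurableSet.const _
  · exact MeasurableSet.iInter fun m' => (ebP_meas R k al b m').compl

theorem eb_spec {b : K} {x : Pt} (h : {i | rl R k al x i = yv (x b) i}.Finite) {i : ℕ}
    (hi : eb R k al b x ≤ i) : rl R k al x i ≠ yv (x b) i := by
  have hne : {m | ∀ i, m ≤ i → rl R k al x i ≠ yv (x b) i}.Nonempty := by
    obtain ⟨M, hM⟩ := h.bddAbove
    refine ⟨M + 1, fun j hj hc => ?_⟩
    have := hM hc
    omega
  exact Nat.sInf_mem hne i hi

theorem pl_meas {V : Type} (F : List ℕ → Pt → V) (hF : ∀ l v, MeasurableSet {x | F l x = v})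
    (n : ℕ) (v : V) : MeasurableSet {x | F (hn R k al x n) x = v} := by
  have : {x | F (hn R k al x n) x = v} =
      ⋃ l : List ℕ, {x | hn R k al x n = l} ∩ {x | F l x = v} := by
    ext x
    simp only [Set.mem_ofPred_eq, Set.mem_iUnion, Set.mem_inter_iff]
    constructor
    · intro h
      exact ⟨_, rfl, h⟩
    · rintro ⟨l, rfl, h2⟩
      exact h2
  rw [this]
  exact MeasurableSet.iUnion fun l => (hn_meas R k al n l).inter (hF l v)

theorem const_meas {V : Type} (F : List ℕ → V) (l : List ℕ) (v : V) :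
    MeasurableSet {x : Pt | F l = v} := by
  by_cases h : F l = v
  · simp [h]
  · simp [h]

theorem rho2_meas (w : List (ℕ × K)) (v : K) : MeasurableSet {x | (R.rho w x).2 = v} := by
  have : {x | (R.rho w x).2 = v} = ⋃ p ∈ Set.range (R.rho w) ∩ {p | p.2 = v}, {x | R.rho w x = p} := by
    ext x
    simp
  rw [this]
  exact MeasurableSet.biUnion ((R.ctb w).mono Set.inter_subset_left) fun p _ => R.meas w p

/-- name of the sequence of the histories -/
noncomputable def hNm : Name Q :=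
  fN nN (fun m : ℕ => (m : Ordinal.{0})) (fun n x => ew (hn R k al x n))
    (fun n v => pl_meas R k al (fun l _ => ew l) (const_meas _) n v)

/-- name of the sequence of the words -/
noncomputable def sNm : Name Q :=
  fN nN (fun m : ℕ => (m : Ordinal.{0})) (fun n x => sw (hn R k al x n))
    (fun n v => pl_meas R k al (fun l _ => sw l) (const_meas _) n v)

/-- name of the sequence of the ordinals -/
noncomputable def aNm : Name Q :=
  fN nN oK (fun n x => al (hn R k al x n))
    (fun n v => pl_meas R k al (fun l _ => al l) (const_meas _) n v)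

/-- name of the sequence of the ordinals of the replies -/
noncomputable def gNm : Name Q :=
  fN nN oK (fun n x => (R.rho (wnd k al (hn R k al x n)) x).2)
    (fun n v => pl_meas R k al (fun l x => (R.rho (wnd k al l) x).2) (fun l v => rho2_meas R _ v) n v)

/-- name of the function of the bounds -/
noncomputable def eNm : Name Q :=
  fN kN (fun m : ℕ => (m : Ordinal.{0})) (eb R k al) (eb_meas R k al)

/-- the play in the generic model -/
structure Pl (A : TG) where
  /-- history -/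
  h : ℕ → List ℕ
  /-- word codes of the replies -/
  t : ℕ → ℕ
  /-- ordinals of the replies -/
  g : ℕ → K
  /-- sequence of words -/
  sM : A.G.M
  /-- sequence of ordinals -/
  aM : A.G.M
  h0 : h 0 = []
  hs : ∀ n, h (n + 1) = t n :: h n
  ev : ∀ n, Ev A.G {x | hn R k al x n = h n}
  evr : ∀ n, Ev A.G {x | R.rho (wnd k al (h n)) x = (t n, g n)}
  gS : ∀ n, g n ∈ A.S
  alS : ∀ n, al (h n) ∈ A.S
  rs : ∀ n z, Rel A.G.E sM (A.nat n) z ↔ z = A.nat (sw (h n))
  ra : ∀ n z, Rel A.G.E aM (A.nat n) z ↔ z = A.or (al (h n))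

theorem fiA_nN_inj (i j : ℕ) (p : Q) (h : feq (nN i) (nN j) p) : i = j := by
  have := feq_oName_iff.1 h
  exact_mod_cast this

theorem fiA_kN_inj (i j : K) (p : Q) (h : feq (kN i) (kN j) p) : i = j := oK_inj (feq_oName_iff.1 h)

theorem exists_Pl (A : TG) (h1 : ∃ m, A.G.Nm m (hNm R k al)) (h2 : ∃ m, A.G.Nm m (sNm R k al))
    (h3 : ∃ m, A.G.Nm m (aNm R k al)) (h4 : ∃ m, A.G.Nm m (gNm R k al)) :
    Nonempty (Pl R k al A) := by
  obtain ⟨hM, hhM⟩ := h1
  obtain ⟨sM, hsM⟩ := h2
  obtain ⟨aM, haM⟩ := h3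
  obtain ⟨gM, hgM⟩ := h4
  have E1 : ∀ n, ∃ v y, A.G.Nm y (nN v) ∧ Ev A.G {x | ew (hn R k al x n) = v} ∧
      ∀ y', Rel A.G.E hM (A.nat n) y' ↔ y' = y := fun n =>
    fN_val fiA_nN_inj Nat.cast_injective (fun i => Set.to_countable _)
      (θ := Ordinal.omega0) (fun v => Ordinal.natCast_lt_omega0 v) hhM (A.hnat n) A.hw
  have E2 : ∀ n, ∃ v y, A.G.Nm y (nN v) ∧ Ev A.G {x | sw (hn R k al x n) = v} ∧
      ∀ y', Rel A.G.E sM (A.nat n) y' ↔ y' = y := fun n =>
    fN_val fiA_nN_inj Nat.cast_injective (fun i => Set.to_countable _)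
      (θ := Ordinal.omega0) (fun v => Ordinal.natCast_lt_omega0 v) hsM (A.hnat n) A.hw
  have E3 : ∀ n, ∃ v y, A.G.Nm y (kN v) ∧ Ev A.G {x | al (hn R k al x n) = v} ∧
      ∀ y', Rel A.G.E aM (A.nat n) y' ↔ y' = y := fun n =>
    fN_val fiA_nN_inj (fun a b h => oK_inj h) (fun i => by
      refine (Set.countable_range al).mono ?_
      rintro _ ⟨x, rfl⟩
      exact ⟨_, rfl⟩) (θ := kap.ord) oK_lt haM (A.hnat n) A.hkp
  have E4 : ∀ n, ∃ v y, A.G.Nm y (kN v) ∧
      Ev A.G {x | (R.rho (wnd k al (hn R k al x n)) x).2 = v} ∧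
      ∀ y', Rel A.G.E gM (A.nat n) y' ↔ y' = y := fun n =>
    fN_val fiA_nN_inj (fun a b h => oK_inj h) (fun i => by
      refine (Set.countable_iUnion fun l : List ℕ =>
        (R.ctb (wnd k al l)).image Prod.snd).mono ?_
      rintro _ ⟨x, rfl⟩
      exact Set.mem_iUnion.2 ⟨hn R k al x i, _, ⟨x, rfl⟩, rfl⟩) (θ := kap.ord) oK_lt hgM
      (A.hnat n) A.hkp
  choose e ye he1 he2 he3 using E1
  choose sv ys hs1 hs2 hs3 using E2
  choose av ya ha1 ha2 ha3 using E3
  choose g yg hg1 hg2 hg3 using E4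
  have ev : ∀ n, Ev A.G {x | hn R k al x n = dw (e n)} := fun n => by
    refine (he2 n).mono fun x hx => ?_
    have hx' : ew (hn R k al x n) = e n := hx
    show hn R k al x n = dw (e n)
    rw [← hx', dw_ew]
  have h0 : dw (e 0) = [] := by
    obtain ⟨x, hx⟩ := (ev 0).nonempty
    have hx' : hn R k al x 0 = dw (e 0) := hx
    rw [← hx']
    rfl
  have hs : ∀ n, dw (e (n + 1)) = (dw (e (n + 1))).headD 0 :: dw (e n) := fun n => by
    obtain ⟨x, hx, hx'⟩ := ((ev n).inter (ev (n + 1))).nonempty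
    have g1 : hn R k al x n = dw (e n) := hx
    have g2 : hn R k al x (n + 1) = dw (e (n + 1)) := hx'
    rw [← g2, ← g1]
    rfl
  have hsv : ∀ n, sv n = sw (dw (e n)) := fun n => by
    obtain ⟨x, hx, hx'⟩ := ((ev n).inter (hs2 n)).nonempty
    have g1 : hn R k al x n = dw (e n) := hx
    have g2 : sw (hn R k al x n) = sv n := hx'
    rw [← g2, g1]
  have hav : ∀ n, av n = al (dw (e n)) := fun n => by
    obtain ⟨x, hx, hx'⟩ := ((ev n).inter (ha2 n)).nonempty
    have g1 : hn R k al x n = dw (e n) := hx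
    have g2 : al (hn R k al x n) = av n := hx'
    rw [← g2, g1]
  refine ⟨⟨fun n => dw (e n), fun n => (dw (e (n + 1))).headD 0, g, sM, aM, h0, hs, ev, ?_, ?_, ?_,
    ?_, ?_⟩⟩
  · intro n
    refine (((ev n).inter (ev (n + 1))).inter (hg2 n)).mono ?_
    rintro x ⟨⟨hx, hx'⟩, hx''⟩
    have g1 : hn R k al x n = dw (e n) := hx
    have g2 : hn R k al x (n + 1) = dw (e (n + 1)) := hx'
    have g3 : (R.rho (wnd k al (hn R k al x n)) x).2 = g n := hx''
    show R.rho (wnd k al (dw (e n))) x = ((dw (e (n + 1))).headD 0, g n)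
    rw [← g3, ← g2, ← g1]
    rfl
  · exact fun n => ⟨_, hg1 n⟩
  · intro n
    have := ha1 n
    rw [hav n] at this
    exact ⟨_, this⟩
  · intro n z
    rw [hs3 n z]
    have h5 : ys n = A.nat (sw (dw (e n))) := by
      rw [← hsv n]
      exact (GModel.o_eq (hs1 n) (A.hnat _)).2 rfl
    rw [h5]
  · intro n z
    rw [ha3 n z]
    have h6 : A.G.Nm (ya n) (kN (al (dw (e n)))) := by
      rw [← hav n]
      exact ha1 n
    have h5 : ya n = A.or (al (dw (e n))) :=
      (GModel.o_eq h6 (A.or_spec ⟨_, h6⟩)).2 rfl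
    rw [h5]

theorem eb_val (A : TG) (h : ∃ m, A.G.Nm m (eNm R k al)) {b : K} (hb : b ∈ A.S) :
    ∃ m, Ev A.G {x | eb R k al b x = m} := by
  obtain ⟨eM, heM⟩ := h
  obtain ⟨v, y, _, hv, _⟩ := fN_val fiA_kN_inj Nat.cast_injective (fun i => Set.to_countable _)
    (θ := Ordinal.omega0) (fun v => Ordinal.natCast_lt_omega0 v) heM (A.or_spec hb) A.hw
  exact ⟨v, hv⟩

end

end Pool.Agent.H83.T
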