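import Pool.Agent.H83.T.TM

/-!
# TT-20: numerals, sequences, windows in the model (job)

PROOFS.
* `isNum_iff`: induction on `n`, `A.zf.ext`, `E_nat` (`nat 0` has no elements; `z ∈ nat (n + 1) ↔ z ∈ nat n ∨ z = nat n`).
* `isSucc_iff`: extensionality. `isSucc_iff'` : `nat n' = x ∪ {x}` for `x ∈ w`.
* `at_iff`, `seq_iff`, `run_iff`: unfold (`fSeq (propStr A.E) A.P l g` is `IsFun A.E g l A.P.Tp ∧ ∀ i U, Rel A.E g i U → ∃ x, A.E x U`
  by `Iff.rfl`).
* `last_iff`: for `g` with `fSeq .. (A.nat (min k (n + 1))) g`: `IsLast` with `l = min k (n + 1)` iff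
  `fWin (propStr A.E) (A.Wn k) f (A.nat n) g`; `op_W`; a pair `(i, U) ∈ g` has `i = nat i₀`, `i₀ < l` (`IsFun.mem`, `E_nat`).
-/

set_option autoImplicit false

namespace Pool.Agent.H83.T

open Pool.Agent.H86 Pool.Agent.H83.F

namespace TM

variable (A : TM)

theorem E_nat_succ (n : ℕ) (z : A.M) :
    A.E z (A.nat (n + 1)) ↔ (A.E z (A.nat n) ∨ z = A.nat n) := by
  rw [A.E_nat, A.E_nat]
  constructor
  · rintro ⟨m, hm, rfl⟩
    rcases Nat.lt_succ_iff_lt_or_eq.1 hm with h | h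
    · exact Or.inl ⟨m, h, rfl⟩
    · exact Or.inr (by rw [h])
  · rintro (⟨m, hm, rfl⟩ | rfl)
    · exact ⟨m, by omega, rfl⟩
    · exact ⟨n, by omega, rfl⟩

theorem isSucc_iff (n : ℕ) (x : A.M) : IsSucc A.E x (A.nat n) ↔ x = A.nat (n + 1) := by
  constructor
  · intro h
    refine A.zf.ext _ _ fun z => ?_
    rw [A.E_nat_succ]
    exact h z
  · rintro rfl z
    exact A.E_nat_succ n z

theorem isNum_iff (n : ℕ) (x : A.M) : IsNum A.E n x ↔ x = A.nat n := by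
  induction n generalizing x with
  | zero =>
    constructor
    · intro h
      refine A.zf.ext _ _ fun z => ?_
      rw [A.E_nat]
      constructor
      · exact fun hz => (h z hz).elim
      · rintro ⟨m, hm, -⟩
        exact (Nat.not_lt_zero m hm).elim
    · rintro rfl z hz
      obtain ⟨m, hm, -⟩ := (A.E_nat _ _).1 hz
      exact Nat.not_lt_zero m hm
  | succ n ih =>
    constructor
    · rintro ⟨y, hy, hs⟩
      rw [ih] at hy
      rw [hy] at hs
      exact (A.isSucc_iff n x).1 hs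
    · rintro rfl
      exact ⟨A.nat n, (ih _).2 rfl, (A.isSucc_iff n _).2 rfl⟩

theorem isSucc_nat_iff (n : ℕ) (x : A.M) : IsSucc A.E (A.nat n) x ↔ ∃ m, n = m + 1 ∧ x = A.nat m := by
  constructor
  · intro h
    obtain ⟨m, -, rfl⟩ := (A.E_nat _ _).1 ((h x).2 (Or.inr rfl))
    exact ⟨m, A.nat_inj ((A.isSucc_iff m _).1 h), rfl⟩
  · rintro ⟨m, rfl, rfl⟩
    exact (A.isSucc_iff m _).2 rfl

theorem at_iff (f : A.M) (n : ℕ) (U : A.M) : At A.E f n U ↔ Rel A.E f (A.nat n) U := by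
  constructor
  · rintro ⟨m, hm, h⟩
    rw [isNum_iff] at hm
    rwa [hm] at h
  · exact fun h => ⟨A.nat n, (A.isNum_iff n _).2 rfl, h⟩

theorem seq_iff (n : ℕ) (g : A.M) :
    IsSeq A.E A.P.Tp n g ↔ fSeq (propStr A.E) A.P (A.nat n) g := by
  constructor
  · rintro ⟨m, hm, h1, h2⟩
    rw [isNum_iff] at hm
    rw [hm] at h1
    exact ⟨h1, h2⟩
  · rintro ⟨h1, h2⟩
    exact ⟨A.nat n, (A.isNum_iff n _).2 rfl, h1, h2⟩

theorem run_iff (f : A.M) :
    IsRun A.E A.P.w A.P.Tp f ↔ fSeq (propStr A.E) A.P A.P.w f := Iff.rfl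

theorem last_iff (k n : ℕ) (f g : A.M) :
    IsLast A.E A.P.Tp f n (min k (n + 1)) g ↔
      (fSeq (propStr A.E) A.P (A.nat (min k (n + 1))) g ∧
        fWin (propStr A.E) (A.Wn k) f (A.nat n) g) := by
  have hwin : fWin (propStr A.E) (A.Wn k) f (A.nat n) g ↔ ∀ i U, Rel A.E g i U ↔
      ∃ j, Op A.E (A.Wn k) (A.nat n) i j ∧ Rel A.E f j U := Iff.rfl
  rw [hwin, IsLast, seq_iff]
  refine and_congr_right fun hs => ?_
  have hfun : IsFun A.E g (A.nat (min k (n + 1))) A.P.Tp := hs.1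
  constructor
  · intro h i U
    constructor
    · intro hg
      obtain ⟨i0, hi0, rfl⟩ := (A.E_nat _ _).1 (IsFun.mem A.zf hfun hg).1
      refine ⟨A.nat (n + 1 - min k (n + 1) + i0), (A.op_W k n _ _).2 ⟨i0, hi0, rfl, rfl⟩, ?_⟩
      rw [← at_iff, ← h i0 hi0, at_iff]
      exact hg
    · rintro ⟨j, hj, hf⟩
      obtain ⟨i0, hi0, rfl, rfl⟩ := (A.op_W k n _ _).1 hj
      rw [← at_iff, h i0 hi0, at_iff]
      exact hf
  · intro h i hi U
    rw [at_iff, at_iff, h]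
    constructor
    · rintro ⟨j, hj, hf⟩
      obtain ⟨i0, hi0, h1, rfl⟩ := (A.op_W k n _ _).1 hj
      rw [A.nat_inj h1]
      exact hf
    · intro hf
      exact ⟨_, (A.op_W k n _ _).2 ⟨i, hi, rfl, rfl⟩, hf⟩

end TM

end Pool.Agent.H83.T
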