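import Pool.Agent.H83.T.SpC
import Pool.Agent.H83.T.SpN

/-!
# TT-25: replies to windows of basic sets (job)

Let `l = w.length`, `1 ≤ l ≤ k`, so `l = min k (n + 1)` for `n = l - 1` and `Rel (Ln k) (nat n) (nat l)`.

PROOFS.
* `exists_win`: the sequence of the basic sets of the window: `exists_rel` for `a = nat l`, `b = T` and the formula
  `R i U := ∃ p c a, Rel v i p ∧ p = (c, a) ∧ ∀ r, r ∈ U ↔ fU c a r`
  (code `pairCode (fun x y => codeStr.ex fun p => codeStr.ex fun c => codeStr.ex fun a => codeStr.and (fRel codeStr 7 x p)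
  (codeStr.and (fPr codeStr p c a) (codeStr.all fun r => codeStr.iff (codeStr.mem r y) (fU codeStr P0 c a r)))) 20`). It is a
  function: the basic sets exist (`exists_bas`) and are unique (extensionality, `fU_iff'`), `hv : A.IsV v w`.
* `exists_rp`: the reply `V` to this sequence is a nonempty open set (`hs.1`), so it contains a basic set (`open_iff`).
* `pre_rp`: the sequence in `fRp` is a sequence of length `l` of nonempty open sets (`exists_win` and extensionality: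
  `rel_ext`), so `V` is contained in its last entry, the basic set `(c, a)`; now use `pre_of_sub`.
* `rp_sub`: the sequences coincide (`rel_ext`), and the reply is unique by `hs.1`.
-/

set_option autoImplicit false

namespace Pool.Agent.H83.T

open Pool.Agent.H86 Pool.Agent.H83.F

namespace TM

variable (A : TM)

/-- `g` is the sequence of the basic sets of the window `w` -/
def IsWin (g : A.M) (w : List (ℕ × K)) : Prop :=
  fSeq (propStr A.E) A.P (A.nat w.length) g ∧ ∀ i c a, w[i]? = some (c, a) → ∀ U,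
    Rel A.E g (A.nat i) U ↔ ∀ r, A.E r U ↔ ∃ f, A.Fv r f ∧ A.Bas c a f

/-- the `i`-th entry of the sequence of the basic sets of the window `v` is `U` -/
def WRel (v i U : A.M) : Prop := ∃ p c a, Rel A.E v i p ∧ IsPair A.E p c a ∧
  ∀ r, A.E r U ↔ fU (propStr A.E) A.P c a r

theorem bas_set (c : ℕ) {a : K} (ha : a ∈ A.S) :
    ∃ U, A.E U A.P.Tp ∧ (∃ r, A.E r U) ∧ ∀ r, A.E r U ↔ ∃ f, A.Fv r f ∧ A.Bas c a f := by
  obtain ⟨U, h1, h2, h3⟩ := A.exists_bas c ha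
  refine ⟨U, h1, h2, fun r => ⟨fun hr => ?_, ?_⟩⟩
  · have h4 := ((A.open_iff U).1 h1).1 r hr
    obtain ⟨f, hf, -⟩ := (A.X_iff r).1 h4
    exact ⟨f, hf, (h3 r f hf).1 hr⟩
  · rintro ⟨f, hf, hb⟩
    exact (h3 r f hf).2 hb

theorem wrel_iff {v : A.M} {w : List (ℕ × K)} (hv : A.IsV v w) {i c : ℕ} {a : K}
    (hi : w[i]? = some (c, a)) (U : A.M) :
    A.WRel v (A.nat i) U ↔ ∀ r, A.E r U ↔ ∃ f, A.Fv r f ∧ A.Bas c a f := by
  have ha : a ∈ A.S := hv.1 (c, a) (List.mem_of_getElem? hi)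
  constructor
  · rintro ⟨p, x, z, h1, h2, h3⟩ r
    obtain ⟨i', c', b', h4, h5, h6⟩ := (hv.2 _ _).1 h1
    have h7 : i' = i := (A.nat_inj h5).symm
    subst h7
    rw [hi] at h4
    obtain ⟨h8, h9⟩ := Prod.mk.inj (Option.some.inj h4)
    subst h8 h9
    obtain ⟨h10, h11⟩ := pair_inj A.zf h2 h6
    subst h10 h11
    rw [h3 r, A.fU_iff' ha]
  · intro h
    obtain ⟨p, hp⟩ := exists_pair A.zf (A.nat c) (A.or a)
    refine ⟨p, A.nat c, A.or a, (hv.2 _ _).2 ⟨i, c, a, hi, rfl, hp⟩, hp, fun r => ?_⟩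
    rw [h r, A.fU_iff' ha]

theorem wrel_dom {v : A.M} {w : List (ℕ × K)} (hv : A.IsV v w) {x U : A.M}
    (h : A.WRel v x U) : ∃ i c a, w[i]? = some (c, a) ∧ x = A.nat i := by
  obtain ⟨p, c, a, h1, -, -⟩ := h
  obtain ⟨i', c', b', h4, h5, -⟩ := (hv.2 _ _).1 h1
  exact ⟨i', c', b', h4, h5⟩

theorem dom_win {w : List (ℕ × K)} {x : A.M} (h : A.E x (A.nat w.length)) :
    ∃ i c a, w[i]? = some (c, a) ∧ x = A.nat i := by
  obtain ⟨i, hi, rfl⟩ := (A.E_nat _ _).1 h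
  exact ⟨i, (w[i]).1, (w[i]).2, by simp [List.getElem?_eq_getElem hi], rfl⟩

theorem exists_win {v : A.M} {w : List (ℕ × K)} (hv : A.IsV v w) : ∃ g, A.IsWin g w := by
  obtain ⟨g, hg1, hg2⟩ := exists_rel A.zf
    (pairCode (fun x y => codeStr.ex fun p => codeStr.ex fun c => codeStr.ex fun a =>
      codeStr.and (fRel codeStr 7 x p) (codeStr.and (fPr codeStr p c a)
        (codeStr.all fun r => codeStr.iff (codeStr.mem r y) (fU codeStr P0 c a r)))) 20)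
    (asn v [A.P.w, A.P.kp, A.P.Y, A.P.D, A.P.X, A.P.Tp, v])
    (P := fun x y => A.WRel v x y) (fun z => Iff.rfl) (A.nat w.length) A.P.Tp
  have hset : ∀ i c a, w[i]? = some (c, a) → ∃ U, A.E U A.P.Tp ∧ (∃ r, A.E r U) ∧
      ∀ r, A.E r U ↔ ∃ f, A.Fv r f ∧ A.Bas c a f := fun i c a hi =>
    A.bas_set c (hv.1 (c, a) (List.mem_of_getElem? hi))
  have huniq : ∀ {U U' : A.M} {c : ℕ} {a : K}, (∀ r, A.E r U ↔ ∃ f, A.Fv r f ∧ A.Bas c a f) →
      (∀ r, A.E r U' ↔ ∃ f, A.Fv r f ∧ A.Bas c a f) → U = U' := fun h h' =>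
    A.zf.ext _ _ fun r => (h r).trans (h' r).symm
  have hlt : ∀ i c a, w[i]? = some (c, a) → i < w.length := fun i c a hi =>
    (List.getElem?_eq_some_iff.1 hi).1
  have key : ∀ i c a, w[i]? = some (c, a) → ∀ U, Rel A.E g (A.nat i) U ↔
      ∀ r, A.E r U ↔ ∃ f, A.Fv r f ∧ A.Bas c a f := by
    intro i c a hi U
    rw [hg2, A.wrel_iff hv hi]
    constructor
    · exact fun h => h.2.2
    · intro h
      obtain ⟨U', h1, -, h2⟩ := hset i c a hi
      have h3 : U = U' := huniq h h2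
      exact ⟨(A.E_nat _ _).2 ⟨i, hlt i c a hi, rfl⟩, h3 ▸ h1, h⟩
  refine ⟨g, ⟨?_, ?_⟩, key⟩
  · refine isFun_of A.zf (fun z hz => ?_) (fun x hx => ?_) (fun x y y' h h' => ?_)
    · obtain ⟨x, y, h1, h2, h3, -⟩ := hg1 z hz
      exact ⟨x, y, h1, h2, h3⟩
    · obtain ⟨i, c, a, hi, rfl⟩ := A.dom_win hx
      obtain ⟨U, -, -, h2⟩ := hset i c a hi
      exact ⟨U, (key i c a hi U).2 h2⟩
    · obtain ⟨i, c, a, hi, rfl⟩ := A.dom_win ((hg2 _ _).1 h).1
      exact huniq ((key i c a hi y).1 h) ((key i c a hi y').1 h')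
  · intro x U h
    obtain ⟨i, c, a, hi, rfl⟩ := A.dom_win ((hg2 _ _).1 h).1
    obtain ⟨U', -, ⟨r, hr⟩, h2⟩ := hset i c a hi
    have h3 : U = U' := huniq ((key i c a hi U).1 h) h2
    exact ⟨r, h3 ▸ hr⟩

theorem win_wrel {v g : A.M} {w : List (ℕ × K)} (hv : A.IsV v w) (hg : A.IsWin g w) (x U : A.M) :
    Rel A.E g x U ↔ A.WRel v x U := by
  constructor
  · intro h
    obtain ⟨i, c, a, hi, rfl⟩ := A.dom_win (IsFun.mem A.zf hg.1.1 h).1
    exact (A.wrel_iff hv hi U).2 ((hg.2 i c a hi U).1 h)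
  · intro h
    obtain ⟨i, c, a, hi, rfl⟩ := A.wrel_dom hv h
    exact (hg.2 i c a hi U).2 ((A.wrel_iff hv hi U).1 h)

theorem rp_win {s v g : A.M} {w : List (ℕ × K)} (hv : A.IsV v w) (hg : A.IsWin g w) {t' a' : A.M}
    (h : fRp (propStr A.E) A.P s v t' a') :
    ∃ V, Rel A.E s g V ∧ ∀ r, fU (propStr A.E) A.P t' a' r → A.E r V := by
  obtain ⟨g', V, h1, h2, h3, h4⟩ := h
  have h5 : g' = g := by
    refine rel_ext A.zf h1 (fun z hz => ?_) fun x U => ?_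
    · obtain ⟨x, y, h6, -, -⟩ := hg.1.1.1 z hz
      exact ⟨x, y, h6⟩
    · exact (h2 x U).trans (A.win_wrel hv hg x U).symm
  exact ⟨V, h5 ▸ h3, h4⟩

theorem strat_win {k : ℕ} {s g : A.M} {w : List (ℕ × K)}
    (hs : fWins (propStr A.E) A.P s (A.Wn k) (A.Ln k)) (hg : A.IsWin g w) (h1 : 1 ≤ w.length)
    (h2 : w.length ≤ k) :
    ∃ V, Rel A.E s g V ∧ (∀ V', Rel A.E s g V' → V' = V) ∧ A.E V A.P.Tp ∧ (∃ x, A.E x V) ∧
      ∀ i U, IsSucc A.E (A.nat w.length) i → Rel A.E g i U → ∀ x, A.E x V → A.E x U := by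
  have h3 : Rel A.E (A.Ln k) (A.nat (w.length - 1)) (A.nat w.length) := by
    refine (A.rel_L _ _ _).2 ⟨w.length - 1, rfl, ?_⟩
    congr 1
    omega
  exact hs.1 _ _ g h3 hg.1

theorem exists_rp {k : ℕ} {s v : A.M} {w : List (ℕ × K)}
    (hs : fWins (propStr A.E) A.P s (A.Wn k) (A.Ln k)) (hv : A.IsV v w) (h1 : 1 ≤ w.length)
    (h2 : w.length ≤ k) :
    ∃ t, ∃ b ∈ A.S, fRp (propStr A.E) A.P s v (A.nat t) (A.or b) := by
  obtain ⟨g, hg⟩ := A.exists_win hv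
  obtain ⟨V, h3, -, h4, ⟨r, hr⟩, -⟩ := A.strat_win hs hg h1 h2
  have h5 := (A.open_iff V).1 h4
  obtain ⟨f, hf, -⟩ := (A.X_iff r).1 (h5.1 r hr)
  obtain ⟨c, a, ha, -, h6⟩ := h5.2 r f hr hf
  refine ⟨c, a, ha, g, V, fun z hz => ?_, A.win_wrel hv hg, h3, fun r' hr' => ?_⟩
  · obtain ⟨x, y, h7, -, -⟩ := hg.1.1.1 z hz
    exact ⟨x, y, h7⟩
  · obtain ⟨f', hf', hb'⟩ := (A.fU_iff' ha c r').1 hr'
    exact h6 r' f' hf' hb'

theorem rp_sub {k : ℕ} {s v : A.M} {w : List (ℕ × K)}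
    (hs : fWins (propStr A.E) A.P s (A.Wn k) (A.Ln k)) (hv : A.IsV v w) (h1 : 1 ≤ w.length)
    (h2 : w.length ≤ k) {g V : A.M} (hg : A.IsWin g w) (hV : Rel A.E s g V) {t : ℕ} {b : K}
    (hb : b ∈ A.S) (h : fRp (propStr A.E) A.P s v (A.nat t) (A.or b)) {r : A.M} {f : ℕ → ℕ}
    (hr : A.Fv r f) (hf : A.Bas t b f) : A.E r V := by
  obtain ⟨V', h3, h4⟩ := A.rp_win hv hg h
  obtain ⟨V'', -, h5, -⟩ := A.strat_win hs hg h1 h2
  have h6 : V' = V := (h5 V' h3).trans (h5 V hV).symm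
  rw [← h6]
  exact h4 r ((A.fU_iff' hb t r).2 ⟨f, hr, hf⟩)

theorem pre_rp {k : ℕ} {s v : A.M} {w : List (ℕ × K)} {c : ℕ} {a : K}
    (hs : fWins (propStr A.E) A.P s (A.Wn k) (A.Ln k)) (hv : A.IsV v (w ++ [(c, a)]))
    (h2 : w.length + 1 ≤ k) {t : ℕ} {b : K} (hb : b ∈ A.S)
    (h : fRp (propStr A.E) A.P s v (A.nat t) (A.or b)) : dw c <+: dw t := by
  obtain ⟨g, hg⟩ := A.exists_win hv
  obtain ⟨V', h3, h4⟩ := A.rp_win hv hg h
  have hlen : (w ++ [(c, a)]).length = w.length + 1 := by simp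
  obtain ⟨V, h5, h6, -, -, h7⟩ := A.strat_win hs hg (by omega) (by omega)
  have h8 : V' = V := h6 V' h3
  have hi : (w ++ [(c, a)])[w.length]? = some (c, a) := by simp
  have ha : a ∈ A.S := hv.1 (c, a) (by simp)
  obtain ⟨U, -, -, hU⟩ := A.bas_set c ha
  have h9 : Rel A.E g (A.nat w.length) U := (hg.2 _ c a hi U).2 hU
  have h10 : IsSucc A.E (A.nat (w ++ [(c, a)]).length) (A.nat w.length) := by
    rw [hlen, A.isSucc_iff]
  refine A.pre_of_sub hb (a := a) fun r f hr hf => ?_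
  have h11 : A.E r V' := h4 r ((A.fU_iff' hb t r).2 ⟨f, hr, hf⟩)
  obtain ⟨f', hf', hB⟩ := (hU r).1 (h7 _ U h10 h9 r (h8 ▸ h11))
  rwa [Fv.right hr hf']

end TM

end Pool.Agent.H83.T
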