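import Pool.Agent.H83.T.FiA
import Pool.Agent.H83.T.RpA

/-!
# TT-30: the run of player I (job)

`IsPlay f pl`: `f` is the run of the basic sets given by the words and the ordinals of the play.

PROOFS.
* `exists_run`: `exists_rel` for `a = w`, `b = T` and the formula `R n U := ∃ c a, (n, c) ∈ sM ∧ (n, a) ∈ aM ∧ ∀ r, r ∈ U ↔ fU c a r`
  (code `pairCode (fun x y => codeStr.ex fun c => codeStr.ex fun a => codeStr.and (fRel codeStr 7 x c) (codeStr.and
  (fRel codeStr 8 x a) (codeStr.all fun r => codeStr.iff (codeStr.mem r y) (fU codeStr P0 c a r)))) 20`,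
  `asn _ [P.w, P.kp, P.Y, P.D, P.X, P.Tp, sM, aM]`); `exists_bas`, extensionality, `fU_iff'`, `pl.rs`, `pl.ra`.
* `h_length`, `h_drop`: induction (`pl.hs`).
* `win_of_window`: if `g` is the window of `f` in round `n` then `A.tm.IsWin g (wnd k al (pl.h n))`: let `l = min k (n + 1)`; the length of
  `wnd ..` is `l` (`h_length`); for `i < l` the `i`-th entry of `wnd k al (h n)` is `(sw h', al h')` with `h' = (h n).drop (l - 1 - i) = h j`,
  `j = n + 1 - l + i` (`h_drop`), and `Rel g (nat i) U ↔ Rel f (nat j) U` (`op_W`), which says that `U` is the basic set of `(sw (h j), al (h j))`.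
* `legal`: let `n`, `n' = nat (n + 1)`, `l = nat (min k (n + 1))`, `g`, `V`, `U` be as in `fLegal` (`rel_L`, `isSucc_iff`). By
  `win_of_window`, `rp_sub` (with `hrp n`) the points of `Bas (t n) (g n)` are in `V`. `U = f (n + 1)` is the basic set of `(sw (h (n + 1)), al (h (n + 1)))`,
  `h (n + 1) = t n :: h n`, so `dw (t n)` is a prefix of its word (`dw_sw_cons`) and `g n ≤ al (h (n + 1))` by `hal` and `pl.evr`
  (`Ev.nonempty`), hence `Bas (sw (h (n + 1))) (al (h (n + 1))) F → Bas (t n) (g n) F`.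
-/

set_option autoImplicit false
set_option linter.unusedVariables false

namespace Pool.Agent.H83.T

open MeasureTheory Pool.Agent.H86 Pool.Agent.H86.Name Pool.Agent.H83.F

section

variable {R : Rep} {k : ℕ} {al : List ℕ → K} {A : TG}

/-- `f` is the run given by the play -/
def IsPlay (pl : Pl R k al A) (f : A.G.M) : Prop :=
  fSeq (propStr A.G.E) A.P A.P.w f ∧ ∀ n U, Rel A.G.E f (A.nat n) U ↔
    ∀ r, A.G.E r U ↔ ∃ F, A.tm.Fv r F ∧ A.tm.Bas (sw (pl.h n)) (al (pl.h n)) F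

theorem TM.exists_bas' (A : TM) (c : ℕ) {a : K} (ha : a ∈ A.S) :
    ∃ U, A.E U A.P.Tp ∧ (∃ r, A.E r U) ∧ ∀ r, A.E r U ↔ ∃ f, A.Fv r f ∧ A.Bas c a f := by
  obtain ⟨U, h1, h2, h3⟩ := A.exists_bas c ha
  refine ⟨U, h1, h2, fun r => ⟨fun hr => ?_, ?_⟩⟩
  · obtain ⟨f, hf, -⟩ := (A.X_iff r).1 (((A.open_iff U).1 h1).1 r hr)
    exact ⟨f, hf, (h3 r f hf).1 hr⟩
  · rintro ⟨f, hf, hb⟩
    exact (h3 r f hf).2 hb

theorem exists_run (pl : Pl R k al A) : ∃ f, IsPlay pl f := by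
  obtain ⟨f, hf1, hf2⟩ := exists_rel A.tm.zf
    (pairCode (fun x y => codeStr.ex fun c => codeStr.ex fun a => codeStr.and (fRel codeStr 7 x c)
      (codeStr.and (fRel codeStr 8 x a)
        (codeStr.all fun r => codeStr.iff (codeStr.mem r y) (fU codeStr P0 c a r)))) 20)
    (asn A.P.w [A.P.w, A.P.kp, A.P.Y, A.P.D, A.P.X, A.P.Tp, pl.sM, pl.aM])
    (P := fun x y => ∃ c a, Rel A.G.E pl.sM x c ∧ Rel A.G.E pl.aM x a ∧
      ∀ r, A.G.E r y ↔ fU (propStr A.G.E) A.P c a r) (fun z => Iff.rfl) A.P.w A.P.Tp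
  have hrel : ∀ n U, Rel A.G.E f (A.nat n) U ↔
      ∀ r, A.G.E r U ↔ ∃ F, A.tm.Fv r F ∧ A.tm.Bas (sw (pl.h n)) (al (pl.h n)) F := by
    intro n U
    have h0 := hf2 (A.nat n) U
    constructor
    · intro h r
      obtain ⟨-, -, c, a, hc, ha, h1⟩ := h0.1 h
      have hc' := (pl.rs n c).1 hc
      have ha' := (pl.ra n a).1 ha
      rw [hc', ha'] at h1
      exact (h1 r).trans (A.tm.fU_iff' (pl.alS n) (sw (pl.h n)) r)
    · intro h
      obtain ⟨U₀, g1, g2, g3⟩ := A.tm.exists_bas' (sw (pl.h n)) (pl.alS n)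
      have hU : U = U₀ := A.tm.zf.ext _ _ fun r => (h r).trans (g3 r).symm
      refine h0.2 ⟨A.tm.nat_w n, by rw [hU]; exact g1, _, _, (pl.rs n _).2 rfl,
        (pl.ra n _).2 rfl, fun r => ?_⟩
      exact (h r).trans (A.tm.fU_iff' (pl.alS n) (sw (pl.h n)) r).symm
  refine ⟨f, ⟨?_, ?_⟩, hrel⟩
  · show IsFun A.tm.E f A.P.w A.P.Tp
    refine isFun_of A.tm.zf ?_ ?_ ?_
    · intro z hz
      obtain ⟨x, y, h1, h2, h3, -⟩ := hf1 z hz
      exact ⟨x, y, h1, h2, h3⟩
    · intro x hx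
      obtain ⟨n, rfl⟩ := (A.tm.E_w x).1 hx
      obtain ⟨U₀, g1, g2, g3⟩ := A.tm.exists_bas' (sw (pl.h n)) (pl.alS n)
      exact ⟨U₀, (hrel n U₀).2 g3⟩
    · intro x y y' h1 h2
      obtain ⟨n, rfl⟩ := (A.tm.E_w x).1 ((hf2 x y).1 h1).1
      have h3 := (hrel n y).1 h1
      have h4 := (hrel n y').1 h2
      exact A.tm.zf.ext _ _ fun r => (h3 r).trans (h4 r).symm
  · show ∀ i U, Rel A.G.E f i U → ∃ x, A.G.E x U
    intro i U h
    obtain ⟨n, rfl⟩ := (A.tm.E_w i).1 ((hf2 i U).1 h).1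
    obtain ⟨U₀, g1, ⟨r, hr⟩, g3⟩ := A.tm.exists_bas' (sw (pl.h n)) (pl.alS n)
    exact ⟨r, ((hrel n U).1 h r).2 ((g3 r).1 hr)⟩

theorem Pl.h_length (pl : Pl R k al A) (n : ℕ) : (pl.h n).length = n := by
  induction n with
  | zero => rw [pl.h0]; rfl
  | succ n ih => rw [pl.hs, List.length_cons, ih]

theorem Pl.h_drop (pl : Pl R k al A) (n d : ℕ) : (pl.h (n + d)).drop d = pl.h n := by
  induction d with
  | zero => rfl
  | succ d ih =>
    rw [← Nat.add_assoc, pl.hs, List.drop_succ_cons]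
    exact ih

theorem win_of_window (hk : 1 ≤ k) (pl : Pl R k al A) {f g : A.G.M} (hf : IsPlay pl f) {n : ℕ}
    (hg : fSeq (propStr A.G.E) A.P (A.nat (min k (n + 1))) g)
    (hw : fWin (propStr A.G.E) (A.Wn k) f (A.nat n) g) :
    A.tm.IsWin g (wnd k al (pl.h n)) := by
  have hlen : (wnd k al (pl.h n)).length = min k (n + 1) := by
    unfold wnd
    rw [List.length_map, List.length_range, pl.h_length]
  refine ⟨?_, ?_⟩
  · rw [hlen]
    exact hg
  · intro i c a hi U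
    have hi' : i < min k (n + 1) ∧ c = sw ((pl.h n).drop (min k (n + 1) - 1 - i)) ∧
        a = al ((pl.h n).drop (min k (n + 1) - 1 - i)) := by
      have hi1 : i < (wnd k al (pl.h n)).length := by
        by_contra hc
        rw [List.getElem?_eq_none (not_lt.1 hc)] at hi
        exact absurd hi (by simp)
      rw [hlen] at hi1
      unfold wnd at hi
      rw [pl.h_length, List.getElem?_map, List.getElem?_range hi1] at hi
      have h2 := Option.some.inj hi
      exact ⟨hi1, (congrArg Prod.fst h2).symm, (congrArg Prod.snd h2).symm⟩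
    obtain ⟨hi1, hc, ha⟩ := hi'
    have hj : (pl.h n).drop (min k (n + 1) - 1 - i) = pl.h (n + 1 - min k (n + 1) + i) := by
      have h1 := pl.h_drop (n + 1 - min k (n + 1) + i) (min k (n + 1) - 1 - i)
      have h2 : n + 1 - min k (n + 1) + i + (min k (n + 1) - 1 - i) = n := by omega
      rw [h2] at h1
      exact h1
    rw [hj] at hc ha
    have hw' : Rel A.G.E g (A.nat i) U ↔
        ∃ j, Op A.G.E (A.Wn k) (A.nat n) (A.nat i) j ∧ Rel A.G.E f j U := hw (A.nat i) U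
    have hW : ∀ z, Op A.G.E (A.Wn k) (A.nat n) (A.nat i) z ↔
        ∃ i' < min k (n + 1), A.nat i = A.nat i' ∧ z = A.nat (n + 1 - min k (n + 1) + i') :=
      fun z => A.tm.op_W k n (A.nat i) z
    have hgf : Rel A.G.E g (A.nat i) U ↔ Rel A.G.E f (A.nat (n + 1 - min k (n + 1) + i)) U := by
      rw [hw']
      constructor
      · rintro ⟨j, h1, h2⟩
        obtain ⟨i', -, h3, h4⟩ := (hW j).1 h1
        have h5 : i = i' := A.tm.nat_inj h3
        rw [h4, ← h5] at h2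
        exact h2
      · intro h
        exact ⟨_, (hW _).2 ⟨i, hi1, rfl, rfl⟩, h⟩
    rw [hc, ha]
    exact hgf.trans (hf.2 _ U)

theorem legal (hk : 1 ≤ k) (pl : Pl R k al A) {f s : A.G.M} (hf : IsPlay pl f)
    (hs : fWins (propStr A.G.E) A.P s (A.Wn k) (A.Ln k))
    (hal : ∀ h t x, (R.rho (wnd k al h) x).2 ≤ al (t :: h))
    (hrp : ∀ n, ∃ v, A.tm.IsV v (wnd k al (pl.h n)) ∧
      fRp (propStr A.G.E) A.P s v (A.nat (pl.t n)) (A.or (pl.g n))) :
    fLegal (propStr A.G.E) A.P s (A.Wn k) (A.Ln k) f := by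
  show ∀ n n' l g V U, A.G.E n A.P.w → IsSucc A.G.E n' n → Rel A.G.E (A.Ln k) n l →
    fSeq (propStr A.G.E) A.P l g → fWin (propStr A.G.E) (A.Wn k) f n g → Rel A.G.E s g V →
    Rel A.G.E f n' U → ∀ x, A.G.E x U → A.G.E x V
  intro n n' l g V U hn hn' hl hg hw hV hU x hx
  obtain ⟨m, rfl⟩ := (A.tm.E_w n).1 hn
  have hn1 : n' = A.nat (m + 1) := (A.tm.isSucc_iff m n').1 hn'
  obtain ⟨m', h1, h2⟩ := (A.tm.rel_L k (A.nat m) l).1 hl
  have h3 : m = m' := A.tm.nat_inj h1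
  have h4 : l = A.nat (min k (m + 1)) := by rw [h3]; exact h2
  rw [h4] at hg
  have hwin := win_of_window hk pl hf hg hw
  obtain ⟨v, hv, hrv⟩ := hrp m
  have hlen : (wnd k al (pl.h m)).length = min k (m + 1) := by
    unfold wnd
    rw [List.length_map, List.length_range, pl.h_length]
  rw [hn1] at hU
  obtain ⟨F, hF, hB⟩ := ((hf.2 (m + 1) U).1 hU x).1 hx
  refine A.tm.rp_sub (k := k) (s := s) (v := v) (w := wnd k al (pl.h m)) hs hv
    (by rw [hlen]; omega) (by rw [hlen]; omega) hwin hV (pl.gS m) hrv hF ?_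
  rw [pl.hs] at hB
  obtain ⟨hB1, b, hb, hle, hHi⟩ := hB
  refine ⟨fun i hi => ?_, b, hb, ?_, hHi⟩
  · have h5 := hB1 i (by rw [dw_sw_cons, List.length_append]; omega)
    rw [h5, dw_sw_cons, List.getD_append _ _ _ _ hi]
  · obtain ⟨x₀, hx₀⟩ := (pl.evr m).nonempty
    have h6 : R.rho (wnd k al (pl.h m)) x₀ = (pl.t m, pl.g m) := hx₀
    have h7 := hal (pl.h m) (pl.t m) x₀
    rw [h6] at h7
    exact le_trans h7 hle

end

end Pool.Agent.H83.T
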