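import Pool.Agent.H83.T.FiB

/-!
# TT-31: the intersection is empty (job)

PROOF. Let `x` be in all `f(n)`. It is a point with a function `F` and `Bas (sw (h n)) (al (h n)) F` for all `n` (`hf`; the value of `f` at `nat n` exists, and
functions are unique, `Fv.right`). For `n = 0` there is `b ∈ S`, `al (h 0) ≤ b`, with infinitely many `i` such that
`F i = A.y b i`. Let `m` be given by `eb_val`, and choose such an `i ≥ m`. Consider the events `{x | eb b x = m}`, `{x | hn R k al x i = h i}`,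
`{x | yv (x b) i = A.y b i}` (`TG.y_Ev`) and `{x | {i | rl x i = yv (x b) i}.Finite}` (`Ev.of_ae`, `hfin`): there is a point `x` in all of them
(`Ev.inter`, `Ev.nonempty`). `rl R k al x i = (dw (sw (h i))).getD i 0 = F i` (definition of `rl`, `s_len`: `i` is smaller than the length) `= A.y b i = yv (x b) i`,
contradicting `eb_spec`.
-/

set_option autoImplicit false
set_option linter.unusedVariables false

namespace Pool.Agent.H83.T

open MeasureTheory Pool.Agent.H86 Pool.Agent.H86.Name Pool.Agent.H83.F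

variable {R : Rep} {k : ℕ} {al : List ℕ → K} {A : TG}

theorem no_point (hk : 0 < k) (pl : Pl R k al A) {f : A.G.M} (hf : IsPlay pl f)
    (he : ∃ m, A.G.Nm m (eNm R k al))
    (hfin : ∀ b, (∃ h, al h ≤ b) → ∀ᵐ x ∂mu, {i | rl R k al x i = yv (x b) i}.Finite) :
    ¬ ∃ x, ∀ n U, Rel A.G.E f n U → A.G.E x U := by
  rintro ⟨x, hx⟩
  have hfun : ∀ n, ∃ U, Rel A.G.E f (A.nat n) U := by
    intro n
    obtain ⟨y, hy, -⟩ := hf.1.1.2 (A.nat n) ((A.E_w _).2 ⟨n, rfl⟩)
    exact ⟨y, hy⟩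
  have hb : ∀ n, ∃ F, A.tm.Fv x F ∧ A.tm.Bas (sw (pl.h n)) (al (pl.h n)) F := by
    intro n
    obtain ⟨U, hU⟩ := hfun n
    exact ((hf.2 n U).1 hU x).1 (hx _ _ hU)
  obtain ⟨F, hF, hF0⟩ := hb 0
  have hbas : ∀ n, A.tm.Bas (sw (pl.h n)) (al (pl.h n)) F := by
    intro n
    obtain ⟨F', hF', h'⟩ := hb n
    rw [TM.Fv.right hF hF']
    exact h'
  obtain ⟨b, hbS, hab, hinf⟩ := hF0.2
  obtain ⟨m, hm⟩ := eb_val R k al A he hbS
  obtain ⟨i, hi, him⟩ := hinf.exists_gt m
  have hyi : Ev A.G {x | yv (x b) i = A.y b i} := A.y_Ev hbS i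
  have hfi : Ev A.G {x | {i | rl R k al x i = yv (x b) i}.Finite} :=
    Ev.of_ae (hfin b ⟨_, hab⟩)
  obtain ⟨ω, ⟨⟨h1, h2⟩, h3⟩, h4⟩ := (((hm.inter (pl.ev i)).inter hyi).inter hfi).nonempty
  have h1' : eb R k al b ω = m := h1
  have h2' : hn R k al ω i = pl.h i := h2
  have h3' : yv (ω b) i = A.y b i := h3
  refine eb_spec R k al (x := ω) h4 (i := i) (by rw [h1']; exact him.le) ?_
  have hlen : i < (dw (sw (pl.h i))).length := by
    have := s_len hk R al ω i
    rwa [h2'] at this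
  have h5 : F i = (dw (sw (pl.h i))).getD i 0 := (hbas i).1 i hlen
  have h6 : F i = A.y b i := hi
  unfold rl
  rw [h2', h3', ← h5, h6]

end Pool.Agent.H83.T
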