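import Pool.Agent.H83.F.Defs

/-!
# The Banach-Mazur game inside a structure `(M, E)`

All notions are interpreted in a structure `(M, E)`: `E x y` is read as `x ∈ y`. The notions `Sub`
(subset), `IsPair` (ordered pair), `Rel` (`Rel E f x y` means `(x, y) ∈ f`), `IsFun` (`IsFun E f a b`:
`f` is a function from `a` to `b`), `IsSucc` (`IsSucc E s y`: `s = y ∪ {y}`) and `IsOmega` (the set of
natural numbers) come from `Pool.Agent.H83.F.Defs`.
-/

set_option autoImplicit false

namespace Pool.Agent.H83.T

open Pool.Agent.H83.F

section Defs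

variable {M : Type} (E : M → M → Prop)

/-- `x` is the natural number `n`: `0 = ∅`, `n + 1 = n ∪ {n}`. -/
def IsNum : ℕ → M → Prop
  | 0, x => ∀ z, ¬ E z x
  | n + 1, x => ∃ y, IsNum n y ∧ IsSucc E x y

/-- `T` is a topology on `X`. -/
def IsTop (X T : M) : Prop :=
  (∀ U, E U T → Sub E U X) ∧ E X T ∧
  (∀ U V W, E U T → E V T → (∀ z, E z W ↔ (E z U ∧ E z V)) → E W T) ∧
  ∀ F W, Sub E F T → (∀ z, E z W ↔ ∃ U, E U F ∧ E z U) → E W T

/-- `(X, T)` is a Hausdorff space. -/
def IsHaus (X T : M) : Prop :=
  ∀ x y, E x X → E y X → x ≠ y →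
    ∃ U V, E U T ∧ E V T ∧ E x U ∧ E y V ∧ ∀ z, ¬ (E z U ∧ E z V)

/-- `U` is the `n`-th entry of the sequence `f`: `(n, U) ∈ f`. -/
def At (f : M) (n : ℕ) (U : M) : Prop := ∃ m, IsNum E n m ∧ Rel E f m U

/-- `g` is a sequence of length `n` of nonempty members of `T`: a function from the natural
number `n` to `T` whose values are nonempty. -/
def IsSeq (T : M) (n : ℕ) (g : M) : Prop :=
  ∃ m, IsNum E n m ∧ IsFun E g m T ∧ ∀ i U, Rel E g i U → ∃ x, E x U

/-- `f` is an infinite sequence (a function from the set `w` of natural numbers to `T`) of nonempty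
members of `T`: the moves of player I. -/
def IsRun (w T f : M) : Prop :=
  IsFun E f w T ∧ ∀ i U, Rel E f i U → ∃ x, E x U

/-- `g` is the sequence of the last `l` entries of `f(0), ..., f(n)`. -/
def IsLast (T f : M) (n l : ℕ) (g : M) : Prop :=
  IsSeq E T l g ∧ ∀ i < l, ∀ U, At E g i U ↔ At E f (n + 1 - l + i) U

/-- `s` is a strategy for player II in the Banach-Mazur game on `(X, T)` in which the reply in round
`n` (`n = 0, 1, ...`) depends only on the last `L n` moves of player I: to every sequence `g` of
length `L n` of nonempty open sets it assigns a nonempty open set that is contained in the last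
entry of `g`. -/
def IsStrat (T s : M) (L : ℕ → ℕ) : Prop :=
  ∀ n g, IsSeq E T (L n) g → ∃ V, Rel E s g V ∧ (∀ V', Rel E s g V' → V' = V) ∧
    E V T ∧ (∃ x, E x V) ∧ ∀ U, At E g (L n - 1) U → Sub E V U

/-- The sequence `f` of moves of player I is legal if player II follows `s`: `f(n + 1)` is contained
in the reply in round `n`. -/
def IsLegal (T s f : M) (L : ℕ → ℕ) : Prop :=
  ∀ n g V U, IsLast E T f n (L n) g → Rel E s g V → At E f (n + 1) U → Sub E U V

/-- Player II has a winning strategy in the Banach-Mazur game on `(X, T)` whose reply in round `n`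
depends only on the last `L n` moves of player I: for every legal sequence `f` of moves of player I
the intersection of the sets `f(n)` is not empty. -/
def Wins (w T : M) (L : ℕ → ℕ) : Prop :=
  ∃ s, IsStrat E T s L ∧ ∀ f, IsRun E w T f → IsLegal E T s f L → ∃ x, ∀ n U, At E f n U → E x U

/-- Player II has a winning strategy (the reply depends on all previous moves of player I). -/
def WinStrategy (w T : M) : Prop := Wins E w T fun n => n + 1

/-- Player II has a winning `k`-tactic (the reply in round `n` depends on the last `min k (n + 1)`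
moves of player I). -/
def WinTactic (w T : M) (k : ℕ) : Prop := Wins E w T fun n => min k (n + 1)

end Defs

end Pool.Agent.H83.T
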