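import Pool.Agent.H83.F.Frc2
import Pool.Agent.H83.F.Int
import Pool.Agent.H83.T.Stmt

/-!
# Formulas about the space and the game

All formulas are written polymorphically in a logical structure `L`: for `L = propStr E` they have
the obvious meaning in the structure `(M, E)` (by `Iff.rfl`), for `L = FS Q` they are the forcing
conditions, for `L = codeStr` they are codes of formulas.
-/

set_option autoImplicit false

universe v w'

namespace Pool.Agent.H83.T

open Pool.Agent.H86 Pool.Agent.H83.F

section Formulas

variable {N : Type v} {Ω : Type w'} (L : LogicStr N Ω)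

/-- `f (x, y) = z` -/
def fOp (f x y z : N) : Ω := L.ex fun u => L.and (fPr L u x y) (fRel L f u z)

/-- `f` is a function from `a` to `b` -/
def fIsFun (f a b : N) : Ω := L.and
  (L.all fun z => L.imp (L.mem z f)
    (L.ex fun x => L.ex fun y => L.and (fPr L z x y) (L.and (L.mem x a) (L.mem y b))))
  (L.all fun x => L.imp (L.mem x a)
    (L.ex fun y => L.and (fRel L f x y) (L.all fun y' => L.imp (fRel L f x y') (L.eq y' y))))

/-- `s = y ∪ {y}` -/
def fSucc (s y : N) : Ω := L.all fun z => L.iff (L.mem z s) (L.or (L.mem z y) (L.eq z y))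

/-- parameters: `ω`, the ordinal, the generic sequences, the decoding of finite sequences, the space
and its topology -/
structure Pr (N : Type v) where
  /-- `ω` -/
  w : N
  /-- the ordinal `(2^ω)⁺` of the ground model -/
  kp : N
  /-- `(β, n) ↦` the `n`-th value of the sequence `β` -/
  Y : N
  /-- `(c, i) ↦` the `i`-th entry of the finite sequence with code `c` -/
  D : N
  /-- the space -/
  X : N
  /-- the topology -/
  Tp : N

/-- `r` hits the sequence `b` infinitely often -/
def fHit (P : Pr N) (b r : N) : Ω := L.all fun m => L.imp (L.mem m P.w)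
  (L.ex fun n => L.and (L.mem n P.w) (L.and (L.imp (L.mem n m) L.bot)
    (L.ex fun v => L.and (fOp L P.Y b n v) (fRel L r n v))))

/-- `r` is a point of the space -/
def fPt (P : Pr N) (r : N) : Ω :=
  L.and (fIsFun L r P.w P.w) (L.ex fun b => L.and (L.mem b P.kp) (fHit L P b r))

/-- `r` is in the basic set given by the word `c` and the ordinal `a` -/
def fU (P : Pr N) (c a r : N) : Ω := L.and (L.mem r P.X)
  (L.and (L.all fun i => L.all fun v => L.imp (fOp L P.D c i v) (fRel L r i v))
    (L.ex fun b => L.and (L.mem b P.kp) (L.and (L.imp (L.mem b a) L.bot) (fHit L P b r))))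

/-- `O` is open -/
def fOpen (P : Pr N) (O : N) : Ω := L.and (L.all fun r => L.imp (L.mem r O) (L.mem r P.X))
  (L.all fun r => L.imp (L.mem r O) (L.ex fun c => L.and (L.mem c P.w)
    (L.ex fun a => L.and (L.mem a P.kp) (L.and (fU L P c a r)
      (L.all fun r' => L.imp (fU L P c a r') (L.mem r' O))))))

/-- the space and the topology are the right sets -/
def fSp (P : Pr N) : Ω := L.and (L.all fun r => L.iff (L.mem r P.X) (fPt L P r))
  (L.all fun O => L.iff (L.mem O P.Tp) (fOpen L P O))

/-- `g` is a sequence of length `l` of nonempty open sets -/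
def fSeq (P : Pr N) (l g : N) : Ω := L.and (fIsFun L g l P.Tp)
  (L.all fun i => L.all fun U => L.imp (fRel L g i U) (L.ex fun x => L.mem x U))

/-- `g` is the window of `f` in round `n`; `W` is the set of all `((n, i), j)` such that the `i`-th
entry of the window in round `n` is `f(j)` -/
def fWin (W f n g : N) : Ω := L.all fun i => L.all fun U => L.iff (fRel L g i U)
  (L.ex fun j => L.and (fOp L W n i j) (fRel L f j U))

/-- `s` is a tactic for player II; `Ln` is the set of all `(n, l)` such that the window in round `n`
has length `l` -/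
def fStrat (P : Pr N) (s Ln : N) : Ω :=
  L.all fun n => L.all fun l => L.all fun g => L.imp (fRel L Ln n l) (L.imp (fSeq L P l g)
    (L.ex fun V => L.and (fRel L s g V) (L.and (L.all fun V' => L.imp (fRel L s g V') (L.eq V' V))
      (L.and (L.mem V P.Tp) (L.and (L.ex fun x => L.mem x V)
        (L.all fun i => L.all fun U => L.imp (fSucc L l i) (L.imp (fRel L g i U)
          (L.all fun x => L.imp (L.mem x V) (L.mem x U)))))))))

/-- `f` is legal against `s` -/
def fLegal (P : Pr N) (s W Ln f : N) : Ω :=
  L.all fun n => L.all fun n' => L.all fun l => L.all fun g => L.all fun V => L.all fun U =>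
    L.imp (L.mem n P.w) (L.imp (fSucc L n' n) (L.imp (fRel L Ln n l) (L.imp (fSeq L P l g)
      (L.imp (fWin L W f n g) (L.imp (fRel L s g V) (L.imp (fRel L f n' U)
        (L.all fun x => L.imp (L.mem x U) (L.mem x V))))))))

/-- `s` is a winning tactic for player II -/
def fWins (P : Pr N) (s W Ln : N) : Ω := L.and (fStrat L P s Ln)
  (L.all fun f => L.imp (fSeq L P P.w f) (L.imp (fLegal L P s W Ln f)
    (L.ex fun x => L.all fun n => L.all fun U => L.imp (fRel L f n U) (L.mem x U))))

/-- `G` is the sequence of the basic sets given by the window `v` (the set of all `(i, (c, a))`, where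
the `i`-th entry of the window is `(c, a)`), and the reply of `s` to `G` contains the basic set given by
`t` and `a'` -/
def fRp (P : Pr N) (s v t a' : N) : Ω := L.ex fun g => L.ex fun V =>
  L.and (L.all fun z => L.imp (L.mem z g) (L.ex fun x => L.ex fun y => fPr L z x y))
    (L.and (L.all fun i => L.all fun U => L.iff (fRel L g i U)
      (L.ex fun p => L.ex fun c => L.ex fun a => L.and (fRel L v i p) (L.and (fPr L p c a)
        (L.all fun r => L.iff (L.mem r U) (fU L P c a r)))))
    (L.and (fRel L s g V) (L.all fun r => L.imp (fU L P t a' r) (L.mem r V))))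

end Formulas

/-- the parameters as variables `1, ..., 6` -/
def P0 : Pr ℕ := ⟨1, 2, 3, 4, 5, 6⟩

/-- image of the parameters -/
def Pr.map {N N' : Type*} (P : Pr N) (f : N → N') : Pr N' := ⟨f P.w, f P.kp, f P.Y, f P.D, f P.X, f P.Tp⟩

section Eval

variable {N : Type v} {Ω : Type w'} (L : LogicStr N Ω) (f : ℕ → N)

theorem eval_fSp : (fSp codeStr P0 20).eval L f = fSp L (P0.map f) := rfl

theorem eval_fOpen : (fOpen codeStr P0 0 20).eval L f = fOpen L (P0.map f) (f 0) := rfl

theorem eval_fPt : (fPt codeStr P0 0 20).eval L f = fPt L (P0.map f) (f 0) := rfl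

theorem eval_fU : (fU codeStr P0 7 8 0 20).eval L f = fU L (P0.map f) (f 7) (f 8) (f 0) := rfl

theorem eval_fWins : (fWins codeStr P0 7 8 9 20).eval L f =
    fWins L (P0.map f) (f 7) (f 8) (f 9) := rfl

theorem eval_fRp : (fRp codeStr P0 7 8 9 10 20).eval L f =
    fRp L (P0.map f) (f 7) (f 8) (f 9) (f 10) := rfl

end Eval

end Pool.Agent.H83.T
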