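import Pool.Agent.H83.T.NmE
import Pool.Agent.H83.T.RpA
import Pool.Agent.H83.T.CrDef

/-!
# TT-28: the replies as random variables (job: `one_win`)

PROOF of `one_win`. Let `w = w' ++ [(c, a)]` and `V = {v : ℕ × K // dw c <+: dw v.1}` (nonempty: `(c, a)`). Apply
`exists_fun` with `A v = fRp (FS Q) (PN XN TN) sN (nV w) (nN v.1.1) (kN v.1.2)`. Its hypothesis: let `q ≤ p`; `exists_TG1` for
`hp.mono` and a sequence containing `nV w` gives a generic model `A` with `qs 0 = q`, with a winning tactic `s`, and an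
element `v` named `nV w`, `A.isV` gives `A.tm.IsV v w`. By `TM.exists_rp` there are `t`, `b ∈ A.S` with `fRp (propStr _) A.P s v (A.nat t) (A.or b)`;
by `TM.pre_rp`, `dw c <+: dw t`; by `truth_Rp` some `qs n ≤ qs 0 = q` forces it. The function `Pt → V` composed with `Subtype.val` is the `F`:
the fibre over `v` is a fibre over a point of `V` or empty (then `AE q ∅` is impossible: `AE.nonempty`).
-/

set_option autoImplicit false
set_option linter.unusedVariables false

namespace Pool.Agent.H83.T

open MeasureTheory Pool.Agent.H86 Pool.Agent.H86.Name Pool.Agent.H83.F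

theorem one_win {XN TN sN : Name Q} {k : ℕ} {p : Q} (hp : Fo XN TN sN k p) (w' : List (ℕ × K))
    (c : ℕ) (a : K) (hk : w'.length + 1 ≤ k) :
    ∃ F : Pt → ℕ × K, (∀ v, MeasurableSet {x | F x = v}) ∧ (Set.range F).Countable ∧
      (∀ x, dw c <+: dw (F x).1) ∧ ∀ v, ∀ q ≤ p, AE q {x | F x = v} →
        (fRp (FS Q) (PN XN TN) sN (nV (w' ++ [(c, a)])) (nN v.1) (kN v.2)).holds q := by
  classical
  have hne : Nonempty {v : ℕ × K // dw c <+: dw v.1} := ⟨⟨(c, a), List.prefix_rfl⟩⟩
  obtain ⟨F, h1, h2, h3⟩ := exists_fun (V := {v : ℕ × K // dw c <+: dw v.1})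
    (fun v => fRp (FS Q) (PN XN TN) sN (nV (w' ++ [(c, a)])) (nN v.1.1) (kN v.1.2)) p (by
      intro q hq
      obtain ⟨A, s, hA0, hX, hT, hs, hwin, hx⟩ :=
        exists_TG1 (hp.mono hq) (fun _ => nV (w' ++ [(c, a)]))
      obtain ⟨v, hv⟩ := hx 0
      have hV := A.isV hv
      have hwin' : fWins (propStr A.tm.E) A.tm.P s (A.tm.Wn k) (A.tm.Ln k) := hwin
      obtain ⟨t, b, hb, hr⟩ := A.tm.exists_rp hwin' hV (by simp) (by simpa using hk)
      have hpre := A.tm.pre_rp hwin' hV hk hb hr
      obtain ⟨n, hn⟩ := (truth_Rp A hX hT hs hv t hb).1 hr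
      refine ⟨A.G.qs n, ?_, ⟨(t, b), hpre⟩, hn⟩
      rw [← hA0]
      exact A.G.anti (Nat.zero_le n))
  have key : ∀ (v : ℕ × K) (hv : dw c <+: dw v.1), {x | (F x).1 = v} = {x | F x = ⟨v, hv⟩} := by
    intro v hv
    ext x
    constructor
    · intro h
      exact Subtype.ext h
    · intro h
      exact congrArg Subtype.val h
  have key2 : ∀ v : ℕ × K, ¬ dw c <+: dw v.1 → {x | (F x).1 = v} = ∅ := by
    intro v hv
    rw [Set.eq_empty_iff_forall_notMem]
    intro x hx
    have hx' : (F x).1 = v := hx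
    exact hv (hx' ▸ (F x).2)
  refine ⟨fun x => (F x).1, ?_, ?_, fun x => (F x).2, ?_⟩
  · intro v
    by_cases hv : dw c <+: dw v.1
    · rw [key v hv]
      exact h1 _
    · rw [key2 v hv]
      exact MeasurableSet.empty
  · have h4 : Set.range (fun x => (F x).1) = Subtype.val '' Set.range F := by
      rw [← Set.range_comp]
      rfl
    rw [h4]
    exact h2.image _
  · intro v q hq hAE
    by_cases hv : dw c <+: dw v.1
    · rw [key v hv] at hAE
      exact h3 ⟨v, hv⟩ q hq hAE
    · rw [key2 v hv] at hAE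
      obtain ⟨x, hx⟩ := hAE.nonempty
      exact hx.2.elim

theorem exists_Rep {XN TN sN : Name Q} {k : ℕ} {p : Q} (hp : Fo XN TN sN k p) :
    ∃ R : Rep, ∀ w : List (ℕ × K), 1 ≤ w.length → w.length ≤ k → ∀ v, ∀ q ≤ p,
      AE q {x | R.rho w x = v} →
        (fRp (FS Q) (PN XN TN) sN (nV w) (nN v.1) (kN v.2)).holds q := by
  classical
  have key : ∀ w : List (ℕ × K), ∃ F : Pt → ℕ × K, (∀ v, MeasurableSet {x | F x = v}) ∧
      (Set.range F).Countable ∧ (∀ w' c a, w = w' ++ [(c, a)] → ∀ x, dw c <+: dw (F x).1) ∧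
      (1 ≤ w.length → w.length ≤ k → ∀ v, ∀ q ≤ p, AE q {x | F x = v} →
        (fRp (FS Q) (PN XN TN) sN (nV w) (nN v.1) (kN v.2)).holds q) := by
    intro w
    rcases List.eq_nil_or_concat w with rfl | ⟨w', ⟨c, a⟩, rfl⟩
    · refine ⟨fun _ => (0, Classical.arbitrary K), fun v => ?_, ?_, ?_, ?_⟩
      · by_cases h : ((0, Classical.arbitrary K) : ℕ × K) = v
        · simp [h]
        · simp [h]
      · exact (Set.countable_singleton _).mono (by rintro _ ⟨x, rfl⟩; rfl)
      · intro w' c a h
        simp at h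
      · intro h; simp at h
    · by_cases hk : w'.length + 1 ≤ k
      · obtain ⟨F, h1, h2, h3, h4⟩ := one_win hp w' c a hk
        refine ⟨F, h1, h2, ?_, fun _ _ => by simpa using h4⟩
        intro w'' c' a' h
        rw [List.concat_eq_append] at h
        have h5 := List.append_inj' h rfl
        simp only [List.cons.injEq, Prod.mk.injEq, and_true] at h5
        rw [← h5.2.1]
        exact h3
      · refine ⟨fun _ => (c, a), fun v => ?_, ?_, ?_, ?_⟩
        · by_cases h : ((c, a) : ℕ × K) = v
          · simp [h]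
          · simp [h]
        · exact (Set.countable_singleton _).mono (by rintro _ ⟨x, rfl⟩; rfl)
        · intro w'' c' a' h x
          rw [List.concat_eq_append] at h
          have h5 := List.append_inj' h rfl
          simp only [List.cons.injEq, Prod.mk.injEq, and_true] at h5
          rw [h5.2.1]
        · intro _ h
          simp only [List.concat_eq_append, List.length_append, List.length_cons, List.length_nil] at h
          omega
  choose F h1 h2 h3 h4 using key
  exact ⟨⟨F, h1, h2, fun w c a x => h3 _ w c a rfl x⟩, h4⟩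

end Pool.Agent.H83.T
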