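import Pool.Agent.H83.T.SpB

/-!
# TT-18: the topology (job)

PROOFS (`open_iff`, `X_iff`).
* `isTop`: `X` is open: a point `f` of `X` hits some `b ∈ S` infinitely often and is in `Bas (ew []) b`, and all points of
  `Bas c a` are in `X`. Intersection of `U`, `V`: let `f ∈ Bas c a ⊆ U`, `f ∈ Bas c' a' ⊆ V`; if `(dw c).length ≤ (dw c').length`, `dw c` is a
  prefix of `dw c'` (both are initial segments of `f`) and `f ∈ Bas c' (max a a') ⊆ Bas c a ∩ Bas c' a'`: choose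
  from the witnesses `b ≥ a`, `b' ≥ a'` the larger one. Symmetric otherwise.
* `isHaus`: if `r ≠ r'` are points with functions `f ≠ f'` (`Fv.left`), `f n ≠ f' n`, take the basic sets for the codes of
  `(List.range (n + 1)).map f` and `(List.range (n + 1)).map f'` (`exists_bas`).
-/

set_option autoImplicit false

namespace Pool.Agent.H83.T

open Pool.Agent.H86 Pool.Agent.H83.F

namespace TM

variable (A : TM)

theorem Bas_mono {c c' : ℕ} {a a' : K} {f : ℕ → ℕ} (hc : dw c <+: dw c') (ha : a ≤ a')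
    (h : A.Bas c' a' f) : A.Bas c a f := by
  obtain ⟨h1, b, hb, hab, h2⟩ := h
  refine ⟨fun i hi => ?_, b, hb, ha.trans hab, h2⟩
  obtain ⟨t, ht⟩ := hc
  have hi' : i < (dw c').length := by
    rw [← ht, List.length_append]; omega
  rw [h1 i hi', ← ht, List.getD_append _ _ _ _ hi]

theorem pre_of_Bas {c c' : ℕ} {a a' : K} {f : ℕ → ℕ} (hl : (dw c).length ≤ (dw c').length)
    (h : A.Bas c a f) (h' : A.Bas c' a' f) : dw c <+: dw c' := by
  rw [List.prefix_iff_eq_take]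
  apply List.ext_getElem
  · rw [List.length_take]; omega
  · intro i hi hi'
    have h1 := h.1 i hi
    have hi2 : i < (dw c').length := by omega
    have h2 := h'.1 i hi2
    rw [List.getD_eq_getElem _ _ hi] at h1
    rw [List.getD_eq_getElem _ _ hi2] at h2
    rw [List.getElem_take, ← h1, ← h2]

/-- intersection of two basic sets -/
theorem Bas_inter {c c' : ℕ} {a a' : K} {f : ℕ → ℕ} (ha : a ∈ A.S) (ha' : a' ∈ A.S)
    (h : A.Bas c a f) (h' : A.Bas c' a' f) : ∃ c'', ∃ a'' ∈ A.S, A.Bas c'' a'' f ∧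
      ∀ g, A.Bas c'' a'' g → A.Bas c a g ∧ A.Bas c' a' g := by
  have hm : max a a' ∈ A.S := by
    rcases le_total a a' with h1 | h1
    · rwa [max_eq_right h1]
    · rwa [max_eq_left h1]
  have hmax : ∀ c0, (∀ i < (dw c0).length, f i = (dw c0).getD i 0) → A.Bas c0 (max a a') f := by
    intro c0 h0
    rcases le_total a a' with h1 | h1
    · rw [max_eq_right h1]
      exact ⟨h0, h'.2⟩
    · rw [max_eq_left h1]
      exact ⟨h0, h.2⟩
  rcases le_total (dw c).length (dw c').length with hl | hl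
  · exact ⟨c', max a a', hm, hmax c' h'.1, fun g hg =>
      ⟨A.Bas_mono (A.pre_of_Bas hl h h') (le_max_left _ _) hg,
        A.Bas_mono (List.prefix_refl _) (le_max_right _ _) hg⟩⟩
  · exact ⟨c, max a a', hm, hmax c h.1, fun g hg =>
      ⟨A.Bas_mono (List.prefix_refl _) (le_max_left _ _) hg,
        A.Bas_mono (A.pre_of_Bas hl h' h) (le_max_right _ _) hg⟩⟩

theorem isTop : IsTop A.E A.P.X A.P.Tp := by
  refine ⟨fun U hU => ((A.open_iff U).1 hU).1, ?_, ?_, ?_⟩
  · rw [A.open_iff]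
    refine ⟨fun z hz => hz, fun r f hr hf => ?_⟩
    obtain ⟨f', hf', b, hb, hi⟩ := (A.X_iff r).1 hr
    have hff : f' = f := Fv.right hf' hf
    subst hff
    refine ⟨ew [], b, hb, ⟨fun i hi' => ?_, b, hb, le_rfl, hi⟩, ?_⟩
    · rw [dw_ew] at hi'
      exact (Nat.not_lt_zero i hi').elim
    · rintro r' g hg ⟨-, b', hb', -, h2⟩
      exact (A.X_iff r').2 ⟨g, hg, b', hb', h2⟩
  · intro U V W hU hV hW
    obtain ⟨hU1, hU2⟩ := (A.open_iff U).1 hU
    obtain ⟨hV1, hV2⟩ := (A.open_iff V).1 hV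
    rw [A.open_iff]
    refine ⟨fun z hz => hU1 z ((hW z).1 hz).1, fun r f hr hf => ?_⟩
    obtain ⟨hrU, hrV⟩ := (hW r).1 hr
    obtain ⟨c, a, ha, h1, h2⟩ := hU2 r f hrU hf
    obtain ⟨c', a', ha', h1', h2'⟩ := hV2 r f hrV hf
    obtain ⟨c'', a'', ha'', h3, h4⟩ := A.Bas_inter ha ha' h1 h1'
    refine ⟨c'', a'', ha'', h3, fun r' g hg hB => ?_⟩
    exact (hW r').2 ⟨h2 r' g hg (h4 g hB).1, h2' r' g hg (h4 g hB).2⟩
  · intro F W hF hW
    rw [A.open_iff]
    refine ⟨fun z hz => ?_, fun r f hr hf => ?_⟩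
    · obtain ⟨U, hU, hz⟩ := (hW z).1 hz
      exact ((A.open_iff U).1 (hF U hU)).1 z hz
    · obtain ⟨U, hU, hrU⟩ := (hW r).1 hr
      obtain ⟨c, a, ha, h1, h2⟩ := ((A.open_iff U).1 (hF U hU)).2 r f hrU hf
      exact ⟨c, a, ha, h1, fun r' g hg hB => (hW r').2 ⟨U, hU, h2 r' g hg hB⟩⟩

theorem isHaus : IsHaus A.E A.P.X A.P.Tp := by
  intro x y hx hy hxy
  obtain ⟨f, hf, b, hb, hi⟩ := (A.X_iff x).1 hx
  obtain ⟨g, hg, b', hb', hi'⟩ := (A.X_iff y).1 hy
  have hfg : f ≠ g := by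
    rintro rfl
    exact hxy (Fv.left hf hg)
  obtain ⟨n, hn⟩ := Function.ne_iff.1 hfg
  have key : ∀ (h : ℕ → ℕ) (i : ℕ), i < (dw (ew ((List.range (n + 1)).map h))).length →
      (dw (ew ((List.range (n + 1)).map h))).getD i 0 = h i := by
    intro h i hi0
    rw [dw_ew] at hi0 ⊢
    rw [List.getD_eq_getElem _ _ hi0, List.getElem_map, List.getElem_range]
  have hlen : ∀ h : ℕ → ℕ, n < (dw (ew ((List.range (n + 1)).map h))).length := by
    intro h
    rw [dw_ew, List.length_map, List.length_range]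
    exact Nat.lt_succ_self n
  obtain ⟨U, hU, -, hU'⟩ := A.exists_bas (ew ((List.range (n + 1)).map f)) hb
  obtain ⟨V, hV, -, hV'⟩ := A.exists_bas (ew ((List.range (n + 1)).map g)) hb'
  refine ⟨U, V, hU, hV, (hU' x f hf).2 ⟨fun i h0 => (key f i h0).symm, b, hb, le_rfl, hi⟩,
    (hV' y g hg).2 ⟨fun i h0 => (key g i h0).symm, b', hb', le_rfl, hi'⟩, ?_⟩
  rintro z ⟨hzU, hzV⟩
  obtain ⟨e, he, -⟩ := (A.X_iff z).1 (((A.open_iff U).1 hU).1 z hzU)
  have h1 := ((hU' z e he).1 hzU).1 n (hlen f)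
  have h2 := ((hV' z e he).1 hzV).1 n (hlen g)
  rw [key f n (hlen f)] at h1
  rw [key g n (hlen g)] at h2
  exact hn (h1.symm.trans h2)

end TM

end Pool.Agent.H83.T
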