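import Pool.Agent.H83.T.StC

/-!
# TT-23: the strategy is winning (job)

PROOF. For `n : ℕ` let `Uf n` be the value of `f` at `nat n` and `Ch (Uf n) (cf n) (af n)` (`exists_Ch`). Let `g n` be the restriction of
`f` to `nat (n + 1)` (`exists_rel` for `a = nat (n + 1)`, `b = T` and the formula `(x, y) ∈ f`); then
`IsLast .. f n (n + 1) (g n)` and `SqD (g n) n Uf cf af`. Let `V n` be the reply (`strat_sig`), so `Uf (n + 1) ⊆ V n` by `hl`, and
`V n` consists of the points with `Bas (rw' n cf af) (af n)` (`rep_iff`). As `Bas (cf (n + 1)) (af (n + 1)) ⊆ Uf (n + 1)`, `pre_of_sub`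
gives `dw (rw' n cf af) <+: dw (cf (n + 1))` (`limit_pre`). So with `s n = dw (cf n)`: `s n` is a prefix of `s (n + 1)`,
`(s (n + 1)).length ≥ (s n).length + n + 1`, and the entry of `s (n + 1)` at `(s n).length + i` is `y (af i) ((s n).length + i)`, `i ≤ n`.
Let `F i = (s (i + 1)).getD i 0` (`i < (s (i + 1)).length`), which is the `i`-th entry of every `s n` with `i < (s n).length`.
`F` is in the model: `Fv.mk` for `R i v := ∃ n U c a, Rel f n U ∧ fCh U c a ∧ Op D c i v` (code `pairCode (fun x y => codeStr.ex fun n =>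
codeStr.ex fun U => codeStr.ex fun c => codeStr.ex fun a => codeStr.and (fRel codeStr 7 n U) (codeStr.and (fCh codeStr P0 U c a)
(fOp codeStr 4 c x y))) 20`, `asn _ [P.w, P.kp, P.Y, P.D, P.X, P.Tp, f]`; the variable of `P.D` is `4`).
`Hi (af i) F`: `F m = y (af i) m` for `m = (s n).length + i`, all `n ≥ i` (infinitely many `m`). So `Bas (cf n) (af n) F` for all `n`, and the
point `F` is in all `Uf n`.
-/

set_option autoImplicit false

namespace Pool.Agent.H83.T

open Pool.Agent.H86 Pool.Agent.H83.F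

namespace TM

variable (A : TM)

theorem dom_uniq {g T : A.M} {a b : ℕ} (h : IsFun A.E g (A.nat a) T)
    (h' : IsFun A.E g (A.nat b) T) : a = b := by
  have key : ∀ {a b : ℕ}, IsFun A.E g (A.nat a) T → IsFun A.E g (A.nat b) T → a ≤ b := by
    intro a b h h'
    by_contra hab
    obtain ⟨y, hy, -⟩ := h.2 (A.nat b) ((A.nat_lt _ _).2 (not_le.1 hab))
    exact not_mem_self A.zf _ (IsFun.mem A.zf h' hy).1
  exact le_antisymm (key h h') (key h' h)

theorem win_seq {cf : ℕ → ℕ} {af : ℕ → K}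
    (hpre : ∀ n, dw (A.rw' n cf af) <+: dw (cf (n + 1))) :
    ∃ F : ℕ → ℕ, (∀ n i, i < (dw (cf n)).length → (dw (cf n)).getD i 0 = F i) ∧
      (∀ i, A.Hi (af i) F) ∧ ∀ i, i < (dw (cf (i + 1))).length := by
  have hpre' : ∀ n, dw (cf n) ++ (List.range (n + 1)).map
      (fun i => A.y (af i) ((dw (cf n)).length + i)) <+: dw (cf (n + 1)) := by
    intro n
    have := hpre n
    rwa [rw', dw_ew] at this
  have hstep : ∀ n, dw (cf n) <+: dw (cf (n + 1)) := fun n =>
    (List.prefix_append _ _).trans (hpre' n)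
  have hmono : ∀ m n, m ≤ n → dw (cf m) <+: dw (cf n) := by
    intro m n hmn
    induction n, hmn using Nat.le_induction with
    | base => exact List.prefix_refl _
    | succ n _ ih => exact ih.trans (hstep n)
  have hlen : ∀ n, (dw (cf n)).length + (n + 1) ≤ (dw (cf (n + 1))).length := by
    intro n
    have := (hpre' n).length_le
    simpa using this
  have hge : ∀ n, n ≤ (dw (cf n)).length := by
    intro n
    induction n with
    | zero => exact Nat.zero_le _
    | succ n ih =>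
      have := hlen n
      omega
  have hget : ∀ {l l' : List ℕ} {i : ℕ}, l <+: l' → i < l.length → l'.getD i 0 = l.getD i 0 := by
    rintro l l' i ⟨t, rfl⟩ hi
    rw [List.getD_append _ _ _ _ hi]
  have hlt : ∀ i, i < (dw (cf (i + 1))).length := fun i => lt_of_lt_of_le (Nat.lt_succ_self i) (hge (i + 1))
  have hF : ∀ n i, i < (dw (cf n)).length →
      (dw (cf n)).getD i 0 = (dw (cf (i + 1))).getD i 0 := by
    intro n i hi
    rcases le_total n (i + 1) with h | h
    · exact (hget (hmono _ _ h) hi).symm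
    · exact hget (hmono _ _ h) (hlt i)
  refine ⟨fun i => (dw (cf (i + 1))).getD i 0, hF, fun i => ?_, hlt⟩
  refine Set.infinite_of_forall_exists_gt fun a => ?_
  set n := max i (a + 1) with hn
  have hin : i ≤ n := le_max_left _ _
  have han : a + 1 ≤ n := le_max_right _ _
  refine ⟨(dw (cf n)).length + i, ?_, ?_⟩
  · change (dw (cf ((dw (cf n)).length + i + 1))).getD ((dw (cf n)).length + i) 0 =
      A.y (af i) ((dw (cf n)).length + i)
    have h1 : (dw (cf n)).length + i < (dw (cf (n + 1))).length := by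
      have := hlen n
      omega
    rw [← hF (n + 1) _ h1]
    rw [hget (hpre' n) (by simp; omega)]
    rw [List.getD_append_right _ _ _ _ (Nat.le_add_right _ _)]
    rw [Nat.add_sub_cancel_left, List.getD_eq_getElem _ _ (by simp; omega)]
    simp
  · have := hge n
    omega

theorem win_sig {s : A.M} (hs : ∀ g V, Rel A.E s g V ↔
    ∃ n, IsSeq A.E A.P.Tp (n + 1) g ∧ A.E V A.P.Tp ∧ fRep (propStr A.E) A.P A.J g (A.nat n) V)
    {f : A.M} (hf : IsRun A.E A.P.w A.P.Tp f) (hl : IsLegal A.E A.P.Tp s f (fun n => n + 1)) :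
    ∃ x, ∀ n U, At A.E f n U → A.E x U := by
  have hU0 : ∀ n, ∃ U, Rel A.E f (A.nat n) U := fun n =>
    let ⟨y, hy, _⟩ := hf.1.2 (A.nat n) (A.nat_w n)
    ⟨y, hy⟩
  choose Uf hUf using hU0
  have hCh0 : ∀ n, ∃ c a, A.Ch (Uf n) c a := fun n =>
    A.exists_Ch (IsFun.mem A.zf hf.1 (hUf n)).2 (hf.2 _ _ (hUf n))
  choose cf af hCh using hCh0
  have huf : ∀ {n U}, Rel A.E f (A.nat n) U → U = Uf n := fun h =>
    IsFun.uniq A.zf hf.1 h (hUf _)
  have hpre : ∀ n, dw (A.rw' n cf af) <+: dw (cf (n + 1)) := by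
    intro n
    obtain ⟨g, hg1, hg2⟩ := exists_rel A.zf (pairCode (fun x y => fRel codeStr 1 x y) 10)
      (asn f [f]) (P := fun x y => Rel A.E f x y) (fun z => Iff.rfl) (A.nat (n + 1)) A.P.Tp
    have hgr : ∀ i ≤ n, ∀ U, Rel A.E g (A.nat i) U ↔ Rel A.E f (A.nat i) U := by
      intro i hi U
      rw [hg2]
      exact ⟨fun h => h.2.2, fun h => ⟨(A.nat_lt _ _).2 (Nat.lt_succ_of_le hi),
        (IsFun.mem A.zf hf.1 h).2, h⟩⟩
    have hgf : IsFun A.E g (A.nat (n + 1)) A.P.Tp := by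
      refine isFun_of A.zf (fun z hz => ?_) (fun x hx => ?_) (fun x y y' h h' => ?_)
      · obtain ⟨x, y, h1, h2, h3, -⟩ := hg1 z hz
        exact ⟨x, y, h1, h2, h3⟩
      · obtain ⟨i, hi, rfl⟩ := (A.E_nat _ _).1 hx
        exact ⟨Uf i, (hgr i (Nat.le_of_lt_succ hi) _).2 (hUf i)⟩
      · exact IsFun.uniq A.zf hf.1 ((hg2 _ _).1 h).2.2 ((hg2 _ _).1 h').2.2
    have hsq : A.SqD g n Uf cf af := ⟨hgf, fun i hi => ⟨(hgr i hi _).2 (hUf i), hCh i⟩⟩
    have hseq : IsSeq A.E A.P.Tp (n + 1) g :=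
      ⟨A.nat (n + 1), (A.isNum_iff _ _).2 rfl, hgf, fun i U h => hf.2 i U ((hg2 _ _).1 h).2.2⟩
    have hlast : IsLast A.E A.P.Tp f n (n + 1) g := by
      refine ⟨hseq, fun i hi U => ?_⟩
      rw [A.at_iff, A.at_iff, hgr i (Nat.le_of_lt_succ hi)]
      have : n + 1 - (n + 1) + i = i := by omega
      rw [this]
    obtain ⟨V, hV, -⟩ := A.strat_sig hs n g hseq
    obtain ⟨n', h1, -, h3⟩ := (hs g V).1 hV
    have hnn : n' = n := by
      obtain ⟨m, hm1, hm2, -⟩ := h1
      rw [(A.isNum_iff _ _).1 hm1] at hm2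
      have := A.dom_uniq hm2 hgf
      omega
    subst hnn
    have h4 := (A.rep_iff hsq V).1 h3
    have h5 : Sub A.E (Uf (n' + 1)) V := hl n' g V _ hlast hV ((A.at_iff _ _ _).2 (hUf _))
    refine A.pre_of_sub (hCh (n' + 1)).1 (a := af n') fun r F hr hF => ?_
    obtain ⟨F', hF', hB⟩ := (h4 r).1 (h5 r ((hCh (n' + 1)).2.1 r F hr hF))
    rwa [Fv.right hr hF']
  obtain ⟨F, hF1, hF2, hF3⟩ := A.win_seq hpre
  obtain ⟨r, hr⟩ := Fv.mk A
    (pairCode (fun x y => codeStr.ex fun n => codeStr.ex fun U => codeStr.ex fun c =>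
      codeStr.ex fun a => codeStr.and (fRel codeStr 7 n U) (codeStr.and (fCh codeStr P0 U c a)
        (fOp codeStr 4 c x y))) 20)
    (asn f [A.P.w, A.P.kp, A.P.Y, A.P.D, A.P.X, A.P.Tp, f])
    (R := fun x y => ∃ n U c a, Rel A.E f n U ∧ fCh (propStr A.E) A.P U c a ∧ Op A.E A.P.D c x y)
    (fun z => Iff.rfl) F (by
      intro i m
      constructor
      · rintro ⟨x, U, c, a, h1, h2, h3⟩
        obtain ⟨n, rfl⟩ := (A.E_w _).1 (IsFun.mem A.zf hf.1 h1).1
        obtain ⟨c', a', rfl, rfl, h4⟩ := (A.fCh_iff' U c a).1 h2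
        rw [huf h1] at h4
        obtain ⟨h5, -⟩ := A.Ch_uniq h4 (hCh n)
        subst h5
        obtain ⟨j, h6, h7, h8⟩ := (A.op_D _ _ _).1 h3
        rw [A.nat_inj h8, A.nat_inj h7]
        exact hF1 n j h6
      · rintro rfl
        refine ⟨A.nat (i + 1), Uf (i + 1), A.nat (cf (i + 1)), A.or (af (i + 1)), hUf _,
          (A.fCh_iff' _ _ _).2 ⟨_, _, rfl, rfl, hCh _⟩, (A.op_D _ _ _).2 ⟨i, hF3 i, rfl, ?_⟩⟩
        rw [hF1 _ i (hF3 i)])
  refine ⟨r, fun n U hU => ?_⟩
  rw [huf ((A.at_iff _ _ _).1 hU)]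
  exact (hCh n).2.1 r F hr ⟨fun i hi => (hF1 n i hi).symm, af n, (hCh n).1, le_rfl, hF2 n⟩

theorem winStrategy : WinStrategy A.E A.P.w A.P.Tp := by
  obtain ⟨s, hs⟩ := A.exists_sig
  exact ⟨s, A.strat_sig hs, fun f hf hl => A.win_sig hs hf hl⟩

end TM

end Pool.Agent.H83.T
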