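import Pool.Agent.H83.T.SpN

/-!
# TT-24: winning tactics and the formula `fWins` (job)

PROOF. `IsStrat .. s (fun n => min k (n + 1))` is equivalent to `fStrat (propStr A.E) A.P s (A.Ln k)`: `rel_L` and `seq_iff`; the
condition on the last entry: `IsSucc (nat (min k (n + 1))) i ↔ i = nat (min k (n + 1) - 1)` for `1 ≤ k` (`isSucc_nat_iff`), `at_iff`.
`IsLegal .. s f` is equivalent to `fLegal .. s (A.Wn k) (A.Ln k) f`: `last_iff`, `E_w`, `isSucc_iff`, `at_iff`. Then `run_iff`,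
and `∀ n U, At f n U → ..` iff `∀ n U, Rel f n U → ..` for runs `f` (the domain is `w`, `IsFun.mem`).
-/

set_option autoImplicit false

namespace Pool.Agent.H83.T

open Pool.Agent.H86 Pool.Agent.H83.F

namespace TM

variable (A : TM)

theorem winTactic_iff {k : ℕ} (hk : 1 ≤ k) :
    WinTactic A.E A.P.w A.P.Tp k ↔ ∃ s, fWins (propStr A.E) A.P s (A.Wn k) (A.Ln k) := by
  have hstrat : ∀ s, IsStrat A.E A.P.Tp s (fun n => min k (n + 1)) ↔
      fStrat (propStr A.E) A.P s (A.Ln k) := by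
    intro s
    constructor
    · intro hs n l g hnl hseq
      obtain ⟨n0, rfl, rfl⟩ := (A.rel_L k n l).1 hnl
      obtain ⟨V, h1, h2, h3, h4, h5⟩ := hs n0 g ((A.seq_iff _ g).2 hseq)
      refine ⟨V, h1, h2, h3, h4, fun i U hi hU => ?_⟩
      obtain ⟨m, hm, rfl⟩ := (A.isSucc_nat_iff _ i).1 hi
      refine h5 U ((A.at_iff _ _ _).2 ?_)
      have hmm : min k (n0 + 1) - 1 = m := by omega
      simp only [hmm]
      exact hU
    · intro hs n g hseq
      obtain ⟨V, h1, h2, h3, h4, h5⟩ := hs (A.nat n) (A.nat (min k (n + 1))) g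
        ((A.rel_L k _ _).2 ⟨n, rfl, rfl⟩) ((A.seq_iff _ g).1 hseq)
      refine ⟨V, h1, h2, h3, h4, fun U hU => ?_⟩
      refine h5 (A.nat (min k (n + 1) - 1)) U ?_ ((A.at_iff _ _ _).1 hU)
      exact (A.isSucc_nat_iff _ _).2 ⟨min k (n + 1) - 1, by omega, rfl⟩
  have hlegal : ∀ s f, IsLegal A.E A.P.Tp s f (fun n => min k (n + 1)) ↔
      fLegal (propStr A.E) A.P s (A.Wn k) (A.Ln k) f := by
    intro s f
    constructor
    · intro h n n' l g V U hn hn' hl hseq hwin hr hf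
      obtain ⟨n0, rfl⟩ := (A.E_w n).1 hn
      have hn1 : n' = A.nat (n0 + 1) := (A.isSucc_iff n0 n').1 hn'
      subst hn1
      obtain ⟨n1, h1, rfl⟩ := (A.rel_L k _ l).1 hl
      have h2 : n0 = n1 := A.nat_inj h1
      subst h2
      exact h n0 g V U ((A.last_iff k n0 f g).2 ⟨hseq, hwin⟩) hr ((A.at_iff _ _ _).2 hf)
    · intro h n g V U hlast hr hf
      obtain ⟨hseq, hwin⟩ := (A.last_iff k n f g).1 hlast
      exact h (A.nat n) (A.nat (n + 1)) (A.nat (min k (n + 1))) g V U (A.nat_w n)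
        ((A.isSucc_iff n _).2 rfl) ((A.rel_L k _ _).2 ⟨n, rfl, rfl⟩) hseq hwin hr
        ((A.at_iff _ _ _).1 hf)
  have hmem : ∀ f n U, fSeq (propStr A.E) A.P A.P.w f → Rel A.E f n U → ∃ m, n = A.nat m := by
    intro f n U hf hr
    have h1 : IsFun A.E f A.P.w A.P.Tp := hf.1
    exact (A.E_w n).1 (IsFun.mem A.zf h1 hr).1
  constructor
  · rintro ⟨s, hs, hw⟩
    refine ⟨s, (hstrat s).1 hs, fun f hf hl => ?_⟩
    obtain ⟨x, hx⟩ := hw f ((A.run_iff f).2 hf) ((hlegal s f).2 hl)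
    refine ⟨x, fun n U hU => ?_⟩
    obtain ⟨m, rfl⟩ := hmem f n U hf hU
    exact hx m U ((A.at_iff _ _ _).2 hU)
  · rintro ⟨s, hs, hw⟩
    refine ⟨s, (hstrat s).2 hs, fun f hf hl => ?_⟩
    obtain ⟨x, hx⟩ := hw f ((A.run_iff f).1 hf) ((hlegal s f).1 hl)
    exact ⟨x, fun n U hU => hx (A.nat n) U ((A.at_iff _ _ _).1 hU)⟩

end TM

end Pool.Agent.H83.T
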