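import Pool.Agent.H83.T.Core
import Pool.Agent.H83.T.FiC
import Pool.Agent.H83.T.RpB
import Pool.Agent.H83.T.StD
import Pool.Agent.H83.T.SpC
import Pool.Agent.H83.T.TcA

/-!
# A Hausdorff space with a winning strategy but without winning `k`-tactics
-/

set_option autoImplicit false
set_option linter.unusedVariables false

namespace Pool.Agent.H83.T

open MeasureTheory Pool.Agent.H86 Pool.Agent.H86.Name Pool.Agent.H83.F

/-- No winning `k`-tactics. -/
theorem no_tactic (A : TG) {k : ℕ} (hk : 1 ≤ k) (s : A.G.M) :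
    ¬ fWins (propStr A.G.E) A.P s (A.Wn k) (A.Ln k) := by
  intro hs
  obtain ⟨XN, hX⟩ := A.G.named A.P.X
  obtain ⟨TN, hT⟩ := A.G.named A.P.Tp
  obtain ⟨sN, hsN⟩ := A.G.named s
  obtain ⟨n, hFo⟩ := truth_Fo A hX hT hsN hs
  obtain ⟨R, hR⟩ := exists_Rep hFo
  obtain ⟨al, hal, hfin⟩ := core (k := k) hk R
  let x₀ : ℕ → Name Q := fun i =>
    if i = 0 then hNm R k al else if i = 1 then sNm R k al else if i = 2 then aNm R k al
    else if i = 3 then gNm R k al else if i = 4 then eNm R k al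
    else nV (wnd k al (dw (i - 5)))
  obtain ⟨A', s', hq, hX', hT', hs', hw', hx⟩ := exists_TG1 hFo x₀
  have hv : ∀ h : List ℕ, ∃ v, A'.G.Nm v (nV (wnd k al h)) := by
    intro h
    obtain ⟨v, hv⟩ := hx (ew h + 5)
    refine ⟨v, ?_⟩
    have : x₀ (ew h + 5) = nV (wnd k al h) := by
      simp only [x₀]
      rw [if_neg (by omega), if_neg (by omega), if_neg (by omega), if_neg (by omega), if_neg (by omega)]
      rw [show ew h + 5 - 5 = ew h by omega, dw_ew]
    rwa [this] at hv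
  obtain ⟨pl⟩ := exists_Pl R k al A' (hx 0) (hx 1) (hx 2) (hx 3)
  obtain ⟨f, hf⟩ := exists_run pl
  have hrp : ∀ n, ∃ v, A'.tm.IsV v (wnd k al (pl.h n)) ∧
      fRp (propStr A'.G.E) A'.P s' v (A'.nat (pl.t n)) (A'.or (pl.g n)) := by
    intro n
    obtain ⟨v, hv⟩ := hv (pl.h n)
    refine ⟨v, A'.isV hv, ?_⟩
    rw [truth_Rp A' hX' hT' hs' hv _ (pl.gS n)]
    obtain ⟨m, hm⟩ := pl.evr n
    refine ⟨m, hR (wnd k al (pl.h n)) ?_ ?_ (pl.t n, pl.g n) (A'.G.qs m) ?_ hm⟩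
    · unfold wnd
      rw [List.length_map, List.length_range]
      omega
    · unfold wnd
      rw [List.length_map, List.length_range]
      exact min_le_left _ _
    · rw [← hq]
      exact A'.G.anti (Nat.zero_le _)
  have hl := legal hk pl hf hw' hal hrp
  exact no_point hk pl hf (hx 4) hfin (hw'.2 f hf.1 hl)

/-- There is a model of ZFC with a Hausdorff space in which player II has a winning strategy in the
Banach-Mazur game but no winning `k`-tactic for any `k`. -/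
theorem main : ∃ (M : Type) (E : M → M → Prop), IsZFCModel E ∧ ∃ w, IsOmega E w ∧
    (∀ x, E x w ↔ ∃ n, IsNum E n x) ∧ ∃ X T, IsTop E X T ∧ IsHaus E X T ∧
      WinStrategy E w T ∧ ∀ k, 1 ≤ k → ¬ WinTactic E w T k := by
  obtain ⟨A, -⟩ := exists_TG0 (fun _ => oName Q 0)
  refine ⟨A.G.M, A.G.E, A.G.zfc ⟨A.nat 0⟩, A.P.w, ⟨⟨A.nat 0, (A.E_w _).2 ⟨0, rfl⟩, fun z hz => ?_⟩,
    fun y hy => ?_, fun y hy => ?_⟩, fun x => ?_, A.P.X, A.P.Tp, A.tm.isTop, A.tm.isHaus,
    A.tm.winStrategy, ?_⟩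
  · obtain ⟨m, hm, _⟩ := (A.E_nat z 0).1 hz
    exact absurd hm (Nat.not_lt_zero m)
  · obtain ⟨n, rfl⟩ := (A.E_w y).1 hy
    exact ⟨A.nat (n + 1), (A.E_w _).2 ⟨n + 1, rfl⟩, (A.tm.isSucc_iff n _).2 rfl⟩
  · obtain ⟨n, rfl⟩ := (A.E_w y).1 hy
    rcases n with _ | n
    · left
      intro z hz
      obtain ⟨m, hm, _⟩ := (A.E_nat z 0).1 hz
      exact absurd hm (Nat.not_lt_zero m)
    · exact Or.inr ⟨A.nat n, (A.E_w _).2 ⟨n, rfl⟩, (A.tm.isSucc_iff n _).2 rfl⟩
  · rw [A.E_w]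
    exact exists_congr fun n => (A.tm.isNum_iff n x).symm
  · intro k hk hw
    obtain ⟨s, hs⟩ := (A.tm.winTactic_iff hk).1 hw
    exact no_tactic A hk s hs

end Pool.Agent.H83.T
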