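import Pool.Agent.H83.T.Base
import Pool.Agent.H83.F.Frc2

/-!
# TT-14: the forcing notion `Q` (job)

`Q` is the set of measurable subsets of `Pt` of positive measure, ordered by inclusion; `AE q A` means
that `q` is contained in `A` up to a null set.

PROOFS.
* `ae_of_dense`: if `mu (q \ A) > 0` then `q \ A` is a condition below `q`, it has an `s ≤ q \ A` with `s ⊆ A`,
  so `s = ∅`, contradiction. `dense_of_ae`: for `r ≤ q` the set `r ∩ A` has the measure of `r`.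
* `ae_iUnion`: otherwise `mu (q ∩ A i) = 0` for all `i`, so `mu q = 0`.
* `exists_fun`: by Zorn (`zorn_subset`) there is a maximal set `𝒜` of pairwise disjoint (as sets) conditions `r ≤ p`
  with `∃ v, (A v).holds r`. It is countable (`MeasureTheory.Measure.countable_meas_pos_of_disjoint_iUnion` for the
  family of the members of `𝒜`; finite measure). If `mu (p \ ⋃ 𝒜) > 0`, this set is a condition, and `h` gives
  `r` below it, contradicting maximality. Choose `v r` for `r ∈ 𝒜`, and let `F x = v r` if `x ∈ r ∈ 𝒜`, and `F x = v₀` if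
  `x ∉ ⋃ 𝒜`. `{x | F x = v}` is a countable union of members of `𝒜`, and possibly the complement of `⋃ 𝒜`. Let
  `q ≤ p` and `AE q {x | F x = v}`. `(A v).holds q` follows by `Om.reg`: for `q' ≤ q`, `q'` is up to a null set the union of the
  sets `q' ∩ r ∩ {F = v}`, `r ∈ 𝒜`, so for some `r` it has positive measure, hence `v r = v`, and
  `q' ∩ r` is a condition below `r` and `q'`, and `(A v).holds` by `Om.mono`.
-/

set_option autoImplicit false
set_option linter.unusedVariables false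

namespace Pool.Agent.H83.T

open MeasureTheory Pool.Agent.H86 Pool.Agent.H86.Name Pool.Agent.H83.F

/-- conditions -/
def Q : Type := {A : Set Pt // MeasurableSet A ∧ 0 < mu A}

instance : Preorder Q where
  le p q := p.1 ⊆ q.1
  le_refl p := subset_rfl
  le_trans p q r h1 h2 := Set.Subset.trans h1 h2

instance : OrderTop Q where
  top := ⟨Set.univ, MeasurableSet.univ, by simp⟩
  le_top p := Set.subset_univ _

/-- `q` is contained in `A` up to a null set -/
def AE (q : Q) (A : Set Pt) : Prop := mu (q.1 \ A) = 0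

theorem AE.mono {q r : Q} {A : Set Pt} (h : AE q A) (hr : r ≤ q) : AE r A :=
  measure_mono_null (Set.diff_subset_diff_left hr) h

theorem AE.superset {q : Q} {A B : Set Pt} (h : AE q A) (hAB : A ⊆ B) : AE q B :=
  measure_mono_null (Set.diff_subset_diff_right hAB) h

theorem AE.inter {q : Q} {A B : Set Pt} (h : AE q A) (h' : AE q B) : AE q (A ∩ B) := by
  unfold AE
  rw [Set.diff_inter]
  exact measure_union_null h h'

theorem AE.nonempty {q : Q} {A : Set Pt} (h : AE q A) : (q.1 ∩ A).Nonempty := by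
  by_contra hc
  rw [Set.not_nonempty_iff_eq_empty] at hc
  have h1 : q.1 \ A = q.1 := by
    rw [sdiff_eq_left, Set.disjoint_iff_inter_eq_empty]; exact hc
  unfold AE at h
  rw [h1] at h
  exact q.2.2.ne' h

theorem AE.of_ae {q : Q} {A : Set Pt} (h : ∀ᵐ x ∂mu, x ∈ A) : AE q A :=
  measure_mono_null (fun x hx => hx.2) h

theorem Q.nonempty (q : Q) : q.1.Nonempty := by
  by_contra hc
  rw [Set.not_nonempty_iff_eq_empty] at hc
  have h := q.2.2
  rw [hc, measure_empty] at h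
  exact lt_irrefl _ h

theorem ae_of_dense {q : Q} {A : Set Pt} (hA : MeasurableSet A) (h : ∀ r ≤ q, ∃ s ≤ r, s.1 ⊆ A) :
    AE q A := by
  by_contra hc
  have hpos : 0 < mu (q.1 \ A) := pos_iff_ne_zero.2 hc
  obtain ⟨s, hs, hsA⟩ := h ⟨q.1 \ A, q.2.1.diff hA, hpos⟩ Set.diff_subset
  obtain ⟨x, hx⟩ := s.nonempty
  exact (hs hx).2 (hsA hx)

theorem dense_of_ae {q : Q} {A : Set Pt} (hA : MeasurableSet A) (h : AE q A) :
    ∀ r ≤ q, ∃ s ≤ r, s.1 ⊆ A := by
  intro r hr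
  have h1 : mu (r.1 ∩ A) = mu r.1 := measure_inter_conull' (h.mono hr)
  exact ⟨⟨r.1 ∩ A, r.2.1.inter hA, by rw [h1]; exact r.2.2⟩, Set.inter_subset_left,
    Set.inter_subset_right⟩

theorem ae_iUnion {ι : Type} [Countable ι] {q : Q} {A : ι → Set Pt} (hA : ∀ i, MeasurableSet (A i))
    (h : AE q (⋃ i, A i)) : ∃ r ≤ q, ∃ i, r.1 ⊆ A i := by
  by_contra hc
  push Not at hc
  have h0 : ∀ i, mu (q.1 ∩ A i) = 0 := by
    intro i
    by_contra hne
    exact hc ⟨q.1 ∩ A i, q.2.1.inter (hA i), pos_iff_ne_zero.2 hne⟩ Set.inter_subset_left i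
      Set.inter_subset_right
  have h1 : mu (⋃ i, q.1 ∩ A i) = 0 := measure_iUnion_null h0
  have h2 : q.1 ⊆ (q.1 \ ⋃ i, A i) ∪ ⋃ i, q.1 ∩ A i := by
    intro x hx
    by_cases hxA : x ∈ ⋃ i, A i
    · right
      rw [← Set.inter_iUnion]
      exact ⟨hx, hxA⟩
    · exact Or.inl ⟨hx, hxA⟩
  have h3 : mu q.1 = 0 := measure_mono_null h2 (measure_union_null h h1)
  exact q.2.2.ne' h3

theorem exists_fun {V : Type} [Nonempty V] (A : V → Om Q) (p : Q)
    (h : ∀ q ≤ p, ∃ r ≤ q, ∃ v, (A v).holds r) :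
    ∃ F : Pt → V, (∀ v, MeasurableSet {x | F x = v}) ∧ (Set.range F).Countable ∧
      ∀ v, ∀ q ≤ p, AE q {x | F x = v} → (A v).holds q := by
  classical
  let S : Set (Set Q) := {𝒜 | (∀ r ∈ 𝒜, r ≤ p ∧ ∃ v, (A v).holds r) ∧
    ∀ r ∈ 𝒜, ∀ s ∈ 𝒜, r ≠ s → Disjoint r.1 s.1}
  obtain ⟨𝒜, h𝒜⟩ := zorn_subset S (by
    intro c hcS hc
    refine ⟨⋃₀ c, ⟨?_, ?_⟩, fun s hs => Set.subset_sUnion_of_mem hs⟩
    · rintro r ⟨s, hs, hr⟩
      exact (hcS hs).1 r hr
    · rintro r ⟨s, hs, hr⟩ r' ⟨s', hs', hr'⟩ hne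
      rcases hc.total hs hs' with h1 | h1
      · exact (hcS hs').2 r (h1 hr) r' hr' hne
      · exact (hcS hs).2 r hr r' (h1 hr') hne)
  have hS1 : ∀ r ∈ 𝒜, r ≤ p ∧ ∃ v, (A v).holds r := h𝒜.1.1
  have hS2 : ∀ r ∈ 𝒜, ∀ s ∈ 𝒜, r ≠ s → Disjoint r.1 s.1 := h𝒜.1.2
  have hcount : 𝒜.Countable := by
    have h1 := MeasureTheory.Measure.countable_meas_pos_of_disjoint_iUnion (μ := mu)
      (As := fun r : 𝒜 => r.1.1) (fun r => r.1.2.1)
      (fun r s hrs => hS2 r.1 r.2 s.1 s.2 fun he => hrs (Subtype.ext he))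
    have h2 : {i : 𝒜 | 0 < mu i.1.1} = Set.univ := by
      ext i
      simp only [Set.mem_ofPred_eq, Set.mem_univ, iff_true]
      exact i.1.2.2
    rw [h2, Set.countable_univ_iff] at h1
    exact Set.countable_coe_iff.1 h1
  haveI : Countable 𝒜 := hcount.to_subtype
  have hmU : MeasurableSet (⋃ r : 𝒜, r.1.1) := MeasurableSet.iUnion fun r => r.1.2.1
  have hnull : mu (p.1 \ ⋃ r : 𝒜, r.1.1) = 0 := by
    by_contra hne
    obtain ⟨r, hr, v, hv⟩ := h ⟨p.1 \ ⋃ r : 𝒜, r.1.1, p.2.1.diff hmU, pos_iff_ne_zero.2 hne⟩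
      Set.diff_subset
    have hdis : ∀ s ∈ 𝒜, Disjoint r.1 s.1 := by
      intro s hs
      rw [Set.disjoint_left]
      intro x hx hxs
      exact (hr hx).2 (Set.mem_iUnion.2 ⟨⟨s, hs⟩, hxs⟩)
    have hrn : r ∉ 𝒜 := by
      intro hr'
      obtain ⟨x, hx⟩ := r.nonempty
      exact Set.disjoint_left.1 (hdis r hr') hx hx
    have hins : insert r 𝒜 ∈ S := by
      refine ⟨?_, ?_⟩
      · rintro s (rfl | hs)
        · exact ⟨fun x hx => (hr hx).1, v, hv⟩
        · exact hS1 s hs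
      · rintro s (rfl | hs) t (rfl | ht) hne'
        · exact absurd rfl hne'
        · exact hdis t ht
        · exact (hdis s hs).symm
        · exact hS2 s hs t ht hne'
    exact hrn (h𝒜.2 hins (Set.subset_insert r 𝒜) (Set.mem_insert r 𝒜))
  choose! v hv using fun r (hr : r ∈ 𝒜) => (hS1 r hr).2
  obtain ⟨v₀⟩ := ‹Nonempty V›
  let F : Pt → V := fun x => if hx : ∃ r ∈ 𝒜, x ∈ r.1 then v hx.choose else v₀
  have hF1 : ∀ r ∈ 𝒜, ∀ x ∈ r.1, F x = v r := by
    intro r hr x hx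
    have hex : ∃ r ∈ 𝒜, x ∈ r.1 := ⟨r, hr, hx⟩
    have h1 : F x = v hex.choose := dif_pos hex
    rw [h1]
    congr 1
    by_contra hne
    exact Set.disjoint_left.1 (hS2 _ hex.choose_spec.1 r hr hne) hex.choose_spec.2 hx
  have hF2 : ∀ x, (¬ ∃ r ∈ 𝒜, x ∈ r.1) → F x = v₀ := fun x hx => dif_neg hx
  refine ⟨F, ?_, ?_, ?_⟩
  · intro w
    have heq : {x | F x = w} = (⋃ r : 𝒜, {x | x ∈ r.1.1 ∧ v r.1 = w}) ∪
        {x | x ∈ (⋃ r : 𝒜, r.1.1)ᶜ ∧ v₀ = w} := by
      ext x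
      simp only [Set.mem_ofPred_eq, Set.mem_union, Set.mem_iUnion, Set.mem_compl_iff]
      by_cases hx : ∃ r ∈ 𝒜, x ∈ r.1
      · obtain ⟨r, hr, hxr⟩ := hx
        rw [hF1 r hr x hxr]
        constructor
        · intro hw
          exact Or.inl ⟨⟨r, hr⟩, hxr, hw⟩
        · rintro (⟨s, hxs, hw⟩ | ⟨hn, -⟩)
          · rw [← hF1 r hr x hxr, hF1 s.1 s.2 x hxs]
            exact hw
          · exact absurd ⟨⟨r, hr⟩, hxr⟩ hn
      · rw [hF2 x hx]
        constructor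
        · intro hw
          exact Or.inr ⟨fun ⟨r, hr⟩ => hx ⟨r.1, r.2, hr⟩, hw⟩
        · rintro (⟨s, hxs, hw⟩ | ⟨-, hw⟩)
          · exact absurd ⟨s.1, s.2, hxs⟩ hx
          · exact hw
    rw [heq]
    refine MeasurableSet.union (MeasurableSet.iUnion fun r => ?_) ?_
    · exact r.1.2.1.inter (MeasurableSet.const _)
    · exact hmU.compl.inter (MeasurableSet.const _)
  · refine Set.Countable.mono ?_ ((hcount.image v).insert v₀)
    rintro _ ⟨x, rfl⟩
    by_cases hx : ∃ r ∈ 𝒜, x ∈ r.1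
    · obtain ⟨r, hr, hxr⟩ := hx
      exact Or.inr ⟨r, hr, (hF1 r hr x hxr).symm⟩
    · exact Or.inl (hF2 x hx)
  · intro w q hq hqF
    refine (A w).reg ?_
    intro q' hq'
    have h1 : AE q' (⋃ r : 𝒜, r.1.1) :=
      measure_mono_null (Set.diff_subset_diff_left (hq'.trans hq)) hnull
    have h2 : AE q' ((⋃ r : 𝒜, r.1.1) ∩ {x | F x = w}) := h1.inter (hqF.mono hq')
    have h3 : AE q' (⋃ r : 𝒜, (r.1.1 ∩ {x | v r.1 = w})) := by
      refine h2.superset ?_
      rintro x ⟨hx, hxw⟩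
      obtain ⟨r, hr⟩ := Set.mem_iUnion.1 hx
      refine Set.mem_iUnion.2 ⟨r, hr, ?_⟩
      show v r.1 = w
      rw [← hF1 r.1 r.2 x hr]
      exact hxw
    obtain ⟨s, hs, r, hr⟩ := ae_iUnion
      (fun r : 𝒜 => r.1.2.1.inter (MeasurableSet.const (v r.1 = w))) h3
    obtain ⟨x, hx⟩ := s.nonempty
    have hvw : v r.1 = w := (hr hx).2
    refine ⟨s, hs, ?_⟩
    rw [← hvw]
    exact (A (v r.1)).mono (fun y hy => (hr hy).1) (hv r.1 r.2)

end Pool.Agent.H83.T
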