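import Pool.Agent.H83.T.NmA
import Pool.Agent.H83.T.Fm

/-!
# TT-15: names of relations and their values in generic models (job)

`gN A B c`: the name of the set of pairs `(A i, B i)` with the condition `c i`.
`G.Ev A`: some condition of the generic sequence is contained in `A` up to a null set.

PROOFS.
* `RR_gN`: unfold `gN`, `fmem_relN`; the index is `⟨i, _⟩`, and a condition `r ⊆ c i` gives `0 < mu (c i)`.
* `op_iff`: truth lemma (`GModel.tr`) for the formula `fOp codeStr 0 1 2 3 10` and `holds_fRel`, `holds_fPr`: `(fOp (FS Q) F X Y Z).holds p` iff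
  `RR F (opair X Y) Z p` (use `RR_congr` and `Om.reg`; compare `rel_iff` in `Pool/Agent/H83/F/Frc2.lean`).
* `fN_val`: the name `fN A b F` of the function `A i ↦ b (F i x)` (`i ∈ ι`). Existence of `y`: the formula `∃ y ∈ θ, (x, y) ∈ f` is
  forced (for a name `θ` of an ordinal above all `b v`): for any condition `q` the sets `{x | F i x = v}`, `v ∈ range (F i)`,
  cover `q`, so some `r ≤ q` is contained in one of them (`ae_iUnion`), and then `r` forces `(A i, b v) ∈ f`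
  (`RR_gN`). By the truth lemma there is `y` in the model, `E y θ`, `Rel f x y`, by `mem_o` `y` is named `oName β`, and
  `RR f (A i) (oName β) (qs n)` (`rel_iff`); hence (by `RR_gN`) `β = b v` for some `v`, and then `AE (qs n) {x | F i x = v}` by
  `ae_of_dense`, `hA` and injectivity of `b`. Uniqueness: if `Rel f x y'`, then `y'` is forced to be in `θ` (by `RR_gN`), so it is
  named `oName (b v')` in the same way, with `Ev G {x | F i x = v'}`, and `v' = v` by `Ev.inter`, `Ev.nonempty`; use `o_eq`.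
-/

set_option autoImplicit false
set_option linter.unusedVariables false

namespace Pool.Agent.H83.T

open MeasureTheory Pool.Agent.H86 Pool.Agent.H86.Name Pool.Agent.H83.F

/-- name of a relation -/
def gN {ι : Type} (A B : ι → Name Q) (c : ι → Set Pt) (hc : ∀ i, MeasurableSet (c i)) : Name Q :=
  relN {i : ι // 0 < mu (c i)} (fun i => A i.1) (fun i => B i.1) (fun i => ⟨c i.1, hc i.1, i.2⟩)

theorem RR_gN {ι : Type} {A B : ι → Name Q} {c : ι → Set Pt} {hc : ∀ i, MeasurableSet (c i)}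
    {X Y : Name Q} {p : Q} :
    RR (gN A B c hc) X Y p ↔ ∀ q ≤ p, ∃ r ≤ q, ∃ i, r.1 ⊆ c i ∧ feq X (A i) r ∧ feq Y (B i) r := by
  have h0 := fmem_relN (ι := {i : ι // 0 < mu (c i)}) (a := fun i => A i.1) (b := fun i => B i.1)
    (c := fun i => (⟨c i.1, hc i.1, i.2⟩ : Q)) (X := X) (Y := Y) (p := p)
  refine Iff.trans h0 ?_
  constructor
  · intro h q hq
    obtain ⟨r, hr, i, h1, h2, h3⟩ := h q hq
    exact ⟨r, hr, i.1, h1, h2, h3⟩
  · intro h q hq
    obtain ⟨r, hr, i, h1, h2, h3⟩ := h q hq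
    exact ⟨r, hr, ⟨i, r.2.2.trans_le (measure_mono h1)⟩, h1, h2, h3⟩

/-- name of a function given by random variables -/
noncomputable def fN {ι V : Type} (A : ι → Name Q) (b : V → Ordinal.{0}) (F : ι → Pt → V)
    (hF : ∀ i v, MeasurableSet {x | F i x = v}) : Name Q :=
  gN (fun i : ι × V => A i.1) (fun i => oName Q (b i.2)) (fun i => {x | F i.1 x = i.2})
    (fun i => hF i.1 i.2)

/-- name of a ground model relation -/
def cN {ι : Type} (A B : ι → Name Q) : Name Q :=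
  gN A B (fun _ => Set.univ) (fun _ => MeasurableSet.univ)

/-- The generic model decides that the random point is in `A`. -/
def Ev (G : GModel Q) (A : Set Pt) : Prop := ∃ n, AE (G.qs n) A

section Ev

variable {G : GModel Q} {A B : Set Pt}

theorem Ev.mono (h : Ev G A) (hAB : A ⊆ B) : Ev G B := by
  obtain ⟨n, hn⟩ := h
  exact ⟨n, hn.superset hAB⟩

theorem Ev.inter (h : Ev G A) (h' : Ev G B) : Ev G (A ∩ B) := by
  obtain ⟨m, hm⟩ := h
  obtain ⟨n, hn⟩ := h'
  exact ⟨max m n, (hm.mono (G.anti (le_max_left _ _))).inter (hn.mono (G.anti (le_max_right _ _)))⟩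

theorem Ev.nonempty (h : Ev G A) : A.Nonempty := by
  obtain ⟨n, hn⟩ := h
  exact hn.nonempty.mono Set.inter_subset_right

theorem Ev.of_ae (h : ∀ᵐ x ∂mu, x ∈ A) : Ev G A := ⟨0, AE.of_ae h⟩

end Ev

theorem op_iff {G : GModel Q} {f x y z : G.M} {F X Y Z : Name Q} (hf : G.Nm f F) (hx : G.Nm x X)
    (hy : G.Nm y Y) (hz : G.Nm z Z) :
    Op G.E f x y z ↔ ∃ n, RR F (opair X Y) Z (G.qs n) := by
  have h1 := G.tr (fOp codeStr 0 1 2 3 10) (G.el hf) [G.el hf, G.el hx, G.el hy, G.el hz]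
  have h2 : Op G.E f x y z ↔ ∃ n, (fOp (FS Q) F X Y Z).holds (G.qs n) := h1
  rw [h2]
  refine exists_congr fun n => ?_
  constructor
  · intro h
    apply fmem_reg
    intro q hq
    obtain ⟨r, hr, U, h3, h4⟩ := h q hq
    have h3' := holds_fPr.1 h3
    have h4' := holds_fRel.1 h4
    exact ⟨r, hr, RR_congr (feq_refl _ _) h3' (feq_refl _ _) h4'⟩
  · intro h q hq
    exact ⟨q, le_rfl, opair X Y, holds_fPr.2 (feq_refl _ _), holds_fRel.2 (fmem_mono hq h)⟩

/-- pairs in the model -/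
theorem pair_iff {G : GModel Q} {x y z : G.M} {X Y Z : Name Q} (hx : G.Nm x X)
    (hy : G.Nm y Y) (hz : G.Nm z Z) :
    IsPair G.E z x y ↔ ∃ n, feq Z (opair X Y) (G.qs n) := by
  have h1 := G.tr (fPr codeStr 2 0 1 10) (G.el hx) [G.el hx, G.el hy, G.el hz]
  have h2 : IsPair G.E z x y ↔ ∃ n, (fPr (FS Q) Z X Y).holds (G.qs n) := h1
  rw [h2]
  exact exists_congr fun n => holds_fPr

theorem fN_val {ι V : Type} {A : ι → Name Q} {b : V → Ordinal.{0}} {F : ι → Pt → V}
    {hF : ∀ i v, MeasurableSet {x | F i x = v}} (hA : ∀ i j p, feq (A i) (A j) p → i = j)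
    (hb : Function.Injective b) (hc : ∀ i, (Set.range (F i)).Countable) {θ : Ordinal.{0}}
    (hθ : ∀ v, b v < θ) {G : GModel Q} {f x t : G.M} (hf : G.Nm f (fN A b F hF)) {i : ι}
    (hx : G.Nm x (A i)) (ht : G.Nm t (oName Q θ)) :
    ∃ v y, G.Nm y (oName Q (b v)) ∧ Ev G {x | F i x = v} ∧ ∀ y', Rel G.E f x y' ↔ y' = y := by
  -- a relation with an ordinal name decides the value
  have key : ∀ (β : Ordinal.{0}) (n : ℕ), RR (fN A b F hF) (A i) (oName Q β) (G.qs n) →
      ∃ v, b v = β ∧ AE (G.qs n) {x | F i x = v} := by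
    intro β n h
    have h' := RR_gN.1 h
    obtain ⟨r, hr, ⟨j, v⟩, h1, h2, h3⟩ := h' (G.qs n) le_rfl
    have hv : β = b v := feq_oName_iff.1 h3
    refine ⟨v, hv.symm, ae_of_dense (hF i v) fun q hq => ?_⟩
    obtain ⟨s, hs, ⟨k, w⟩, g1, g2, g3⟩ := h' q hq
    have hk : i = k := hA i k s g2
    have hw : β = b w := feq_oName_iff.1 g3
    have hwv : w = v := hb (hw.symm.trans hv)
    subst hk
    subst hwv
    exact ⟨s, hs, g1⟩
  -- existence
  have hex : ∃ y, G.E y t ∧ Rel G.E f x y := by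
    have h1 := G.tr ((codeStr.ex fun y => codeStr.and (codeStr.mem y 0) (fRel codeStr 1 2 y)) 10)
      (G.el hf) [G.el ht, G.el hf, G.el hx]
    have h2 : (∃ y, G.E y t ∧ Rel G.E f x y) ↔ ∃ n,
        ((FS Q).ex fun y => (FS Q).and ((FS Q).mem y (oName Q θ))
          (fRel (FS Q) (fN A b F hF) (A i) y)).holds (G.qs n) := h1
    rw [h2]
    refine ⟨0, fun q hq => ?_⟩
    have : Countable (Set.range (F i)) := (hc i).to_subtype
    have hcov : AE q (⋃ v : Set.range (F i), {x | F i x = v.1}) := by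
      apply AE.of_ae
      refine Filter.Eventually.of_forall fun x => ?_
      exact Set.mem_iUnion.2 ⟨⟨F i x, x, rfl⟩, rfl⟩
    obtain ⟨r, hr, v, hv⟩ := ae_iUnion (fun v : Set.range (F i) => hF i v.1) hcov
    refine ⟨r, hr, oName Q (b v.1), ?_, ?_⟩
    · exact fmem_oName_iff.2 (hθ v.1)
    · exact holds_fRel.2 (RR_gN.2 fun q' hq' => ⟨q', le_rfl, (i, v.1),
        Set.Subset.trans hq' hv, feq_refl _ _, feq_refl _ _⟩)
  obtain ⟨y, hyt, hxy⟩ := hex
  obtain ⟨β, hβ, hy⟩ := (GModel.mem_o ht).1 hyt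
  obtain ⟨n, hn⟩ := (GModel.rel_iff hf hx hy).1 hxy
  obtain ⟨v, hv, hAE⟩ := key β n hn
  refine ⟨v, y, by rw [hv]; exact hy, ⟨n, hAE⟩, fun y' => ⟨fun h => ?_, fun h => by rw [h]; exact hxy⟩⟩
  obtain ⟨Y', hY'⟩ := G.named y'
  obtain ⟨m, hm⟩ := (GModel.rel_iff hf hx hY').1 h
  have hmem : fmem Y' (oName Q θ) (G.qs m) := by
    apply fmem_reg
    intro q hq
    obtain ⟨r, hr, ⟨j, w⟩, h1, h2, h3⟩ := RR_gN.1 hm q hq
    exact ⟨r, hr, fmem_congr_left (feq_symm h3) (fmem_oName_iff.2 (hθ w))⟩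
  obtain ⟨β', hβ', hy'⟩ := G.ord hY' hmem
  obtain ⟨m', hm'⟩ := (GModel.rel_iff hf hx hy').1 h
  obtain ⟨v', hv', hAE'⟩ := key β' m' hm'
  have hE : Ev G ({x | F i x = v} ∩ {x | F i x = v'}) := Ev.inter ⟨n, hAE⟩ ⟨m', hAE'⟩
  obtain ⟨x₀, hx₀, hx₀'⟩ := hE.nonempty
  have hvv : v = v' := (show F i x₀ = v from hx₀).symm.trans hx₀'
  exact (GModel.o_eq hy' hy).2 (by rw [← hv', ← hv, hvv])

end Pool.Agent.H83.T
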