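import Pool.Agent.H83.T.Base
import Pool.Agent.H83.T.Fm

/-!
# The interface for the work inside the model

`TM`: a model of ZF with standard natural numbers `nat n`, an ordinal `P.kp` with the elements `or b`
(`b ∈ S`), sequences `y b : ℕ → ℕ` (`b ∈ S`) given by `P.Y`, the decoding function `P.D` of finite sequences,
the function `J (c, i) = (length of the sequence c) + i`, the window functions `Wn k`, `Ln k`, and the
space `P.X` with its topology `P.Tp`.
-/

set_option autoImplicit false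

namespace Pool.Agent.H83.T

open Pool.Agent.H86 Pool.Agent.H83.F

/-- models with the space -/
structure TM where
  /-- the universe -/
  M : Type
  /-- membership -/
  E : M → M → Prop
  zf : IsZFModel E
  /-- parameters -/
  P : Pr M
  /-- length plus `i` -/
  J : M
  /-- windows -/
  Wn : ℕ → M
  /-- lengths of windows -/
  Ln : ℕ → M
  /-- natural numbers -/
  nat : ℕ → M
  /-- ordinals -/
  S : Set K
  /-- ordinals -/
  or : K → M
  /-- the sequences -/
  y : K → ℕ → ℕ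
  E_w : ∀ x, E x P.w ↔ ∃ n, x = nat n
  E_nat : ∀ x n, E x (nat n) ↔ ∃ m < n, x = nat m
  E_kp : ∀ x, E x P.kp ↔ ∃ b ∈ S, x = or b
  E_or : ∀ a ∈ S, ∀ b ∈ S, (E (or a) (or b) ↔ a < b)
  Sne : S.Nonempty
  op_Y : ∀ b ∈ S, ∀ n z, Op E P.Y (or b) (nat n) z ↔ z = nat (y b n)
  op_D : ∀ c u z, Op E P.D (nat c) u z ↔ ∃ i < (dw c).length, u = nat i ∧ z = nat ((dw c).getD i 0)
  op_J : ∀ c i z, Op E J (nat c) (nat i) z ↔ z = nat ((dw c).length + i)
  op_W : ∀ k n u z, Op E (Wn k) (nat n) u z ↔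
    ∃ i < min k (n + 1), u = nat i ∧ z = nat (n + 1 - min k (n + 1) + i)
  rel_L : ∀ k x l, Rel E (Ln k) x l ↔ ∃ n, x = nat n ∧ l = nat (min k (n + 1))
  sp : fSp (propStr E) P

namespace TM

variable (A : TM)

theorem nat_w (n : ℕ) : A.E (A.nat n) A.P.w := (A.E_w _).2 ⟨n, rfl⟩

theorem or_kp {b : K} (hb : b ∈ A.S) : A.E (A.or b) A.P.kp := (A.E_kp _).2 ⟨b, hb, rfl⟩

theorem nat_inj {m n : ℕ} (h : A.nat m = A.nat n) : m = n := by
  rcases lt_trichotomy m n with h1 | h1 | h1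
  · exact (not_mem_self A.zf (A.nat m) (by
      have : A.E (A.nat m) (A.nat n) := (A.E_nat _ _).2 ⟨m, h1, rfl⟩
      rwa [← h] at this)).elim
  · exact h1
  · exact (not_mem_self A.zf (A.nat n) (by
      have : A.E (A.nat n) (A.nat m) := (A.E_nat _ _).2 ⟨n, h1, rfl⟩
      rwa [h] at this)).elim

theorem or_inj {a b : K} (ha : a ∈ A.S) (hb : b ∈ A.S) (h : A.or a = A.or b) : a = b := by
  rcases lt_trichotomy a b with h1 | h1 | h1
  · have h2 := (A.E_or a ha b hb).2 h1
    rw [h] at h2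
    exact (not_mem_self A.zf _ h2).elim
  · exact h1
  · have h2 := (A.E_or b hb a ha).2 h1
    rw [h] at h2
    exact (not_mem_self A.zf _ h2).elim

/-- `r` is the function `f` -/
def Fv (r : A.M) (f : ℕ → ℕ) : Prop :=
  IsFun A.E r A.P.w A.P.w ∧ ∀ n z, Rel A.E r (A.nat n) z ↔ z = A.nat (f n)

/-- `f` hits the sequence `b` infinitely often -/
def Hi (b : K) (f : ℕ → ℕ) : Prop := {n | f n = A.y b n}.Infinite

/-- the basic set given by the word `c` and the ordinal `a`, as a property of functions -/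
def Bas (c : ℕ) (a : K) (f : ℕ → ℕ) : Prop :=
  (∀ i < (dw c).length, f i = (dw c).getD i 0) ∧ ∃ b ∈ A.S, a ≤ b ∧ A.Hi b f

/-- `U` is the basic set given by `c` and `a` -/
def IsBas (U : A.M) (c : ℕ) (a : K) : Prop :=
  ∀ r, A.E r U ↔ (A.E r A.P.X ∧ ∀ f, A.Fv r f → A.Bas c a f)

/-- `v` is the window `w` -/
def IsV (v : A.M) (w : List (ℕ × K)) : Prop := (∀ p ∈ w, p.2 ∈ A.S) ∧
  ∀ u p, Rel A.E v u p ↔ ∃ i c b, w[i]? = some (c, b) ∧ u = A.nat i ∧
    IsPair A.E p (A.nat c) (A.or b)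

end TM

end Pool.Agent.H83.T
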