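import Pool.Agent.H83.T.NmB
import Pool.Agent.H83.T.TM

/-!
# The basic names and generic models with the space
-/

set_option autoImplicit false
set_option linter.unusedVariables false

namespace Pool.Agent.H83.T

open MeasureTheory Pool.Agent.H86 Pool.Agent.H86.Name Pool.Agent.H83.F

/-- name of the ordinal of an element of `K` -/
noncomputable abbrev kN (b : K) : Name Q := oName Q (oK b)

/-- name of a natural number -/
noncomputable abbrev nN (n : ℕ) : Name Q := oName Q (n : Ordinal.{0})

theorem meas_yv (b : K) (n m : ℕ) : MeasurableSet {x : Pt | yv (x b) n = m} :=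
  measurableSet_eq_fun ((measurable_yv n).comp (measurable_pi_apply b)) measurable_const

/-- name of the function `(b, n) ↦ yv (x b) n` -/
noncomputable def nY : Name Q :=
  fN (fun i : K × ℕ => opair (kN i.1) (nN i.2)) (fun m : ℕ => (m : Ordinal.{0}))
    (fun i x => yv (x i.1) i.2) (fun i m => meas_yv i.1 i.2 m)

/-- name of the decoding function -/
noncomputable def nD : Name Q :=
  cN (ι := {p : ℕ × ℕ // p.2 < (dw p.1).length}) (fun p => opair (nN p.1.1) (nN p.1.2))
    (fun p => nN ((dw p.1.1).getD p.1.2 0))

/-- name of the function `(c, i) ↦ (dw c).length + i` -/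
noncomputable def nJ : Name Q :=
  cN (ι := ℕ × ℕ) (fun p => opair (nN p.1) (nN p.2)) (fun p => nN ((dw p.1).length + p.2))

/-- name of the window function -/
noncomputable def nW (k : ℕ) : Name Q :=
  cN (ι := {p : ℕ × ℕ // p.2 < min k (p.1 + 1)}) (fun p => opair (nN p.1.1) (nN p.1.2))
    (fun p => nN (p.1.1 + 1 - min k (p.1.1 + 1) + p.1.2))

/-- name of the function of the lengths of the windows -/
noncomputable def nL (k : ℕ) : Name Q := cN (fun n : ℕ => nN n) (fun n => nN (min k (n + 1)))

/-- name of a window -/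
noncomputable def nV (w : List (ℕ × K)) : Name Q :=
  cN (ι := {p : ℕ × ℕ × K // w[p.1]? = some p.2}) (fun p => nN p.1.1)
    (fun p => opair (nN p.1.2.1) (kN p.1.2.2))

/-- a generic model with the basic elements -/
structure TG where
  /-- the generic model -/
  G : GModel Q
  /-- parameters -/
  P : Pr G.M
  /-- length plus `i` -/
  J : G.M
  /-- windows -/
  Wn : ℕ → G.M
  /-- lengths of windows -/
  Ln : ℕ → G.M
  /-- natural numbers -/
  nat : ℕ → G.M
  hnat : ∀ n, G.Nm (nat n) (nN n)
  hw : G.Nm P.w (oName Q Ordinal.omega0)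
  hkp : G.Nm P.kp (oName Q kap.ord)
  hY : G.Nm P.Y nY
  hD : G.Nm P.D nD
  hJ : G.Nm J nJ
  hWn : ∀ k, G.Nm (Wn k) (nW k)
  hLn : ∀ k, G.Nm (Ln k) (nL k)
  sp : fSp (propStr G.E) P

namespace TG

variable (A : TG)

/-- the ordinals below `(2^ω)⁺` in the model -/
def S : Set K := {b | ∃ m, A.G.Nm m (kN b)}

open Classical in
/-- the element of the model for `b ∈ S` -/
noncomputable def or (b : K) : A.G.M := if h : b ∈ A.S then Classical.choose h else A.nat 0

theorem or_spec {b : K} (h : b ∈ A.S) : A.G.Nm (A.or b) (kN b) := by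
  unfold or
  rw [dif_pos h]
  exact Classical.choose_spec h

open Classical in
/-- the decided values of the random sequences -/
noncomputable def y (b : K) (n : ℕ) : ℕ :=
  if h : ∃ m, Ev A.G {x | yv (x b) n = m} then Classical.choose h else 0

end TG

end Pool.Agent.H83.T
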