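import Pool.Agent.H83.T.NmD1

/-!
# TT-26c: the basic functions in a generic model (job)

PROOFS.
* `y_Ev`, `op_Y`: `fN_val` for the name `nY` (`hA` by `feq_opair_iff`, `feq_oName_iff`, `oK_inj`; `θ = ω`, `t = P.w`; the range of a
  function with values in `ℕ` is countable) and the pair `x = (or b, nat n)`: it exists in the model (`exists_pair` for the ZF model `A.G.zfc`) and
  is named `opair (kN b) (nN n)` by `pair_iff` and `G.congr` (`or_spec`). This gives `v` with `Ev A.G {x | yv (x b) n = v}`, so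
  `TG.y` is defined by the positive case, and two decided values agree by `Ev.inter`, `Ev.nonempty`. `Op E f x y z` is
  `∃ u, IsPair E u x y ∧ Rel E f u z` and pairs are unique (`pair_unique`).
* `op_D`, `op_J`, `op_W`: `cN2`. `rel_L`: `cN1`.
-/

set_option autoImplicit false
set_option linter.unusedVariables false

namespace Pool.Agent.H83.T

open MeasureTheory Pool.Agent.H86 Pool.Agent.H86.Name Pool.Agent.H83.F

namespace TG

variable (A : TG)

theorem zf' : IsZFModel A.G.E := (GModel.zfc A.G ⟨A.P.w⟩).toIsZFModel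

/-- the value of the random sequence is decided, and it is the value of the function `Y` -/
theorem key_Y (b : K) (hb : b ∈ A.S) (n : ℕ) : ∃ v, Ev A.G {x | yv (x b) n = v} ∧
    ∀ z, Op A.G.E A.P.Y (A.or b) (A.nat n) z ↔ z = A.nat v := by
  obtain ⟨u, hu⟩ := exists_pair A.zf' (A.or b) (A.nat n)
  obtain ⟨U, hU⟩ := A.G.named u
  obtain ⟨m, hm⟩ := (pair_iff (A.or_spec hb) (A.hnat n) hU).1 hu
  have hu' : A.G.Nm u (opair (kN b) (nN n)) := A.G.congr hU hm
  have hA : ∀ (i j : K × ℕ) (p : Q),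
      feq (opair (kN i.1) (nN i.2)) (opair (kN j.1) (nN j.2)) p → i = j := by
    intro i j p h
    obtain ⟨h1, h2⟩ := feq_opair_iff.1 h
    exact Prod.ext (oK_inj (feq_oName_iff.1 h1)) (Nat.cast_inj.1 (feq_oName_iff.1 h2))
  have hinj : Function.Injective (fun m : ℕ => (m : Ordinal.{0})) := fun a b h => Nat.cast_inj.1 h
  obtain ⟨v, y, hy, hEv, hyy⟩ := fN_val (ι := K × ℕ) (V := ℕ)
    (A := fun i : K × ℕ => opair (kN i.1) (nN i.2)) (b := fun m : ℕ => (m : Ordinal.{0}))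
    (F := fun i x => yv (x i.1) i.2) (hF := fun i m => meas_yv i.1 i.2 m) hA hinj
    (fun i => Set.to_countable _) (θ := Ordinal.omega0) (fun v => Ordinal.natCast_lt_omega0 v)
    (G := A.G) A.hY (i := (b, n)) hu' A.hw
  have hyn : y = A.nat v := (GModel.o_eq hy (A.hnat v)).2 rfl
  refine ⟨v, hEv, fun z => ?_⟩
  constructor
  · rintro ⟨u', h1, h2⟩
    have h3 : u' = u := pair_unique A.zf' h1 hu
    rw [h3] at h2
    rw [← hyn]
    exact (hyy z).1 h2
  · intro h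
    exact ⟨u, hu, (hyy z).2 (by rw [hyn]; exact h)⟩

theorem y_Ev {b : K} (hb : b ∈ A.S) (n : ℕ) : Ev A.G {x | yv (x b) n = A.y b n} := by
  obtain ⟨v, hv, -⟩ := A.key_Y b hb n
  have h : ∃ m, Ev A.G {x | yv (x b) n = m} := ⟨v, hv⟩
  have h1 : A.y b n = Classical.choose h := by
    unfold y
    rw [dif_pos h]
  rw [h1]
  exact Classical.choose_spec h

theorem op_Y (b : K) (hb : b ∈ A.S) (n : ℕ) (z : A.G.M) :
    Op A.G.E A.P.Y (A.or b) (A.nat n) z ↔ z = A.nat (A.y b n) := by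
  obtain ⟨v, hv, h⟩ := A.key_Y b hb n
  obtain ⟨x, h1, h2⟩ := (hv.inter (A.y_Ev hb n)).nonempty
  have h3 : v = A.y b n := (show yv (x b) n = v from h1).symm.trans h2
  rw [h z, h3]

theorem op_D (c : ℕ) (u z : A.G.M) : Op A.G.E A.P.D (A.nat c) u z ↔
    ∃ i < (dw c).length, u = A.nat i ∧ z = A.nat ((dw c).getD i 0) := by
  rw [cN2 (ι := {p : ℕ × ℕ // p.2 < (dw p.1).length}) (a := fun p => p.1.1) (b := fun p => p.1.2)
    (d := fun p => (dw p.1.1).getD p.1.2 0) A.hD A.hw A.hnat c u z]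
  constructor
  · rintro ⟨⟨⟨c', i⟩, hi⟩, h1, h2, h3⟩
    simp only at h1 h2 h3 hi
    subst h1
    exact ⟨i, hi, h2, h3⟩
  · rintro ⟨i, hi, h1, h2⟩
    exact ⟨⟨(c, i), hi⟩, rfl, h1, h2⟩

theorem op_J (c i : ℕ) (z : A.G.M) :
    Op A.G.E A.J (A.nat c) (A.nat i) z ↔ z = A.nat ((dw c).length + i) := by
  rw [cN2 (ι := ℕ × ℕ) (a := fun p => p.1) (b := fun p => p.2)
    (d := fun p => (dw p.1).length + p.2) A.hJ A.hw A.hnat c (A.nat i) z]
  constructor
  · rintro ⟨⟨c', i'⟩, h1, h2, h3⟩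
    simp only at h1 h2 h3
    subst h1
    have h4 : i = i' := Nat.cast_inj.1 ((GModel.o_eq (A.hnat i) (A.hnat i')).1 h2)
    rw [h3, h4]
  · intro h
    exact ⟨(c, i), rfl, rfl, h⟩

theorem op_W (k n : ℕ) (u z : A.G.M) : Op A.G.E (A.Wn k) (A.nat n) u z ↔
    ∃ i < min k (n + 1), u = A.nat i ∧ z = A.nat (n + 1 - min k (n + 1) + i) := by
  rw [cN2 (ι := {p : ℕ × ℕ // p.2 < min k (p.1 + 1)}) (a := fun p => p.1.1) (b := fun p => p.1.2)
    (d := fun p => p.1.1 + 1 - min k (p.1.1 + 1) + p.1.2) (A.hWn k) A.hw A.hnat n u z]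
  constructor
  · rintro ⟨⟨⟨n', i⟩, hi⟩, h1, h2, h3⟩
    simp only at h1 h2 h3 hi
    subst h1
    exact ⟨i, hi, h2, h3⟩
  · rintro ⟨i, hi, h1, h2⟩
    exact ⟨⟨(n, i), hi⟩, rfl, h1, h2⟩

theorem rel_L (k : ℕ) (x l : A.G.M) :
    Rel A.G.E (A.Ln k) x l ↔ ∃ n, x = A.nat n ∧ l = A.nat (min k (n + 1)) :=
  cN1 (ι := ℕ) (a := fun n => n) (d := fun n => min k (n + 1)) (A.hLn k) A.hw A.hnat x l

end TG

end Pool.Agent.H83.T
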