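import Pool.Agent.H83.T.NmD2
import Pool.Agent.H83.T.NmD3

/-!
# TT-26d: generic models as `TM` structures; windows (job)

PROOF of `isV`. Let `v` be named `nV w`. For `w[i]? = some (c, b)`: some element of the model is the ordinal `b`: the formula
`∃ p c a, (i, p) ∈ v ∧ p = (c, a) ∧ a ∈ kp` (with the parameters `nat i`, `v`, `kp`) is forced (`RR_gN`, `oK_lt`), so true
in the model (`GModel.tr`), which gives `a` with `E a kp`, so `a = or b'` by `E_kp`; by `rel_iff`, `RR_gN` and `feq_opair_iff` `b' = b`. The equivalence: as in `cN1`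
(`NmD1.lean`): if `Rel v u p`, then `u` is forced to be in `ω` and `p` is forced to be a pair of an element of `ω` and an element of `kp`:
truth lemma for `∃ c a, p = (c, a) ∧ c ∈ w ∧ a ∈ kp`; then `RR_gN` for the names `nN i`, `opair (nN c) (kN b)`
(`pair_iff`, `G.congr`). Conversely `RR_gN` with `r = q`.
-/

set_option autoImplicit false
set_option linter.unusedVariables false

namespace Pool.Agent.H83.T

open MeasureTheory Pool.Agent.H86 Pool.Agent.H86.Name Pool.Agent.H83.F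

namespace TG

variable (A : TG)

/-- the structure of type `TM` given by a generic model -/
noncomputable def tm : TM where
  M := A.G.M
  E := A.G.E
  zf := (A.G.zfc ⟨A.nat 0⟩).toIsZFModel
  P := A.P
  J := A.J
  Wn := A.Wn
  Ln := A.Ln
  nat := A.nat
  S := A.S
  or := A.or
  y := A.y
  E_w := A.E_w
  E_nat := A.E_nat
  E_kp := A.E_kp
  E_or := A.E_or
  Sne := A.Sne
  op_Y := A.op_Y
  op_D := A.op_D
  op_J := A.op_J
  op_W := A.op_W
  rel_L := A.rel_L
  sp := A.sp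

/-- `∃ p c a, (i, p) ∈ v ∧ p = (c, a) ∧ a ∈ kp` -/
def fWd {N : Type*} {Ω : Type*} (L : LogicStr N Ω) (v i kp : N) : Ω :=
  L.ex fun p => L.ex fun c => L.ex fun a =>
    L.and (fRel L v i p) (L.and (fPr L p c a) (L.mem a kp))

theorem fWd_tr {G : GModel Q} {v i kp : G.M} {V I Kp : Name Q} (hv : G.Nm v V) (hi : G.Nm i I)
    (hk : G.Nm kp Kp) (h : ∀ p : Q, (fWd (FS Q) V I Kp).holds p) :
    ∃ p c a, Rel G.E v i p ∧ IsPair G.E p c a ∧ G.E a kp := by
  have h1 := G.tr (fWd codeStr 0 1 2 10) (G.el hv) [G.el hv, G.el hi, G.el hk]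
  have h2 : fWd (propStr G.E) v i kp ↔ ∃ n, (fWd (FS Q) V I Kp).holds (G.qs n) := h1
  exact h2.2 ⟨0, h _⟩

/-- the relation given by the name of a window -/
theorem RR_nV {w : List (ℕ × K)} {i : ℕ} {X : Name Q} {p : Q} (h : RR (nV w) (nN i) X p) :
    ∃ c b, w[i]? = some (c, b) ∧ feq X (opair (nN c) (kN b)) p := by
  unfold nV cN at h
  have h1 := RR_gN.1 h
  obtain ⟨r0, hr0, j0, _, hj0, _⟩ := h1 p le_rfl
  have e0 : i = j0.1.1 := by
    have := feq_oName_iff.1 hj0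
    exact_mod_cast this
  refine ⟨j0.1.2.1, j0.1.2.2, ?_, ?_⟩
  · have := j0.2
    rw [← e0] at this
    exact this
  · apply feq_reg
    intro q hq
    obtain ⟨r, hr, j, _, hj, hX⟩ := h1 q hq
    have e : i = j.1.1 := by
      have := feq_oName_iff.1 hj
      exact_mod_cast this
    have e2 : j.1.2 = j0.1.2 := by
      have a1 := j.2
      have a2 := j0.2
      rw [← e] at a1
      rw [← e0] at a2
      rw [a1] at a2
      exact Option.some.inj a2
    rw [e2] at hX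
    exact ⟨r, hr, hX⟩

theorem RR_nV' {w : List (ℕ × K)} {i c : ℕ} {b : K} (hw : w[i]? = some (c, b)) {X : Name Q} {p : Q}
    (hX : feq X (opair (nN c) (kN b)) p) : RR (nV w) (nN i) X p := by
  unfold nV cN
  refine RR_gN.2 fun q hq => ⟨q, le_rfl, ⟨(i, c, b), hw⟩, Set.subset_univ _, feq_refl _ _, ?_⟩
  exact feq_mono hq hX

theorem isV_mem {v : A.G.M} {w : List (ℕ × K)} (hv : A.G.Nm v (nV w)) {i c : ℕ} {b : K}
    (hw : w[i]? = some (c, b)) : b ∈ A.S := by
  obtain ⟨p, c', a, h1, h2, h3⟩ := fWd_tr hv (A.hnat i) A.hkp (by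
    intro q q' hq'
    refine ⟨q', le_rfl, opair (nN c) (kN b), ?_⟩
    intro q1 hq1
    refine ⟨q1, le_rfl, nN c, ?_⟩
    intro q2 hq2
    refine ⟨q2, le_rfl, kN b, ?_⟩
    refine ⟨holds_fRel.2 (RR_nV' hw (feq_refl _ _)), holds_fPr.2 (feq_refl _ _), ?_⟩
    exact fmem_oName_iff.2 (oK_lt b))
  obtain ⟨β, hβ, hb⟩ := (GModel.mem_o A.hkp).1 h3
  obtain ⟨X, hX⟩ := A.G.named p
  obtain ⟨C, hC⟩ := A.G.named c'
  obtain ⟨n, hn⟩ := (GModel.rel_iff hv (A.hnat i) hX).1 h1
  obtain ⟨m, hm⟩ := (pair_iff hC hb hX).1 h2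
  obtain ⟨c1, b1, e1, e2⟩ := RR_nV hn
  rw [hw] at e1
  obtain ⟨rfl, rfl⟩ : c = c1 ∧ b = b1 := by
    have := Option.some.inj e1
    exact ⟨congrArg Prod.fst this, congrArg Prod.snd this⟩
  have h5 : feq (opair (nN c) (kN b)) (opair C (oName Q β)) (A.G.qs (max n m)) :=
    feq_trans (feq_symm (feq_mono (A.G.anti (le_max_left _ _)) e2))
      (feq_mono (A.G.anti (le_max_right _ _)) hm)
  have h6 := (feq_opair_iff.1 h5).2
  have h7 : oK b = β := feq_oName_iff.1 h6
  exact ⟨a, by rw [← h7] at hb; exact hb⟩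

theorem isV {v : A.G.M} {w : List (ℕ × K)} (hv : A.G.Nm v (nV w)) : A.tm.IsV v w := by
  refine ⟨?_, ?_⟩
  · intro p hp
    obtain ⟨i, hi⟩ := List.mem_iff_getElem?.1 hp
    exact isV_mem A hv (c := p.1) (b := p.2) hi
  · intro u p
    show Rel A.G.E v u p ↔ ∃ i c b, w[i]? = some (c, b) ∧ u = A.nat i ∧
      IsPair A.G.E p (A.nat c) (A.or b)
    constructor
    · intro h
      obtain ⟨U, hU⟩ := A.G.named u
      obtain ⟨X, hX⟩ := A.G.named p
      obtain ⟨n, hn⟩ := (GModel.rel_iff hv hU hX).1 h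
      unfold nV cN at hn
      have h1 := RR_gN.1 hn
      have hUw : fmem U (oName Q Ordinal.omega0) (A.G.qs n) := by
        apply fmem_reg
        intro q hq
        obtain ⟨r, hr, j, _, hj, _⟩ := h1 q hq
        exact ⟨r, hr, fmem_congr_left (feq_symm hj) (fmem_oName_iff.2 (Ordinal.natCast_lt_omega0 _))⟩
      obtain ⟨α, hα, hu⟩ := A.G.ord hU hUw
      obtain ⟨i, rfl⟩ := Ordinal.lt_omega0.1 hα
      have hui : u = A.nat i := (GModel.o_eq hu (A.hnat i)).2 rfl
      obtain ⟨m, hm⟩ := (GModel.rel_iff hv hu hX).1 h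
      obtain ⟨c, b, e1, e2⟩ := RR_nV hm
      refine ⟨i, c, b, e1, hui, ?_⟩
      exact (pair_iff (A.hnat c) (A.or_spec (isV_mem A hv e1)) hX).2 ⟨m, e2⟩
    · rintro ⟨i, c, b, e1, rfl, e2⟩
      obtain ⟨X, hX⟩ := A.G.named p
      obtain ⟨m, hm⟩ := (pair_iff (A.hnat c) (A.or_spec (isV_mem A hv e1)) hX).1 e2
      exact (GModel.rel_iff hv (A.hnat i) hX).2 ⟨m, RR_nV' e1 hm⟩

end TG

end Pool.Agent.H83.T
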