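import Pool.Agent.H83.T.NmC

/-!
# TT-26a: ground model relations in generic models (job)

Tools: `GModel.mem_o`, `o_mem`, `o_eq`, `rel_iff`, `mem_iff`, `named`, `congr`, `ord` (`Pool/Agent/H83/F/Frc2.lean`, `Gen.lean`),
`RR_gN`, `op_iff` (`NmB.lean`), `feq_opair_iff`, `feq_oName_iff`.

PROOF. Let `X`, `Z` be names of `x`, `z` and `RR (cN A B) X Z (qs n)` (`rel_iff`). By `RR_gN` (with `c i = univ`), `X` and `Z` are forced by `qs n` to be in
`oName ω` (`fmem_reg`; `nN m` is in `oName ω` by `fmem_oName_iff`), so by `G.ord` they are named `nN x₀`, `nN z₀`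
(`Ordinal.lt_omega0`), hence `x = nat x₀`, `z = nat z₀` (`o_eq`). Now `RR (cN A B) (nN x₀) (nN z₀) (qs m)` gives by
`RR_gN`, `feq_oName_iff` an index `i` with `a i = x₀`, `d i = z₀` (`Nat.cast_inj`). Conversely `RR_gN` with `r = q`. `cN2` is similar with `op_iff`:
`RR (cN A B) (opair (nN c) U) Z (qs n)` and `feq_opair_iff`.
-/

set_option autoImplicit false
set_option linter.unusedVariables false

namespace Pool.Agent.H83.T

open MeasureTheory Pool.Agent.H86 Pool.Agent.H86.Name Pool.Agent.H83.F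

/-- names of natural numbers -/
theorem nat_of_dense {G : GModel Q} {nat : ℕ → G.M} (hnat : ∀ n, G.Nm (nat n) (nN n)) {x : G.M}
    {X : Name Q} (hx : G.Nm x X) {n : ℕ}
    (h : ∀ q ≤ G.qs n, ∃ r ≤ q, ∃ m : ℕ, feq X (nN m) r) : ∃ m, x = nat m := by
  have h1 : fmem X (oName Q Ordinal.omega0) (G.qs n) := by
    refine fmem_reg fun q hq => ?_
    obtain ⟨r, hr, m, hm⟩ := h q hq
    exact ⟨r, hr, fmem_congr_left (feq_symm hm)
      (fmem_oName_iff.2 (Ordinal.natCast_lt_omega0 m))⟩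
  obtain ⟨α, hα, h2⟩ := G.ord hx h1
  obtain ⟨m, rfl⟩ := Ordinal.lt_omega0.1 hα
  exact ⟨m, (GModel.o_eq h2 (hnat m)).2 rfl⟩

theorem cN1 {G : GModel Q} {ι : Type} {a d : ι → ℕ} {f w : G.M}
    (hf : G.Nm f (cN (fun i => nN (a i)) (fun i => nN (d i))))
    (hw : G.Nm w (oName Q Ordinal.omega0)) {nat : ℕ → G.M} (hnat : ∀ n, G.Nm (nat n) (nN n))
    (x z : G.M) : Rel G.E f x z ↔ ∃ i, x = nat (a i) ∧ z = nat (d i) := by
  constructor
  · intro h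
    obtain ⟨X, hX⟩ := G.named x
    obtain ⟨Z, hZ⟩ := G.named z
    obtain ⟨n, hn⟩ := (GModel.rel_iff hf hX hZ).1 h
    have hn' := RR_gN.1 hn
    obtain ⟨x0, rfl⟩ := nat_of_dense hnat hX (n := n) (fun q hq => by
      obtain ⟨r, hr, i, _, h1, _⟩ := hn' q hq
      exact ⟨r, hr, a i, h1⟩)
    obtain ⟨z0, rfl⟩ := nat_of_dense hnat hZ (n := n) (fun q hq => by
      obtain ⟨r, hr, i, _, _, h1⟩ := hn' q hq
      exact ⟨r, hr, d i, h1⟩)
    obtain ⟨m, hm⟩ := (GModel.rel_iff hf (hnat x0) (hnat z0)).1 h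
    obtain ⟨r, _, i, _, h1, h2⟩ := RR_gN.1 hm _ le_rfl
    have e1 : x0 = a i := Nat.cast_inj.1 (feq_oName_iff.1 h1)
    have e2 : z0 = d i := Nat.cast_inj.1 (feq_oName_iff.1 h2)
    exact ⟨i, by rw [e1], by rw [e2]⟩
  · rintro ⟨i, rfl, rfl⟩
    refine (GModel.rel_iff hf (hnat _) (hnat _)).2 ⟨0, RR_gN.2 fun q _ => ?_⟩
    exact ⟨q, le_rfl, i, Set.subset_univ _, feq_refl _ _, feq_refl _ _⟩

theorem cN2 {G : GModel Q} {ι : Type} {a b d : ι → ℕ} {f w : G.M}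
    (hf : G.Nm f (cN (fun i => opair (nN (a i)) (nN (b i))) (fun i => nN (d i))))
    (hw : G.Nm w (oName Q Ordinal.omega0)) {nat : ℕ → G.M} (hnat : ∀ n, G.Nm (nat n) (nN n))
    (c : ℕ) (u z : G.M) :
    Op G.E f (nat c) u z ↔ ∃ i, a i = c ∧ u = nat (b i) ∧ z = nat (d i) := by
  constructor
  · intro h
    obtain ⟨X, hX⟩ := G.named u
    obtain ⟨Z, hZ⟩ := G.named z
    obtain ⟨n, hn⟩ := (op_iff hf (hnat c) hX hZ).1 h
    have hn' := RR_gN.1 hn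
    obtain ⟨x0, rfl⟩ := nat_of_dense hnat hX (n := n) (fun q hq => by
      obtain ⟨r, hr, i, _, h1, _⟩ := hn' q hq
      exact ⟨r, hr, b i, (feq_opair_iff.1 h1).2⟩)
    obtain ⟨z0, rfl⟩ := nat_of_dense hnat hZ (n := n) (fun q hq => by
      obtain ⟨r, hr, i, _, _, h1⟩ := hn' q hq
      exact ⟨r, hr, d i, h1⟩)
    obtain ⟨m, hm⟩ := (op_iff hf (hnat c) (hnat x0) (hnat z0)).1 h
    obtain ⟨r, _, i, _, h1, h2⟩ := RR_gN.1 hm _ le_rfl
    obtain ⟨h3, h4⟩ := feq_opair_iff.1 h1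
    have e0 : c = a i := Nat.cast_inj.1 (feq_oName_iff.1 h3)
    have e1 : x0 = b i := Nat.cast_inj.1 (feq_oName_iff.1 h4)
    have e2 : z0 = d i := Nat.cast_inj.1 (feq_oName_iff.1 h2)
    exact ⟨i, e0.symm, by rw [e1], by rw [e2]⟩
  · rintro ⟨i, rfl, rfl, rfl⟩
    refine (op_iff hf (hnat _) (hnat _) (hnat _)).2 ⟨0, RR_gN.2 fun q _ => ?_⟩
    exact ⟨q, le_rfl, i, Set.subset_univ _, feq_refl _ _, feq_refl _ _⟩

end Pool.Agent.H83.T
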