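import Pool.Agent.H83.T.NmC

/-!
# TT-26b: the ordinals of a generic model (job)

Tools: `GModel.mem_o`, `o_mem`, `o_eq` (`Pool/Agent/H83/F/Frc2.lean`), `oK_surj`, `oK_lt`, `oK_lt_iff`, `Ordinal.lt_omega0`, `TG.or_spec`.
`Sne`: the ordinal `0` is `oK b` for some `b : K` (`kap.ord > 0`, e.g. from `oK_lt` for any element), and `nat 0` is named `nN 0`.
-/

set_option autoImplicit false
set_option linter.unusedVariables false

namespace Pool.Agent.H83.T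

open MeasureTheory Pool.Agent.H86 Pool.Agent.H86.Name Pool.Agent.H83.F

namespace TG

variable (A : TG)

theorem E_w (x : A.G.M) : A.G.E x A.P.w ↔ ∃ n, x = A.nat n := by
  rw [GModel.mem_o A.hw]
  constructor
  · rintro ⟨β, hβ, hx⟩
    obtain ⟨n, rfl⟩ := Ordinal.lt_omega0.1 hβ
    exact ⟨n, (GModel.o_eq hx (A.hnat n)).2 rfl⟩
  · rintro ⟨n, rfl⟩
    exact ⟨(n : Ordinal.{0}), Ordinal.natCast_lt_omega0 n, A.hnat n⟩

theorem E_nat (x : A.G.M) (n : ℕ) : A.G.E x (A.nat n) ↔ ∃ m < n, x = A.nat m := by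
  rw [GModel.mem_o (A.hnat n)]
  constructor
  · rintro ⟨β, hβ, hx⟩
    obtain ⟨m, rfl⟩ := Ordinal.lt_omega0.1 (hβ.trans (Ordinal.natCast_lt_omega0 n))
    exact ⟨m, Nat.cast_lt.1 hβ, (GModel.o_eq hx (A.hnat m)).2 rfl⟩
  · rintro ⟨m, hm, rfl⟩
    exact ⟨(m : Ordinal.{0}), Nat.cast_lt.2 hm, A.hnat m⟩

theorem E_kp (x : A.G.M) : A.G.E x A.P.kp ↔ ∃ b ∈ A.S, x = A.or b := by
  rw [GModel.mem_o A.hkp]
  constructor
  · rintro ⟨β, hβ, hx⟩
    obtain ⟨a, rfl⟩ := oK_surj hβ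
    have ha : a ∈ A.S := ⟨x, hx⟩
    exact ⟨a, ha, (GModel.o_eq hx (A.or_spec ha)).2 rfl⟩
  · rintro ⟨b, hb, rfl⟩
    exact ⟨oK b, oK_lt b, A.or_spec hb⟩

theorem E_or (a : K) (ha : a ∈ A.S) (b : K) (hb : b ∈ A.S) : A.G.E (A.or a) (A.or b) ↔ a < b := by
  rw [GModel.o_mem (A.or_spec ha) (A.or_spec hb)]
  exact oK_lt_iff

theorem Sne : A.S.Nonempty := by
  have h0 : (0 : Ordinal.{0}) < kap.ord := by
    have h1 := kap_reg.ord_pos
    exact h1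
  obtain ⟨b, hb⟩ := oK_surj h0
  refine ⟨b, A.nat 0, ?_⟩
  have h := A.hnat 0
  have e : kN b = nN 0 := by
    show oName Q (oK b) = oName Q ((0 : ℕ) : Ordinal.{0})
    rw [hb, Nat.cast_zero]
  rw [e]
  exact h

end TG

end Pool.Agent.H83.T
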