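import Pool.Agent.H83.T.NmD

/-!
# TT-27: existence of generic models with the space (job)

`PN XN TN`: the names of the parameters. `Fo XN TN sN k p`: the condition `p` forces that the names `XN`, `TN` are the
space and its topology and that `sN` is a winning `k`-tactic.

PROOFS.
* `exists_TG0`: `exists_gmodel ⊤ x₀'` for a sequence `x₀'` that enumerates `x₀` and all basic names (`nN n`, `nW k`, `nL k`,
  `oName Q Ordinal.omega0`, `oName Q kap.ord`, `nY`, `nD`, `nJ`; compare `exists_GB` in `Pool/Agent/H83/R/GB.lean`). In the model (ZFC by `GModel.zfc`)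
  let `X` be the set of all `r` with `fPt` (a subset of the power set of `w × w`: `exists_prod`, `power`, `sep_of` with
  `fPt codeStr P0 0 20`; the fields `X`, `Tp` of the parameters do not occur in `fPt`, put any elements there), and `T` the set of all
  open sets (a subset of the power set of `X`, `fOpen codeStr P0 0 20`).
* `truth_Fo`: the truth lemma `GModel.tr` for the formulas `fSp codeStr P0 20` and `fWins codeStr P0 7 8 9 20` (`eval_fSp`, `eval_fWins` are `rfl`);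
  take the larger index.
* `exists_TG1`: `exists_gmodel q x₀'` for a sequence that enumerates `x₀`, the basic names and `XN`, `TN`, `sN`; the formulas are forced by
  `q = qs 0` (`Om.mono`), so true in the model by the truth lemma.
-/

set_option autoImplicit false
set_option linter.unusedVariables false

namespace Pool.Agent.H83.T

open MeasureTheory Pool.Agent.H86 Pool.Agent.H86.Name Pool.Agent.H83.F

/-- names of the parameters -/
noncomputable def PN (XN TN : Name Q) : Pr (Name Q) :=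
  ⟨oName Q Ordinal.omega0, oName Q kap.ord, nY, nD, XN, TN⟩

/-- `p` forces that `XN`, `TN` are the space and its topology and `sN` is a winning `k`-tactic -/
def Fo (XN TN sN : Name Q) (k : ℕ) (p : Q) : Prop :=
  (fSp (FS Q) (PN XN TN)).holds p ∧ (fWins (FS Q) (PN XN TN) sN (nW k) (nL k)).holds p

theorem Fo.mono {XN TN sN : Name Q} {k : ℕ} {p q : Q} (h : Fo XN TN sN k p) (hq : q ≤ p) :
    Fo XN TN sN k q := ⟨Om.mono _ hq h.1, Om.mono _ hq h.2⟩

/-- a generic model that contains the basic names -/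
theorem exists_G (q : Q) (x₀ : ℕ → Name Q) : ∃ G : GModel Q, G.qs 0 = q ∧
    (∀ n, ∃ m, G.Nm m (nN n)) ∧ (∀ k, ∃ m, G.Nm m (nW k)) ∧ (∀ k, ∃ m, G.Nm m (nL k)) ∧
    (∃ m, G.Nm m (oName Q Ordinal.omega0)) ∧ (∃ m, G.Nm m (oName Q kap.ord)) ∧
    (∃ m, G.Nm m nY) ∧ (∃ m, G.Nm m nD) ∧ (∃ m, G.Nm m nJ) ∧ ∀ i, ∃ m, G.Nm m (x₀ i) := by
  classical
  let L : List (Name Q) := [oName Q Ordinal.omega0, oName Q kap.ord, nY, nD, nJ]
  let x' : ℕ → Name Q := fun i =>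
    if (Nat.unpair i).1 = 0 then nN (Nat.unpair i).2
    else if (Nat.unpair i).1 = 1 then nW (Nat.unpair i).2
    else if (Nat.unpair i).1 = 2 then nL (Nat.unpair i).2
    else if (Nat.unpair i).1 = 3 then x₀ (Nat.unpair i).2
    else L.getD (Nat.unpair i).2 nY
  obtain ⟨G, hG0, hG⟩ := exists_gmodel q x'
  have e0 : ∀ n, x' (Nat.pair 0 n) = nN n := fun n => by
    simp only [x', Nat.unpair_pair, if_true]
  have e1 : ∀ n, x' (Nat.pair 1 n) = nW n := fun n => by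
    simp only [x', Nat.unpair_pair]
    rfl
  have e2 : ∀ n, x' (Nat.pair 2 n) = nL n := fun n => by
    simp only [x', Nat.unpair_pair]
    rfl
  have e3 : ∀ n, x' (Nat.pair 3 n) = x₀ n := fun n => by
    simp only [x', Nat.unpair_pair]
    rfl
  have e4 : ∀ n, x' (Nat.pair 4 n) = L.getD n nY := fun n => by
    simp only [x', Nat.unpair_pair]
    rfl
  have hL : ∀ n, ∃ m, G.Nm m (L.getD n nY) := fun n => by
    have := hG (Nat.pair 4 n)
    rwa [e4] at this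
  refine ⟨G, hG0, fun n => ?_, fun n => ?_, fun n => ?_, hL 0, hL 1, hL 2, hL 3, hL 4,
    fun n => ?_⟩
  · have := hG (Nat.pair 0 n)
    rwa [e0] at this
  · have := hG (Nat.pair 1 n)
    rwa [e1] at this
  · have := hG (Nat.pair 2 n)
    rwa [e2] at this
  · have := hG (Nat.pair 3 n)
    rwa [e3] at this

theorem exists_X {M : Type} {E : M → M → Prop} (hE : IsZFModel E) (w kp Y D : M) :
    ∃ X T : M, fSp (propStr E) ⟨w, kp, Y, D, X, T⟩ := by
  obtain ⟨c, hc⟩ := exists_prod hE w w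
  obtain ⟨pc, hpc⟩ := hE.power c
  obtain ⟨X, hX⟩ := sep_of hE (fPt codeStr P0 0 20) (asn w [w, kp, Y, D, w, w])
    (P := fun r => fPt (propStr E) ⟨w, kp, Y, D, w, w⟩ r) (fun x => Iff.rfl) pc
  obtain ⟨pX, hpX⟩ := hE.power X
  obtain ⟨T, hT⟩ := sep_of hE (fOpen codeStr P0 0 20) (asn w [w, kp, Y, D, X, w])
    (P := fun r => fOpen (propStr E) ⟨w, kp, Y, D, X, w⟩ r) (fun x => Iff.rfl) pX
  refine ⟨X, T, fun r => ?_, fun O => ?_⟩
  · show E r X ↔ fPt (propStr E) ⟨w, kp, Y, D, w, w⟩ r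
    rw [hX]
    constructor
    · exact fun h => h.2
    · intro h
      refine ⟨?_, h⟩
      rw [hpc]
      intro z hz
      have h1 : fIsFun (propStr E) r w w := h.1
      obtain ⟨x, y, h2, h3, h4⟩ := h1.1 z hz
      exact (hc z).2 ⟨x, y, h2, h3, h4⟩
  · show E O T ↔ fOpen (propStr E) ⟨w, kp, Y, D, X, w⟩ O
    rw [hT]
    constructor
    · exact fun h => h.2
    · intro h
      refine ⟨?_, h⟩
      rw [hpX]
      exact fun z hz => h.1 z hz

theorem exists_TG0 (x₀ : ℕ → Name Q) : ∃ A : TG, ∀ i, ∃ m, A.G.Nm m (x₀ i) := by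
  obtain ⟨G, -, h1, h2, h3, ⟨w, hw⟩, ⟨kp, hkp⟩, ⟨Y, hY⟩, ⟨D, hD⟩, ⟨J, hJ⟩, hx⟩ := exists_G ⊤ x₀
  choose nat hnat using h1
  choose Wn hWn using h2
  choose Ln hLn using h3
  obtain ⟨X, T, hXT⟩ := exists_X (G.zfc ⟨w⟩).toIsZFModel w kp Y D
  exact ⟨⟨G, ⟨w, kp, Y, D, X, T⟩, J, Wn, Ln, nat, hnat, hw, hkp, hY, hD, hJ, hWn, hLn, hXT⟩, hx⟩

/-- the truth lemma for the formula `fSp` -/
theorem tr_Sp {G : GModel Q} {P : Pr G.M} {XN TN : Name Q} (hw : G.Nm P.w (oName Q Ordinal.omega0))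
    (hkp : G.Nm P.kp (oName Q kap.ord)) (hY : G.Nm P.Y nY) (hD : G.Nm P.D nD)
    (hX : G.Nm P.X XN) (hT : G.Nm P.Tp TN) :
    fSp (propStr G.E) P ↔ ∃ n, (fSp (FS Q) (PN XN TN)).holds (G.qs n) :=
  G.tr (fSp codeStr P0 20) (G.el hw)
    [G.el hw, G.el hw, G.el hkp, G.el hY, G.el hD, G.el hX, G.el hT]

/-- the truth lemma for the formula `fWins` -/
theorem tr_Wins {G : GModel Q} {P : Pr G.M} {XN TN sN : Name Q} {s W Ln : G.M} {k : ℕ}
    (hw : G.Nm P.w (oName Q Ordinal.omega0))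
    (hkp : G.Nm P.kp (oName Q kap.ord)) (hY : G.Nm P.Y nY) (hD : G.Nm P.D nD)
    (hX : G.Nm P.X XN) (hT : G.Nm P.Tp TN) (hs : G.Nm s sN) (hW : G.Nm W (nW k))
    (hL : G.Nm Ln (nL k)) :
    fWins (propStr G.E) P s W Ln ↔
      ∃ n, (fWins (FS Q) (PN XN TN) sN (nW k) (nL k)).holds (G.qs n) :=
  G.tr (fWins codeStr P0 7 8 9 20) (G.el hw)
    [G.el hw, G.el hw, G.el hkp, G.el hY, G.el hD, G.el hX, G.el hT, G.el hs, G.el hW, G.el hL]

theorem truth_Fo (A : TG) {XN TN sN : Name Q} {s : A.G.M} {k : ℕ} (hX : A.G.Nm A.P.X XN)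
    (hT : A.G.Nm A.P.Tp TN) (hs : A.G.Nm s sN)
    (h : fWins (propStr A.G.E) A.P s (A.Wn k) (A.Ln k)) : ∃ n, Fo XN TN sN k (A.G.qs n) := by
  obtain ⟨m, hm⟩ := (tr_Sp A.hw A.hkp A.hY A.hD hX hT).1 A.sp
  obtain ⟨n, hn⟩ := (tr_Wins A.hw A.hkp A.hY A.hD hX hT hs (A.hWn k) (A.hLn k)).1 h
  exact ⟨max m n, Om.mono _ (A.G.anti (le_max_left _ _)) hm,
    Om.mono _ (A.G.anti (le_max_right _ _)) hn⟩

theorem exists_TG1 {XN TN sN : Name Q} {k : ℕ} {q : Q} (h : Fo XN TN sN k q)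
    (x₀ : ℕ → Name Q) :
    ∃ (A : TG) (s : A.G.M), A.G.qs 0 = q ∧ A.G.Nm A.P.X XN ∧ A.G.Nm A.P.Tp TN ∧ A.G.Nm s sN ∧
      fWins (propStr A.G.E) A.P s (A.Wn k) (A.Ln k) ∧ ∀ i, ∃ m, A.G.Nm m (x₀ i) := by
  obtain ⟨G, hq, h1, h2, h3, ⟨w, hw⟩, ⟨kp, hkp⟩, ⟨Y, hY⟩, ⟨D, hD⟩, ⟨J, hJ⟩, hx⟩ :=
    exists_G q fun i => if i = 0 then XN else if i = 1 then TN else if i = 2 then sN else x₀ (i - 3)
  choose nat hnat using h1
  choose Wn hWn using h2
  choose Ln hLn using h3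
  obtain ⟨X, hX⟩ := hx 0
  obtain ⟨T, hT⟩ := hx 1
  obtain ⟨s, hs⟩ := hx 2
  have hX : G.Nm X XN := hX
  have hT : G.Nm T TN := hT
  have hs : G.Nm s sN := hs
  refine ⟨⟨G, ⟨w, kp, Y, D, X, T⟩, J, Wn, Ln, nat, hnat, hw, hkp, hY, hD, hJ, hWn, hLn, ?_⟩, s,
    hq, hX, hT, hs, ?_, fun i => ?_⟩
  · exact (tr_Sp (P := ⟨w, kp, Y, D, X, T⟩) hw hkp hY hD hX hT).2 ⟨0, by rw [hq]; exact h.1⟩
  · exact (tr_Wins (P := ⟨w, kp, Y, D, X, T⟩) hw hkp hY hD hX hT hs (hWn k) (hLn k)).2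
      ⟨0, by rw [hq]; exact h.2⟩
  · exact hx (i + 3)

/-- the truth lemma for `fRp` -/
theorem truth_Rp (A : TG) {XN TN sN vN : Name Q} {s v : A.G.M} (hX : A.G.Nm A.P.X XN)
    (hT : A.G.Nm A.P.Tp TN) (hs : A.G.Nm s sN) (hv : A.G.Nm v vN) (t : ℕ) {b : K} (hb : b ∈ A.S) :
    fRp (propStr A.G.E) A.P s v (A.nat t) (A.or b) ↔
      ∃ n, (fRp (FS Q) (PN XN TN) sN vN (nN t) (kN b)).holds (A.G.qs n) :=
  A.G.tr (fRp codeStr P0 7 8 9 10 20) (A.G.el A.hw)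
    [A.G.el A.hw, A.G.el A.hw, A.G.el A.hkp, A.G.el A.hY, A.G.el A.hD, A.G.el hX, A.G.el hT,
      A.G.el hs, A.G.el hv, A.G.el (A.hnat t), A.G.el (A.or_spec hb)]

end Pool.Agent.H83.T
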