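import Pool.Agent.H83.T.TM

/-!
# TT-16: functions, points and basic sets (job)

Tools: `sep_of`, `exists_rel`, `isFun_of`, `rel_ext`, `IsFun.mem`, `IsFun.uniq`, `pair_inj`, ... in
`Pool/Agent/H83/F/Int.lean`; `P, E_w, E_nat, ...` are fields of `TM`. The formulas `fHit`, `fPt`, `fU`, `fOpen` of
`Fm.lean` unfold for `propStr A.E` by `Iff.rfl` (e.g. `fHit (propStr A.E) A.P b r` is
`∀ m, A.E m A.P.w → ∃ n, A.E n A.P.w ∧ (A.E n m → False) ∧ ∃ v, Op A.E A.P.Y b n v ∧ Rel A.E r n v`).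

PROOFS.
* `exists_Fv`: every value is a natural number.
* `Fv.left`: `rel_ext`. `Fv.right`: `nat_inj`.
* `Fv.mk`: `exists_rel` for `a = b = P.w`, then `isFun_of`.
* `hit_iff`: `{n | f n = y b n}` is infinite iff for every `m` there is `n ≥ m` in it (`Set.infinite_iff_...` or
  `Set.infinite_of_not_bddAbove`, `Set.Finite.bddAbove`); `A.E (nat n) (nat m) ↔ n < m`.
* `X_iff`, `fU_iff`, `open_iff`: `A.sp`, `hit_iff`, `op_D`; `¬ A.E (or b) (or a) ↔ a ≤ b` for `a b ∈ S` (`E_or`, linear order).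
-/

set_option autoImplicit false

namespace Pool.Agent.H83.T

open Pool.Agent.H86 Pool.Agent.H83.F

namespace TM

variable (A : TM)

theorem nat_lt (m n : ℕ) : A.E (A.nat m) (A.nat n) ↔ m < n := by
  rw [A.E_nat]
  constructor
  · rintro ⟨k, hk, h⟩
    rw [A.nat_inj h]; exact hk
  · exact fun h => ⟨m, h, rfl⟩

theorem exists_Fv {r : A.M} (h : IsFun A.E r A.P.w A.P.w) : ∃ f, A.Fv r f := by
  have key : ∀ n, ∃ m, Rel A.E r (A.nat n) (A.nat m) ∧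
      ∀ z, Rel A.E r (A.nat n) z → z = A.nat m := by
    intro n
    obtain ⟨y, hy, hu⟩ := h.2 (A.nat n) (A.nat_w n)
    obtain ⟨m, rfl⟩ := (A.E_w y).1 (IsFun.mem A.zf h hy).2
    exact ⟨m, hy, hu⟩
  choose f hf using key
  refine ⟨f, h, ?_⟩
  intro n z
  constructor
  · exact fun hz => (hf n).2 z hz
  · rintro rfl
    exact (hf n).1

variable {A}

theorem Fv.left {r r' : A.M} {f : ℕ → ℕ} (h : A.Fv r f) (h' : A.Fv r' f) : r = r' := by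
  refine rel_ext A.zf ?_ ?_ ?_
  · intro z hz
    obtain ⟨x, y, h1, -, -⟩ := h.1.1 z hz
    exact ⟨x, y, h1⟩
  · intro z hz
    obtain ⟨x, y, h1, -, -⟩ := h'.1.1 z hz
    exact ⟨x, y, h1⟩
  · intro x y
    constructor
    · intro hxy
      obtain ⟨n, rfl⟩ := (A.E_w x).1 (IsFun.mem A.zf h.1 hxy).1
      exact (h'.2 n y).2 ((h.2 n y).1 hxy)
    · intro hxy
      obtain ⟨n, rfl⟩ := (A.E_w x).1 (IsFun.mem A.zf h'.1 hxy).1
      exact (h.2 n y).2 ((h'.2 n y).1 hxy)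

theorem Fv.right {r : A.M} {f g : ℕ → ℕ} (h : A.Fv r f) (h' : A.Fv r g) : f = g := by
  funext n
  exact A.nat_inj ((h'.2 n _).1 ((h.2 n _).2 rfl))

variable (A)

/-- Functions given by formulas (see `exists_rel` for the use). -/
theorem Fv.mk (φ : Fml) (p : ℕ → A.M) {R : A.M → A.M → Prop}
    (h : ∀ z, (∃ x y, IsPair A.E z x y ∧ R x y) ↔ φ.eval (propStr A.E) (upd p 0 z)) (f : ℕ → ℕ)
    (hf : ∀ n m, R (A.nat n) (A.nat m) ↔ m = f n) : ∃ r, A.Fv r f := by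
  obtain ⟨r, h1, h2⟩ := exists_rel A.zf φ p h A.P.w A.P.w
  have h3 : ∀ n z, Rel A.E r (A.nat n) z ↔ z = A.nat (f n) := by
    intro n z
    rw [h2]
    constructor
    · rintro ⟨-, hz, hR⟩
      obtain ⟨m, rfl⟩ := (A.E_w z).1 hz
      rw [(hf n m).1 hR]
    · rintro rfl
      exact ⟨A.nat_w n, A.nat_w _, (hf n _).2 rfl⟩
  refine ⟨r, ?_, h3⟩
  refine isFun_of A.zf ?_ ?_ ?_
  · intro z hz
    obtain ⟨x, y, h4, h5, h6, -⟩ := h1 z hz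
    exact ⟨x, y, h4, h5, h6⟩
  · intro x hx
    obtain ⟨n, rfl⟩ := (A.E_w x).1 hx
    exact ⟨_, (h3 n _).2 rfl⟩
  · intro x y y' hy hy'
    obtain ⟨n, rfl⟩ := (A.E_w x).1 ((h2 x y).1 hy).1
    rw [(h3 n y).1 hy, (h3 n y').1 hy']

theorem hit_iff {b : K} (hb : b ∈ A.S) {r : A.M} {f : ℕ → ℕ} (hr : A.Fv r f) :
    fHit (propStr A.E) A.P (A.or b) r ↔ A.Hi b f := by
  have h0 : fHit (propStr A.E) A.P (A.or b) r ↔ ∀ m, A.E m A.P.w → ∃ n, A.E n A.P.w ∧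
      (A.E n m → False) ∧ ∃ v, Op A.E A.P.Y (A.or b) n v ∧ Rel A.E r n v := Iff.rfl
  rw [h0]
  constructor
  · intro h
    refine Set.infinite_of_not_bddAbove ?_
    rintro ⟨B, hB⟩
    obtain ⟨n, hn, hnm, v, hv, hrv⟩ := h (A.nat (B + 1)) (A.nat_w _)
    obtain ⟨k, rfl⟩ := (A.E_w n).1 hn
    have h1 : B + 1 ≤ k := by
      by_contra h2
      exact hnm ((A.nat_lt _ _).2 (not_le.1 h2))
    have h3 := (A.op_Y b hb k v).1 hv
    have h4 := (hr.2 k v).1 hrv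
    have h5 : k ∈ {n | f n = A.y b n} := A.nat_inj (h4.symm.trans h3)
    have h6 := hB h5
    omega
  · intro h m hm
    obtain ⟨k, rfl⟩ := (A.E_w m).1 hm
    obtain ⟨n, hn, hkn⟩ := h.exists_gt k
    refine ⟨A.nat n, A.nat_w n, ?_, A.nat (f n), ?_, (hr.2 n _).2 rfl⟩
    · intro h1
      have h2 := (A.nat_lt _ _).1 h1
      omega
    · rw [A.op_Y b hb, show f n = A.y b n from hn]

theorem X_iff (r : A.M) : A.E r A.P.X ↔ ∃ f, A.Fv r f ∧ ∃ b ∈ A.S, A.Hi b f := by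
  have h0 : A.E r A.P.X ↔ fPt (propStr A.E) A.P r := A.sp.1 r
  have h1 : fPt (propStr A.E) A.P r ↔ IsFun A.E r A.P.w A.P.w ∧
      ∃ b, A.E b A.P.kp ∧ fHit (propStr A.E) A.P b r := Iff.rfl
  rw [h0, h1]
  constructor
  · rintro ⟨h2, b, hb, h3⟩
    obtain ⟨f, hf⟩ := A.exists_Fv h2
    obtain ⟨b, hbS, rfl⟩ := (A.E_kp b).1 hb
    exact ⟨f, hf, b, hbS, (A.hit_iff hbS hf).1 h3⟩
  · rintro ⟨f, hf, b, hb, h3⟩
    exact ⟨hf.1, A.or b, A.or_kp hb, (A.hit_iff hb hf).2 h3⟩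

theorem fU_iff {a : K} (ha : a ∈ A.S) (c : ℕ) {r : A.M} {f : ℕ → ℕ} (hr : A.Fv r f) :
    fU (propStr A.E) A.P (A.nat c) (A.or a) r ↔ A.Bas c a f := by
  have h0 : fU (propStr A.E) A.P (A.nat c) (A.or a) r ↔ A.E r A.P.X ∧
      (∀ i v, Op A.E A.P.D (A.nat c) i v → Rel A.E r i v) ∧
      ∃ b, A.E b A.P.kp ∧ (A.E b (A.or a) → False) ∧ fHit (propStr A.E) A.P b r := Iff.rfl
  rw [h0]
  constructor
  · rintro ⟨-, h1, b, hb, hba, hh⟩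
    refine ⟨?_, ?_⟩
    · intro i hi
      have h2 := h1 (A.nat i) (A.nat ((dw c).getD i 0)) ((A.op_D _ _ _).2 ⟨i, hi, rfl, rfl⟩)
      exact (A.nat_inj ((hr.2 i _).1 h2)).symm
    · obtain ⟨b, hbS, rfl⟩ := (A.E_kp b).1 hb
      refine ⟨b, hbS, ?_, (A.hit_iff hbS hr).1 hh⟩
      by_contra h2
      exact hba ((A.E_or b hbS a ha).2 (not_le.1 h2))
  · rintro ⟨h1, b, hb, hab, hh⟩
    refine ⟨(A.X_iff r).2 ⟨f, hr, b, hb, hh⟩, ?_, A.or b, A.or_kp hb, ?_, (A.hit_iff hb hr).2 hh⟩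
    · intro i v h2
      obtain ⟨j, hj, rfl, rfl⟩ := (A.op_D _ _ _).1 h2
      rw [← h1 j hj]
      exact (hr.2 j _).2 rfl
    · intro h2
      exact absurd ((A.E_or b hb a ha).1 h2) (not_lt.2 hab)

theorem fU_iff' {a : K} (ha : a ∈ A.S) (c : ℕ) (r : A.M) :
    fU (propStr A.E) A.P (A.nat c) (A.or a) r ↔ ∃ f, A.Fv r f ∧ A.Bas c a f := by
  constructor
  · intro h
    obtain ⟨f, hf, -⟩ := (A.X_iff r).1 h.1
    exact ⟨f, hf, (A.fU_iff ha c hf).1 h⟩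
  · rintro ⟨f, hf, h⟩
    exact (A.fU_iff ha c hf).2 h

theorem open_iff (O : A.M) : A.E O A.P.Tp ↔ Sub A.E O A.P.X ∧ ∀ r f, A.E r O → A.Fv r f →
    ∃ c, ∃ a ∈ A.S, A.Bas c a f ∧ ∀ r' f', A.Fv r' f' → A.Bas c a f' → A.E r' O := by
  have h0 : A.E O A.P.Tp ↔ fOpen (propStr A.E) A.P O := A.sp.2 O
  have h1 : fOpen (propStr A.E) A.P O ↔ (∀ r, A.E r O → A.E r A.P.X) ∧ ∀ r, A.E r O →
      ∃ c, A.E c A.P.w ∧ ∃ a, A.E a A.P.kp ∧ fU (propStr A.E) A.P c a r ∧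
        ∀ r', fU (propStr A.E) A.P c a r' → A.E r' O := Iff.rfl
  rw [h0, h1]
  constructor
  · rintro ⟨h2, h3⟩
    refine ⟨h2, ?_⟩
    intro r f hrO hf
    obtain ⟨c, hc, a, ha, h4, h5⟩ := h3 r hrO
    obtain ⟨c, rfl⟩ := (A.E_w c).1 hc
    obtain ⟨a, haS, rfl⟩ := (A.E_kp a).1 ha
    refine ⟨c, a, haS, (A.fU_iff haS c hf).1 h4, ?_⟩
    intro r' f' hf' hB
    exact h5 r' ((A.fU_iff haS c hf').2 hB)
  · rintro ⟨h2, h3⟩
    refine ⟨h2, ?_⟩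
    intro r hrO
    obtain ⟨f, hf, -⟩ := (A.X_iff r).1 (h2 r hrO)
    obtain ⟨c, a, ha, h4, h5⟩ := h3 r f hrO hf
    refine ⟨A.nat c, A.nat_w c, A.or a, A.or_kp ha, (A.fU_iff ha c hf).2 h4, ?_⟩
    intro r' h6
    obtain ⟨f', hf', hB⟩ := (A.fU_iff' ha c r').1 h6
    exact h5 r' f' hf' hB

end TM

end Pool.Agent.H83.T
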