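import Pool.Agent.H83.T.SpA

/-!
# TT-17: the points `s ⌢ y b` and the basic sets (job)

PROOFS.
* `exists_pt`: `Fv.mk` for the relation `R n v := Op D c n v ∨ ((∀ v', ¬ Op D c n v') ∧ Op Y b n v)` with the parameters
  `D`, `nat c`, `Y`, `or b` (code: `pairCode (fun x y => codeStr.or (fOp codeStr 1 2 x y) (codeStr.and (codeStr.all fun v =>
  codeStr.imp (fOp codeStr 1 2 x v) codeStr.bot) (fOp codeStr 3 4 x y))) 10`, `asn A.P.D [A.P.D, A.nat c, A.P.Y, A.or b]`).
* `Hi_pt`: `pt c b n = y b n` for all `n ≥ (dw c).length`.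
* `exists_bas`: `sep_of` from `A.P.X` for the formula `fU codeStr P0 7 8 0 20` with the assignment
  `asn _ [P.w, P.kp, P.Y, P.D, P.X, P.Tp, nat c, or a]` (`eval_fU` is `rfl`). It is open by `open_iff` (take the same `c`, `a`).
* `bas_ne`: the point `pt c a`.
* `pre_of_sub`: let `f = pt c' a'`, `Bas c' a' f`, so `Bas c a f`: `f i = (dw c).getD i 0` for `i < (dw c).length`. If
  `(dw c).length ≤ (dw c').length` the list `dw c` is a prefix of `dw c'` (compare entries,
  `List.prefix_iff_eq_take`, `List.ext_getElem`). Otherwise let `l = (dw c').length < (dw c).length`, choose `v ≠ (dw c).getD l 0`,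
  `c'' = ew (dw c' ++ [v])`, `g = pt c'' a'`; `Bas c' a' g` holds (`g` extends `dw c'` and `Hi a' g`), so `Bas c a g`, so
  `v = g l = (dw c).getD l 0`, contradiction.
-/

set_option autoImplicit false

namespace Pool.Agent.H83.T

open Pool.Agent.H86 Pool.Agent.H83.F

namespace TM

variable (A : TM)

/-- the point `c ⌢ y b` -/
def pt (c : ℕ) (b : K) : ℕ → ℕ := fun i => if i < (dw c).length then (dw c).getD i 0 else A.y b i

theorem exists_pt (c : ℕ) {b : K} (hb : b ∈ A.S) : ∃ r, A.Fv r (A.pt c b) := by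
  refine Fv.mk A (pairCode (fun x y => codeStr.or (fOp codeStr 1 2 x y) (codeStr.and (codeStr.all fun v =>
    codeStr.imp (fOp codeStr 1 2 x v) codeStr.bot) (fOp codeStr 3 4 x y))) 10)
    (asn A.P.D [A.P.D, A.nat c, A.P.Y, A.or b])
    (R := fun n v => Op A.E A.P.D (A.nat c) n v ∨
      ((∀ v', Op A.E A.P.D (A.nat c) n v' → False) ∧ Op A.E A.P.Y (A.or b) n v))
    (fun z => Iff.rfl) _ ?_
  intro n m
  unfold pt
  by_cases h : n < (dw c).length
  · rw [if_pos h]
    constructor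
    · rintro (h1 | ⟨h1, -⟩)
      · obtain ⟨i, -, h2, h3⟩ := (A.op_D _ _ _).1 h1
        have h4 := A.nat_inj h2
        subst h4
        exact A.nat_inj h3
      · exact (h1 (A.nat ((dw c).getD n 0)) ((A.op_D _ _ _).2 ⟨n, h, rfl, rfl⟩)).elim
    · rintro rfl
      exact Or.inl ((A.op_D _ _ _).2 ⟨n, h, rfl, rfl⟩)
  · rw [if_neg h]
    have h0 : ∀ v', ¬ Op A.E A.P.D (A.nat c) (A.nat n) v' := by
      intro v' h1
      obtain ⟨i, hi, h2, -⟩ := (A.op_D _ _ _).1 h1
      have h4 := A.nat_inj h2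
      subst h4
      exact h hi
    constructor
    · rintro (h1 | ⟨-, h1⟩)
      · exact (h0 _ h1).elim
      · exact A.nat_inj ((A.op_Y b hb n _).1 h1)
    · rintro rfl
      exact Or.inr ⟨h0, (A.op_Y b hb n _).2 rfl⟩

theorem Hi_pt (c : ℕ) (b : K) : A.Hi b (A.pt c b) := by
  unfold Hi
  refine Set.Infinite.mono ?_ (Set.Ici_infinite (dw c).length)
  intro n hn
  have hn' : (dw c).length ≤ n := hn
  show A.pt c b n = A.y b n
  unfold pt
  rw [if_neg (by omega)]

theorem Bas_pt (c : ℕ) {a b : K} (hb : b ∈ A.S) (hab : a ≤ b) : A.Bas c a (A.pt c b) := by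
  refine ⟨fun i hi => ?_, b, hb, hab, A.Hi_pt c b⟩
  unfold pt
  rw [if_pos hi]

theorem exists_bas (c : ℕ) {a : K} (ha : a ∈ A.S) :
    ∃ U, A.E U A.P.Tp ∧ (∃ r, A.E r U) ∧ ∀ r f, A.Fv r f → (A.E r U ↔ A.Bas c a f) := by
  obtain ⟨U, hU⟩ := sep_of A.zf (fU codeStr P0 7 8 0 20)
    (asn A.P.w [A.P.w, A.P.kp, A.P.Y, A.P.D, A.P.X, A.P.Tp, A.nat c, A.or a])
    (P := fun r => fU (propStr A.E) A.P (A.nat c) (A.or a) r) (fun x => Iff.rfl) A.P.X
  have hU' : ∀ r f, A.Fv r f → (A.E r U ↔ A.Bas c a f) := by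
    intro r f hr
    rw [hU, A.fU_iff ha c hr]
    refine ⟨fun h => h.2, fun h => ⟨?_, h⟩⟩
    rw [A.X_iff]
    obtain ⟨-, b, hb, -, h2⟩ := h
    exact ⟨f, hr, b, hb, h2⟩
  refine ⟨U, ?_, ?_, hU'⟩
  · rw [A.open_iff]
    refine ⟨fun r hr => ((hU r).1 hr).1, fun r f hr hf => ?_⟩
    exact ⟨c, a, ha, (hU' r f hf).1 hr, fun r' f' hf' h => (hU' r' f' hf').2 h⟩
  · obtain ⟨r, hr⟩ := A.exists_pt c ha
    exact ⟨r, (hU' r _ hr).2 (A.Bas_pt c ha le_rfl)⟩

theorem pre_of_sub {c c' : ℕ} {a a' : K} (ha' : a' ∈ A.S)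
    (h : ∀ r f, A.Fv r f → A.Bas c' a' f → A.Bas c a f) : dw c <+: dw c' := by
  rcases Nat.lt_or_ge (dw c').length (dw c).length with hl | hl
  · exfalso
    obtain ⟨v, hv⟩ : ∃ v, v ≠ (dw c).getD (dw c').length 0 := ⟨_, Nat.succ_ne_self _⟩
    obtain ⟨r, hr⟩ := A.exists_pt (ew (dw c' ++ [v])) ha'
    have hg : ∀ i < (dw c' ++ [v]).length, A.pt (ew (dw c' ++ [v])) a' i = (dw c' ++ [v]).getD i 0 := by
      intro i hi
      unfold pt
      rw [dw_ew, if_pos hi]
    have h1 : A.Bas c' a' (A.pt (ew (dw c' ++ [v])) a') := by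
      refine ⟨fun i hi => ?_, a', ha', le_rfl, A.Hi_pt _ _⟩
      rw [hg i (by rw [List.length_append]; omega), List.getD_append _ _ _ _ hi]
    have h2 := (h r _ hr h1).1 (dw c').length hl
    rw [hg _ (by rw [List.length_append]; simp)] at h2
    rw [List.getD_append_right _ _ _ _ le_rfl, Nat.sub_self] at h2
    exact hv h2
  · obtain ⟨r, hr⟩ := A.exists_pt c' ha'
    have h1 := (h r _ hr (A.Bas_pt c' ha' le_rfl)).1
    rw [List.prefix_iff_eq_take]
    apply List.ext_getElem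
    · rw [List.length_take]; omega
    · intro i hi hi'
      have h2 := h1 i hi
      unfold pt at h2
      have hi2 : i < (dw c').length := by omega
      rw [if_pos hi2, List.getD_eq_getElem _ _ hi2, List.getD_eq_getElem _ _ hi] at h2
      rw [List.getElem_take]
      exact h2.symm

end TM

end Pool.Agent.H83.T
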