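import Pool.Agent.H83.T.SpB

/-!
# TT-19: the chosen basic set (job)

`Ch U c a`: `Bas c a ⊆ U`, `c` is the least code for which there is such an `a`, and `a` is the least such
ordinal. `fCh` is the corresponding formula.

PROOFS.
* `exists_Ch`: `U` is nonempty and open, so it contains a basic set (`open_iff`; the point `r ∈ U` has a function by `X_iff`).
  Least code (`Nat.find`), least ordinal (`K` is well-ordered: `WellFounded.min` for the set of all `a ∈ S` with `Bas c a ⊆ U`).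
* `Ch.uniq`: minimality.
* `fCh_iff`: unfold; `fU_iff'`, `E_nat`, `E_kp`, `E_or`. (`x ∈ nat c` iff `x = nat c'`, `c' < c`.)
* `fCh_iff'`: elements of `P.w` and `P.kp` are `nat c` and `or a`.
-/

set_option autoImplicit false

universe v w'

namespace Pool.Agent.H83.T

open Pool.Agent.H86 Pool.Agent.H83.F

/-- the basic set given by `c` and `a` is contained in `U` -/
def fSubU {N : Type v} {Ω : Type w'} (L : LogicStr N Ω) (P : Pr N) (U c a : N) : Ω :=
  L.all fun r => L.imp (fU L P c a r) (L.mem r U)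

/-- the formula `Ch` -/
def fCh {N : Type v} {Ω : Type w'} (L : LogicStr N Ω) (P : Pr N) (U c a : N) : Ω :=
  L.and (L.and (L.mem c P.w) (L.mem a P.kp)) (L.and (fSubU L P U c a)
    (L.and (L.all fun c' => L.imp (L.mem c' c) (L.all fun a' => L.imp (L.mem a' P.kp)
      (L.imp (fSubU L P U c' a') L.bot)))
    (L.all fun a' => L.imp (L.mem a' P.kp) (L.imp (L.mem a' a) (L.imp (fSubU L P U c a') L.bot)))))

namespace TM

variable (A : TM)

/-- `Bas c a ⊆ U` -/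
def SubU (U : A.M) (c : ℕ) (a : K) : Prop := ∀ r f, A.Fv r f → A.Bas c a f → A.E r U

/-- the chosen basic subset of `U` -/
def Ch (U : A.M) (c : ℕ) (a : K) : Prop :=
  a ∈ A.S ∧ A.SubU U c a ∧ (∀ c' < c, ∀ a' ∈ A.S, ¬ A.SubU U c' a') ∧
    ∀ a' ∈ A.S, a' < a → ¬ A.SubU U c a'

theorem fSubU_iff (U : A.M) (c : ℕ) {a : K} (ha : a ∈ A.S) :
    fSubU (propStr A.E) A.P U (A.nat c) (A.or a) ↔ A.SubU U c a := by
  have h0 : fSubU (propStr A.E) A.P U (A.nat c) (A.or a) ↔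
      ∀ r, fU (propStr A.E) A.P (A.nat c) (A.or a) r → A.E r U := Iff.rfl
  rw [h0]
  constructor
  · intro h r f hf hB
    exact h r ((A.fU_iff ha c hf).2 hB)
  · intro h r hr
    obtain ⟨f, hf, hB⟩ := (A.fU_iff' ha c r).1 hr
    exact h r f hf hB

theorem fCh_iff (U : A.M) (c : ℕ) {a : K} (ha : a ∈ A.S) :
    fCh (propStr A.E) A.P U (A.nat c) (A.or a) ↔ A.Ch U c a := by
  have h0 : fCh (propStr A.E) A.P U (A.nat c) (A.or a) ↔
      (A.E (A.nat c) A.P.w ∧ A.E (A.or a) A.P.kp) ∧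
      fSubU (propStr A.E) A.P U (A.nat c) (A.or a) ∧
      (∀ c', A.E c' (A.nat c) → ∀ a', A.E a' A.P.kp →
        (fSubU (propStr A.E) A.P U c' a' → False)) ∧
      ∀ a', A.E a' A.P.kp → A.E a' (A.or a) →
        (fSubU (propStr A.E) A.P U (A.nat c) a' → False) := Iff.rfl
  rw [h0]
  constructor
  · rintro ⟨-, h1, h2, h3⟩
    refine ⟨ha, (A.fSubU_iff U c ha).1 h1, ?_, ?_⟩
    · intro c' hc' a' ha' h4
      exact h2 (A.nat c') ((A.nat_lt _ _).2 hc') (A.or a') (A.or_kp ha')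
        ((A.fSubU_iff U c' ha').2 h4)
    · intro a' ha' hlt h4
      exact h3 (A.or a') (A.or_kp ha') ((A.E_or a' ha' a ha).2 hlt) ((A.fSubU_iff U c ha').2 h4)
  · rintro ⟨-, h1, h2, h3⟩
    refine ⟨⟨A.nat_w c, A.or_kp ha⟩, (A.fSubU_iff U c ha).2 h1, ?_, ?_⟩
    · intro c' hc' a' ha' h4
      obtain ⟨m, hm, rfl⟩ := (A.E_nat _ _).1 hc'
      obtain ⟨b, hb, rfl⟩ := (A.E_kp _).1 ha'
      exact h2 m hm b hb ((A.fSubU_iff U m hb).1 h4)
    · intro a' ha' hlt h4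
      obtain ⟨b, hb, rfl⟩ := (A.E_kp _).1 ha'
      exact h3 b hb ((A.E_or b hb a ha).1 hlt) ((A.fSubU_iff U c hb).1 h4)

theorem fCh_iff' (U x z : A.M) :
    fCh (propStr A.E) A.P U x z ↔ ∃ c a, x = A.nat c ∧ z = A.or a ∧ A.Ch U c a := by
  constructor
  · intro h
    have h1 : A.E x A.P.w ∧ A.E z A.P.kp := h.1
    obtain ⟨c, rfl⟩ := (A.E_w x).1 h1.1
    obtain ⟨a, ha, rfl⟩ := (A.E_kp z).1 h1.2
    exact ⟨c, a, rfl, rfl, (A.fCh_iff U c ha).1 h⟩
  · rintro ⟨c, a, rfl, rfl, h⟩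
    exact (A.fCh_iff U c h.1).2 h

theorem exists_Ch {U : A.M} (hU : A.E U A.P.Tp) (hne : ∃ x, A.E x U) : ∃ c a, A.Ch U c a := by
  classical
  obtain ⟨h1, h2⟩ := (A.open_iff U).1 hU
  obtain ⟨x, hx⟩ := hne
  obtain ⟨f, hf, -⟩ := (A.X_iff x).1 (h1 x hx)
  obtain ⟨c, a, ha, -, h3⟩ := h2 x f hx hf
  have hex : ∃ c, ∃ a ∈ A.S, A.SubU U c a := ⟨c, a, ha, h3⟩
  have hc := Nat.find_spec hex
  set c0 := Nat.find hex with hc0
  have hwf : WellFounded ((· < ·) : K → K → Prop) := wellFounded_lt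
  have hne' : {a | a ∈ A.S ∧ A.SubU U c0 a}.Nonempty := hc
  refine ⟨c0, hwf.min _ hne', (hwf.min_mem _ hne').1, (hwf.min_mem _ hne').2, ?_, ?_⟩
  · intro c' hc' a' ha' h4
    exact Nat.find_min hex hc' ⟨a', ha', h4⟩
  · intro a' ha' hlt h4
    exact hwf.not_lt_min _ (show a' ∈ {a | a ∈ A.S ∧ A.SubU U c0 a} from ⟨ha', h4⟩) hlt

theorem Ch_uniq {U : A.M} {c c' : ℕ} {a a' : K} (h : A.Ch U c a) (h' : A.Ch U c' a') :
    c = c' ∧ a = a' := by
  have hc : c = c' := by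
    rcases lt_trichotomy c c' with hl | he | hl
    · exact (h'.2.2.1 c hl a h.1 h.2.1).elim
    · exact he
    · exact (h.2.2.1 c' hl a' h'.1 h'.2.1).elim
  subst hc
  refine ⟨rfl, ?_⟩
  rcases lt_trichotomy a a' with hl | he | hl
  · exact (h'.2.2.2 a h.1 hl h.2.1).elim
  · exact he
  · exact (h.2.2.2 a' h'.1 hl h'.2.1).elim

end TM

end Pool.Agent.H83.T
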