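import Pool.Agent.H83.T.StA
import Pool.Agent.H83.T.SpN

/-!
# TT-21: the reply of the winning strategy (job)

`fRep g m V`: `V` is the reply to the sequence `g` of the moves of player I with the last index `m`: with
`(c, a)` the chosen basic set of the last move, `V` is the set of all `r` in the basic set `(c, a)` such that for all `i` the
value of `r` at `length c + i` is the value of the sequence `a'` there, where `(c', a')` is the chosen basic set
of the `i`-th move.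

PROOF of `rep_iff`. As `g` is a function, `Rel g (nat n) U` iff `U = Uf n`; `fCh .. (Uf n) c a` iff `c = nat (cf n)`, `a = or (af n)`
(`fCh_iff'`, `Ch_uniq`). `Rel g i U'` iff `i = nat i₀`, `i₀ ≤ n`, `U' = Uf i₀`. So `fRep` says: `r ∈ V` iff `r` has a function `f` with
`Bas (cf n) (af n) f` and `f (len + i) = y (af i) (len + i)` for `i ≤ n`, `len = (dw (cf n)).length` (`op_J`, `op_Y`). By
`dw_ew` the word `rw` is `dw (cf n)` followed by these `n + 1` values, so this is `Bas (rw ..) (af n) f`.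
-/

set_option autoImplicit false

universe v w'

namespace Pool.Agent.H83.T

open Pool.Agent.H86 Pool.Agent.H83.F

/-- the reply -/
def fRep {N : Type v} {Ω : Type w'} (L : LogicStr N Ω) (P : Pr N) (J g m V : N) : Ω :=
  L.ex fun U => L.ex fun c => L.ex fun a => L.and (fRel L g m U) (L.and (fCh L P U c a)
    (L.all fun r => L.iff (L.mem r V) (L.and (fU L P c a r)
      (L.all fun i => L.all fun U' => L.all fun c' => L.all fun a' => L.imp (fRel L g i U')
        (L.imp (fCh L P U' c' a') (L.ex fun j => L.ex fun v => L.and (fOp L J c i j)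
          (L.and (fOp L P.Y a' j v) (fRel L r j v))))))))

namespace TM

variable (A : TM)

/-- `g` is the sequence of the moves `Uf 0, ..., Uf n` with the chosen basic sets `cf`, `af` -/
def SqD (g : A.M) (n : ℕ) (Uf : ℕ → A.M) (cf : ℕ → ℕ) (af : ℕ → K) : Prop :=
  IsFun A.E g (A.nat (n + 1)) A.P.Tp ∧ ∀ i ≤ n, Rel A.E g (A.nat i) (Uf i) ∧ A.Ch (Uf i) (cf i) (af i)

/-- the word of the reply -/
def rw' (n : ℕ) (cf : ℕ → ℕ) (af : ℕ → K) : ℕ :=
  ew (dw (cf n) ++ (List.range (n + 1)).map fun i => A.y (af i) ((dw (cf n)).length + i))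

theorem exists_SqD {n : ℕ} {g : A.M} (h : IsSeq A.E A.P.Tp (n + 1) g) :
    ∃ Uf cf af, A.SqD g n Uf cf af := by
  obtain ⟨m, hm, hg, hne⟩ := h
  rw [A.isNum_iff] at hm
  subst hm
  have key : ∀ i : ℕ, ∃ U : A.M, ∃ c : ℕ, ∃ a : K, i ≤ n → Rel A.E g (A.nat i) U ∧ A.Ch U c a := by
    intro i
    by_cases hi : i ≤ n
    · obtain ⟨U, hU, -⟩ := hg.2 (A.nat i) ((A.nat_lt i (n + 1)).2 (Nat.lt_succ_of_le hi))
      obtain ⟨c, a, hc⟩ := A.exists_Ch (IsFun.mem A.zf hg hU).2 (hne _ _ hU)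
      exact ⟨U, c, a, fun _ => ⟨hU, hc⟩⟩
    · exact ⟨A.nat 0, 0, Classical.arbitrary K, fun h => (hi h).elim⟩
  choose Uf cf af hk using key
  exact ⟨Uf, cf, af, hg, fun i hi => hk i hi⟩

theorem StB_inner {n : ℕ} {g : A.M} {Uf : ℕ → A.M} {cf : ℕ → ℕ} {af : ℕ → K}
    (h : A.SqD g n Uf cf af) {r : A.M} {f : ℕ → ℕ} (hr : A.Fv r f) :
    (∀ i U' c' a', Rel A.E g i U' → fCh (propStr A.E) A.P U' c' a' →
      ∃ j v, Op A.E A.J (A.nat (cf n)) i j ∧ (Op A.E A.P.Y a' j v ∧ Rel A.E r j v)) ↔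
    ∀ i ≤ n, f ((dw (cf n)).length + i) = A.y (af i) ((dw (cf n)).length + i) := by
  constructor
  · intro H i hi
    obtain ⟨hU, hc⟩ := h.2 i hi
    obtain ⟨j, v, h1, h2, h3⟩ := H (A.nat i) (Uf i) (A.nat (cf i)) (A.or (af i)) hU
      ((A.fCh_iff _ _ hc.1).2 hc)
    rw [A.op_J] at h1
    subst h1
    rw [A.op_Y _ hc.1] at h2
    subst h2
    have h4 := (hr.2 _ _).1 h3
    exact (A.nat_inj h4).symm
  · intro H i U' c' a' hU hc
    obtain ⟨i0, hi0, rfl⟩ := (A.E_nat _ _).1 (IsFun.mem A.zf h.1 hU).1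
    have hi : i0 ≤ n := Nat.le_of_lt_succ hi0
    obtain ⟨hU0, hc0⟩ := h.2 i0 hi
    have e : U' = Uf i0 := IsFun.uniq A.zf h.1 hU hU0
    subst e
    obtain ⟨c, a, rfl, rfl, hc1⟩ := (A.fCh_iff' _ _ _).1 hc
    obtain ⟨rfl, rfl⟩ := A.Ch_uniq hc1 hc0
    refine ⟨A.nat ((dw (cf n)).length + i0), A.nat (A.y (af i0) ((dw (cf n)).length + i0)),
      (A.op_J _ _ _).2 rfl, (A.op_Y _ hc0.1 _ _).2 rfl, (hr.2 _ _).2 ?_⟩
    rw [H i0 hi]

theorem StB_bas {n : ℕ} (cf : ℕ → ℕ) (af : ℕ → K) (f : ℕ → ℕ) :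
    A.Bas (A.rw' n cf af) (af n) f ↔ (A.Bas (cf n) (af n) f ∧
      ∀ i ≤ n, f ((dw (cf n)).length + i) = A.y (af i) ((dw (cf n)).length + i)) := by
  unfold Bas rw'
  rw [dw_ew]
  constructor
  · rintro ⟨h1, h2⟩
    refine ⟨⟨fun i hi => ?_, h2⟩, fun i hi => ?_⟩
    · have := h1 i (by rw [List.length_append]; omega)
      rw [this, List.getD_append _ _ _ _ hi]
    · have := h1 ((dw (cf n)).length + i) (by
        rw [List.length_append, List.length_map, List.length_range]; omega)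
      rw [this, List.getD_append_right _ _ _ _ (Nat.le_add_right _ _), Nat.add_sub_cancel_left,
        List.getD_eq_getElem?_getD, List.getElem?_map, List.getElem?_range (by omega)]
      rfl
  · rintro ⟨⟨h1, h2⟩, h3⟩
    refine ⟨fun i hi => ?_, h2⟩
    rw [List.length_append, List.length_map, List.length_range] at hi
    by_cases hlt : i < (dw (cf n)).length
    · rw [h1 i hlt, List.getD_append _ _ _ _ hlt]
    · obtain ⟨j, rfl⟩ := Nat.exists_eq_add_of_le (not_lt.1 hlt)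
      rw [h3 j (by omega), List.getD_append_right _ _ _ _ (Nat.le_add_right _ _),
        Nat.add_sub_cancel_left, List.getD_eq_getElem?_getD, List.getElem?_map,
        List.getElem?_range (by omega)]
      rfl

theorem rep_iff {n : ℕ} {g : A.M} {Uf : ℕ → A.M} {cf : ℕ → ℕ} {af : ℕ → K}
    (h : A.SqD g n Uf cf af) (V : A.M) :
    fRep (propStr A.E) A.P A.J g (A.nat n) V ↔
      ∀ r, A.E r V ↔ ∃ f, A.Fv r f ∧ A.Bas (A.rw' n cf af) (af n) f := by
  obtain ⟨hU, hc⟩ := h.2 n le_rfl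
  have key : ∀ r, (fU (propStr A.E) A.P (A.nat (cf n)) (A.or (af n)) r ∧
      (∀ i U' c' a', Rel A.E g i U' → fCh (propStr A.E) A.P U' c' a' →
        ∃ j v, Op A.E A.J (A.nat (cf n)) i j ∧ (Op A.E A.P.Y a' j v ∧ Rel A.E r j v))) ↔
      ∃ f, A.Fv r f ∧ A.Bas (A.rw' n cf af) (af n) f := by
    intro r
    rw [A.fU_iff' hc.1]
    constructor
    · rintro ⟨⟨f, hf, hb⟩, h2⟩
      exact ⟨f, hf, (A.StB_bas cf af f).2 ⟨hb, (A.StB_inner h hf).1 h2⟩⟩
    · rintro ⟨f, hf, hb⟩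
      obtain ⟨h1, h2⟩ := (A.StB_bas cf af f).1 hb
      exact ⟨⟨f, hf, h1⟩, (A.StB_inner h hf).2 h2⟩
  constructor
  · rintro ⟨U, c, a, h1, h2, h3⟩
    have e : U = Uf n := IsFun.uniq A.zf h.1 h1 hU
    subst e
    obtain ⟨c0, a0, rfl, rfl, hc1⟩ := (A.fCh_iff' _ _ _).1 h2
    obtain ⟨rfl, rfl⟩ := A.Ch_uniq hc1 hc
    exact fun r => (h3 r).trans (key r)
  · intro H
    exact ⟨Uf n, A.nat (cf n), A.or (af n), hU, (A.fCh_iff _ _ hc.1).2 hc,
      fun r => (H r).trans (key r).symm⟩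

end TM

end Pool.Agent.H83.T
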