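import Pool.Agent.H83.T.StB

/-!
# TT-22: the winning strategy exists and is a strategy (job)

PROOFS.
* `exists_sig`: a sequence of members of `T` of length `n + 1` is a subset of the product of `w` and `T`
  (`exists_prod`, `A.zf.power`; its first components are natural numbers). Use `exists_rel` for `a` = the power set of this product,
  `b = T` and the formula `R x y := ∃ l m, l ∈ w ∧ l = m ∪ {m} ∧ fSeq l x ∧ fRep J x m y` with the code
  `pairCode (fun x y => codeStr.ex fun l => codeStr.ex fun m => codeStr.and (codeStr.mem l 1) (codeStr.and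
  (fSucc codeStr l m) (codeStr.and (fSeq codeStr P0 l x) (fRep codeStr P0 7 x m y)))) 20` and the assignment
  `asn _ [P.w, P.kp, P.Y, P.D, P.X, P.Tp, J]`; then `seq_iff`, `isSucc_iff`, `isSucc_nat_iff`.
* `strat_sig`: by `exists_SqD` and `rep_iff` the reply is the basic set (`exists_bas`) given by the word `rw'` and the ordinal `af n`. It is unique by
  extensionality (its members are points with functions), open, nonempty, and contained in `Uf n`, because
  `Bas (rw' ..) (af n) f → Bas (cf n) (af n) f` (`dw (cf n)` is a prefix of the word `rw'`) and `Ch (Uf n) (cf n) (af n)`.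
-/

set_option autoImplicit false

namespace Pool.Agent.H83.T

open Pool.Agent.H86 Pool.Agent.H83.F

namespace TM

variable (A : TM)

theorem exists_sig : ∃ s, ∀ g V, Rel A.E s g V ↔
    ∃ n, IsSeq A.E A.P.Tp (n + 1) g ∧ A.E V A.P.Tp ∧ fRep (propStr A.E) A.P A.J g (A.nat n) V := by
  obtain ⟨c, hc⟩ := exists_prod A.zf A.P.w A.P.Tp
  obtain ⟨a, ha⟩ := A.zf.power c
  obtain ⟨s, -, hs⟩ := exists_rel A.zf
    (pairCode (fun x y => codeStr.ex fun l => codeStr.ex fun m => codeStr.and (codeStr.mem l 1)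
      (codeStr.and (fSucc codeStr l m) (codeStr.and (fSeq codeStr P0 l x)
        (fRep codeStr P0 7 x m y)))) 20)
    (asn A.P.w [A.P.w, A.P.kp, A.P.Y, A.P.D, A.P.X, A.P.Tp, A.J])
    (P := fun x y => ∃ l m, A.E l A.P.w ∧ IsSucc A.E l m ∧ fSeq (propStr A.E) A.P l x ∧
      fRep (propStr A.E) A.P A.J x m y) (fun z => Iff.rfl) a A.P.Tp
  refine ⟨s, fun g V => ?_⟩
  rw [hs]
  constructor
  · rintro ⟨-, hV, l, m, hl, hlm, h1, h2⟩
    obtain ⟨n', rfl⟩ := (A.E_w l).1 hl
    obtain ⟨m', rfl, rfl⟩ := (A.isSucc_nat_iff n' m).1 hlm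
    exact ⟨m', (A.seq_iff _ _).2 h1, hV, h2⟩
  · rintro ⟨n, h1, hV, h2⟩
    have h3 := (A.seq_iff _ _).1 h1
    refine ⟨?_, hV, A.nat (n + 1), A.nat n, A.nat_w _, (A.isSucc_iff n _).2 rfl, h3, h2⟩
    rw [ha]
    intro z hz
    rw [hc]
    obtain ⟨x, y, hxy, hx, hy⟩ := h3.1.1 z hz
    obtain ⟨m, -, rfl⟩ := (A.E_nat _ _).1 hx
    exact ⟨_, y, hxy, A.nat_w m, hy⟩

theorem strat_sig {s : A.M} (hs : ∀ g V, Rel A.E s g V ↔
    ∃ n, IsSeq A.E A.P.Tp (n + 1) g ∧ A.E V A.P.Tp ∧ fRep (propStr A.E) A.P A.J g (A.nat n) V) :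
    IsStrat A.E A.P.Tp s (fun n => n + 1) := by
  intro n g hg
  obtain ⟨Uf, cf, af, hS⟩ := A.exists_SqD hg
  have hn := hS.2 n le_rfl
  have haS : af n ∈ A.S := hn.2.1
  obtain ⟨V, hV1, hV2, hV3⟩ := A.exists_bas (A.rw' n cf af) haS
  have hVX : Sub A.E V A.P.X := ((A.open_iff V).1 hV1).1
  have hVr : ∀ r, A.E r V ↔ ∃ f, A.Fv r f ∧ A.Bas (A.rw' n cf af) (af n) f := by
    intro r
    constructor
    · intro hr
      obtain ⟨f, hf, -⟩ := (A.X_iff r).1 (hVX r hr)
      exact ⟨f, hf, (hV3 r f hf).1 hr⟩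
    · rintro ⟨f, hf, hb⟩
      exact (hV3 r f hf).2 hb
  refine ⟨V, (hs g V).2 ⟨n, hg, hV1, (A.rep_iff hS V).2 hVr⟩, ?_, hV1, hV2, ?_⟩
  · intro V' hV'
    obtain ⟨n', hg', -, hr'⟩ := (hs g V').1 hV'
    have h1 := ((A.seq_iff _ _).1 hg).1
    have h2 := ((A.seq_iff _ _).1 hg').1
    have h3 : A.nat (n + 1) = A.nat (n' + 1) := by
      apply A.zf.ext
      intro z
      constructor
      · intro hz
        obtain ⟨y, hy, -⟩ := h1.2 z hz
        exact (IsFun.mem A.zf h2 hy).1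
      · intro hz
        obtain ⟨y, hy, -⟩ := h2.2 z hz
        exact (IsFun.mem A.zf h1 hy).1
    have h4 := A.nat_inj h3
    obtain rfl : n = n' := by omega
    have h5 := (A.rep_iff hS V').1 hr'
    apply A.zf.ext
    intro z
    rw [h5, hVr]
  · intro U hU z hz
    have hU' : Rel A.E g (A.nat n) U := (A.at_iff g n U).1 hU
    obtain rfl : U = Uf n := IsFun.uniq A.zf hS.1 hU' hn.1
    obtain ⟨f, hf, hb⟩ := (hVr z).1 hz
    refine hn.2.2.1 z f hf ⟨fun i hi => ?_, hb.2⟩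
    have h6 : dw (A.rw' n cf af) = dw (cf n) ++
        (List.range (n + 1)).map fun i => A.y (af i) ((dw (cf n)).length + i) := dw_ew _
    have h7 := hb.1 i (by rw [h6, List.length_append]; omega)
    rw [h7, h6, List.getD_append _ _ _ _ hi]

end TM

end Pool.Agent.H83.T
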