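import Pool.Agent.H83.T.VHit
import Pool.Agent.H83.T.VBes

/-!
# TT-3: a random word is hit with large probability by finitely many sequences only (job)

PROOF of `fin_hit`. Let `ε = η - 2 (1/2)^m > 0`. The events `T v = {x | t x = v}` are disjoint and
measurable, so `∑ v, mu (T v) ≤ 1`; choose `n` with `mu {x | n ≤ t x} < ε / 4` (`tendsto_measure_iInter_atTop`
for the decreasing sets `{x | n ≤ t x}` with empty intersection). For `v < n` let `q_v` be the number
of `hit_prob (dw v) m`, `δ = ε / (4 (n + 1))`, and let `F_v` be the finite set given by `bessel` for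
`G b = {x | Hit (x b) (dw v) m}` and `E = T v`. If `b` is in none of the `F_v`, `v < n`, then
`mu {x | Hit (x b) (dw (t x)) m} ≤ ∑ v < n, mu (T v ∩ G_v b) + mu {n ≤ t}
 < ∑ v < n, (mu (T v) q_v + δ) + ε / 4 ≤ 2 (1/2)^m + ε / 2 < η`.
-/

set_option autoImplicit false

namespace Pool.Agent.H83.T

open MeasureTheory Pool.Agent.H17.GP Pool.Agent.H19.GP

theorem measurable_hit_word {t : Pt → ℕ} (ht : ∀ v, MeasurableSet {x | t x = v}) (b : K) (m : ℕ) :
    MeasurableSet {x : Pt | Hit (x b) (dw (t x)) m} := by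
  have : {x : Pt | Hit (x b) (dw (t x)) m} = ⋃ v, ({x | t x = v} ∩ {x | Hit (x b) (dw v) m}) := by
    ext x
    simp
  rw [this]
  exact MeasurableSet.iUnion fun v => (ht v).inter (measurableSet_Hit b _ m)

theorem exists_cut {t : Pt → ℕ} (ht : ∀ v, MeasurableSet {x | t x = v}) (ε : ℝ) (hε : 0 < ε) :
    ∃ n, (mu {x | n ≤ t x}).toReal ≤ ε := by
  have hm : ∀ n : ℕ, MeasurableSet {x : Pt | n ≤ t x} := by
    intro n
    have h1 : {x : Pt | n ≤ t x} = (⋃ v ∈ Finset.range n, {x | t x = v})ᶜ := by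
      ext x
      simp only [Set.mem_ofPred_eq, Set.mem_compl_iff, Set.mem_iUnion, Finset.mem_range,
        exists_prop, not_exists, not_and]
      exact ⟨fun h i hi he => absurd h (by omega), fun h => not_lt.1 fun hlt => h (t x) hlt rfl⟩
    rw [h1]
    exact (Finset.measurableSet_biUnion _ fun v _ => ht v).compl
  have hanti : Antitone fun n : ℕ => {x : Pt | n ≤ t x} := by
    intro a b hab x hx
    exact le_trans hab hx
  have hemp : (⋂ n : ℕ, {x : Pt | n ≤ t x}) = ∅ := by
    ext x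
    simp only [Set.mem_iInter, Set.mem_ofPred_eq, Set.mem_empty_iff_false, iff_false, not_forall,
      not_le]
    exact ⟨t x + 1, Nat.lt_succ_self _⟩
  have hlim := tendsto_measure_iInter_atTop (μ := mu) (fun n => (hm n).nullMeasurableSet) hanti
    ⟨0, measure_ne_top _ _⟩
  rw [hemp, measure_empty] at hlim
  have hlim2 := (ENNReal.tendsto_toReal ENNReal.zero_ne_top).comp hlim
  rw [ENNReal.toReal_zero] at hlim2
  obtain ⟨n, hn⟩ := ((tendsto_order.1 hlim2).2 ε hε).exists
  exact ⟨n, hn.le⟩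

theorem fin_hit {t : Pt → ℕ} (ht : ∀ v, MeasurableSet {x | t x = v}) (m : ℕ) (η : ℝ)
    (hη : 2 * (1 / 2) ^ m < η) :
    {b : K | η ≤ (mu {x | Hit (x b) (dw (t x)) m}).toReal}.Finite := by
  set ε : ℝ := η - 2 * (1 / 2) ^ m with hε
  have hε0 : 0 < ε := by rw [hε]; linarith
  obtain ⟨n, hn⟩ := exists_cut ht (ε / 4) (by positivity)
  choose q hq0 hq1 hq2 hq3 using fun v : ℕ => hit_prob (dw v) m
  set δ : ℝ := ε / (4 * (n + 1)) with hδ
  have hδ0 : 0 < δ := by rw [hδ]; positivity
  have hF : ∀ v : ℕ, {b : K | (mu {x : Pt | t x = v}).toReal * q v + δ ≤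
      (mu ({x : Pt | t x = v} ∩ {x : Pt | Hit (x b) (dw v) m})).toReal}.Finite := by
    intro v
    exact bessel mu (fun b : K => {x : Pt | Hit (x b) (dw v) m}) (fun b => measurableSet_Hit b _ m)
      (q v) (hq2 v) (hq3 v) {x : Pt | t x = v} (ht v) δ hδ0
  have hfin : (⋃ v ∈ Finset.range n, {b : K | (mu {x : Pt | t x = v}).toReal * q v + δ ≤
      (mu ({x : Pt | t x = v} ∩ {x : Pt | Hit (x b) (dw v) m})).toReal}).Finite :=
    Set.Finite.biUnion (Finset.finite_toSet _) fun v _ => hF v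
  refine hfin.subset fun b hb => ?_
  by_contra hcon
  simp only [Set.mem_iUnion, Set.mem_ofPred_eq, exists_prop, not_exists, not_and, not_le,
    Finset.mem_range] at hcon
  have hb' : η ≤ (mu {x : Pt | Hit (x b) (dw (t x)) m}).toReal := hb
  have hsub : {x : Pt | Hit (x b) (dw (t x)) m} ⊆
      (⋃ v ∈ Finset.range n, ({x : Pt | t x = v} ∩ {x : Pt | Hit (x b) (dw v) m})) ∪
        {x : Pt | n ≤ t x} := by
    intro x hx
    by_cases h : n ≤ t x
    · exact Or.inr h
    · refine Or.inl ?_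
      simp only [Set.mem_iUnion, Finset.mem_range, exists_prop]
      exact ⟨t x, not_le.1 h, rfl, hx⟩
  have h1 : (mu {x : Pt | Hit (x b) (dw (t x)) m}).toReal ≤
      (∑ v ∈ Finset.range n,
        (mu ({x : Pt | t x = v} ∩ {x : Pt | Hit (x b) (dw v) m})).toReal) +
        (mu {x : Pt | n ≤ t x}).toReal := by
    have h2 : mu {x : Pt | Hit (x b) (dw (t x)) m} ≤
        (∑ v ∈ Finset.range n, mu ({x : Pt | t x = v} ∩ {x : Pt | Hit (x b) (dw v) m})) +
          mu {x : Pt | n ≤ t x} :=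
      (measure_mono hsub).trans ((measure_union_le _ _).trans
        (by gcongr; exact measure_biUnion_finset_le _ _))
    have h3 : (∑ v ∈ Finset.range n, mu ({x : Pt | t x = v} ∩ {x : Pt | Hit (x b) (dw v) m})) ≠ ⊤ :=
      ENNReal.sum_ne_top.2 fun v _ => measure_ne_top _ _
    have h4 := ENNReal.toReal_mono (ENNReal.add_ne_top.2 ⟨h3, measure_ne_top _ _⟩) h2
    rw [ENNReal.toReal_add h3 (measure_ne_top _ _),
      ENNReal.toReal_sum fun v _ => measure_ne_top _ _] at h4
    exact h4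
  have hsum1 : (∑ v ∈ Finset.range n, (mu {x : Pt | t x = v}).toReal) ≤ 1 := by
    have hd : mu (⋃ v ∈ Finset.range n, {x : Pt | t x = v}) =
        ∑ v ∈ Finset.range n, mu {x : Pt | t x = v} := by
      refine measure_biUnion_finset ?_ fun v _ => ht v
      intro v _ w _ hvw
      refine Set.disjoint_left.2 fun x hx hx' => hvw ?_
      exact (show t x = v from hx).symm.trans hx'
    have h2 : (∑ v ∈ Finset.range n, mu {x : Pt | t x = v}) ≤ 1 := by
      rw [← hd]; exact prob_le_one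
    have h3 := ENNReal.toReal_mono ENNReal.one_ne_top h2
    rwa [ENNReal.toReal_sum fun v _ => measure_ne_top _ _, ENNReal.toReal_one] at h3
  have h5 : (∑ v ∈ Finset.range n,
      (mu ({x : Pt | t x = v} ∩ {x : Pt | Hit (x b) (dw v) m})).toReal) ≤
      ∑ v ∈ Finset.range n, ((mu {x : Pt | t x = v}).toReal * (2 * (1 / 2) ^ m) + δ) := by
    refine Finset.sum_le_sum fun v hv => ?_
    have h6 := hcon v (Finset.mem_range.1 hv)
    have h7 : (mu {x : Pt | t x = v}).toReal * q v ≤
        (mu {x : Pt | t x = v}).toReal * (2 * (1 / 2) ^ m) :=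
      mul_le_mul_of_nonneg_left (hq1 v) ENNReal.toReal_nonneg
    linarith
  rw [Finset.sum_add_distrib, ← Finset.sum_mul, Finset.sum_const, Finset.card_range,
    nsmul_eq_mul] at h5
  have h8 : (n : ℝ) * δ ≤ ε / 4 := by
    rw [hδ, mul_div_assoc', div_le_div_iff₀ (by positivity) (by norm_num)]
    nlinarith [hε0]
  have h9 : (∑ v ∈ Finset.range n, (mu {x : Pt | t x = v}).toReal) * (2 * (1 / 2) ^ m) ≤
      1 * (2 * (1 / 2) ^ m) := mul_le_mul_of_nonneg_right hsum1 (by positivity)
  have : η ≤ 2 * (1 / 2) ^ m + ε / 2 := by linarith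
  have h10 : η = 2 * (1 / 2) ^ m + ε := by rw [hε]; ring
  linarith

end Pool.Agent.H83.T
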