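import Pool.Agent.H83.T.Base

/-!
# TT-1: probability of hitting a word (job)

PROOF. `G b = {x | Hit (x b) t m}` is the preimage under the coordinate `x ↦ x b` of
`H = {z | Hit z t m}`. The coordinates have the law `lam` (`Measure.infinitePi_map_eval` or
`measurePreserving_eval_infinitePi`) and are independent (`ProbabilityTheory.iIndepFun_infinitePi`, or use
`Measure.infinitePi_pi` for the rectangle with the finite index set `{b}` resp. `{b, b'}`), so with
`q = (lam H).toReal` we get `mu (G b) = lam H` and `mu (G b ∩ G b') = lam H ^ 2`.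
Bound: `H ⊆ ⋃ i ∈ [m, t.length), {z | yv z i = t.getD i 0}` and
`lam {z | yv z i = v} ≤ (1/2)^i` (`yv z i = vL i z + 1`; `lam_vL_eq` in `H17/GP/Mea.lean` if `v - 1 < 2^i`,
and the event is empty otherwise by `vL_lt`, or if `v = 0`), and `∑_{i ≥ m} (1/2)^i = 2 (1/2)^m`
(finite geometric sum, compare `Cyl_geom` in `Pool/Agent/H72/TG/Cyl.lean`).
-/

set_option autoImplicit false

namespace Pool.Agent.H83.T

open MeasureTheory Pool.Agent.H17.GP Pool.Agent.H19.GP

theorem hit_geom (m l : ℕ) : ∑ p ∈ Finset.Ico m l, (1 / 2 : ℝ) ^ p ≤ 2 * (1 / 2) ^ m := by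
  rcases le_total m l with h | h
  · have key : ∑ p ∈ Finset.Ico m l, (1 / 2 : ℝ) ^ p = 2 * (1 / 2) ^ m - 2 * (1 / 2) ^ l := by
      induction l, h using Nat.le_induction with
      | base => simp
      | succ l hl ih =>
        rw [Finset.sum_Ico_succ_top hl, ih, pow_succ]
        ring
    rw [key]
    have : (0 : ℝ) < (1 / 2) ^ l := by positivity
    linarith
  · rw [Finset.Ico_eq_empty (by omega)]
    simp

theorem lam_yv_le (i v : ℕ) : lam {z | yv z i = v} ≤ (1 / 2 : ENNReal) ^ i := by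
  by_cases hc : 1 ≤ v ∧ v - 1 < 2 ^ i
  · have h : {z : ℕ → Bool | yv z i = v} = {z | vL i z = v - 1} := by
      ext z
      simp only [yv, Set.mem_ofPred_eq]
      omega
    rw [h, lam_vL_eq hc.2]
  · have h : {z : ℕ → Bool | yv z i = v} = ∅ := by
      ext z
      simp only [yv, Set.mem_ofPred_eq, Set.mem_empty_iff_false, iff_false]
      intro h1
      have := vL_lt i z
      exact hc ⟨by omega, by omega⟩
    rw [h, measure_empty]
    exact bot_le

theorem lam_Hit_le (t : List ℕ) (m : ℕ) : (lam {z | Hit z t m}).toReal ≤ 2 * (1 / 2) ^ m := by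
  have hsub : {z | Hit z t m} ⊆ ⋃ p ∈ Finset.Ico m t.length, {z : ℕ → Bool | yv z p = t.getD p 0} := by
    rintro z ⟨p, h3, h4, h5⟩
    simp only [Set.mem_iUnion, Finset.mem_Ico, Set.mem_ofPred_eq]
    exact ⟨p, ⟨h3, h4⟩, h5.symm⟩
  have hle : lam {z | Hit z t m} ≤ ∑ p ∈ Finset.Ico m t.length, (1 / 2 : ENNReal) ^ p :=
    (measure_mono hsub).trans ((measure_biUnion_finset_le _ _).trans
      (Finset.sum_le_sum fun p _ => lam_yv_le p _))
  have hne : ∑ p ∈ Finset.Ico m t.length, (1 / 2 : ENNReal) ^ p ≠ ⊤ := by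
    rw [ENNReal.sum_ne_top]
    intro p _
    exact ENNReal.pow_ne_top (by simp)
  refine (ENNReal.toReal_mono hne hle).trans ?_
  rw [ENNReal.toReal_sum (fun p _ => ENNReal.pow_ne_top (by simp))]
  refine le_trans (le_of_eq ?_) (hit_geom m t.length)
  refine Finset.sum_congr rfl fun p _ => ?_
  simp

theorem mu_Hit (b : K) (t : List ℕ) (m : ℕ) : mu {x | Hit (x b) t m} = lam {z | Hit z t m} := by
  have h := (measurePreserving_eval_infinitePi (fun _ : K => lam) b).measure_preimage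
    (measurableSet_Hit1 t m).nullMeasurableSet
  exact h

theorem mu_Hit2 {b b' : K} (hb : b ≠ b') (t : List ℕ) (m : ℕ) :
    mu ({x | Hit (x b) t m} ∩ {x | Hit (x b') t m}) = lam {z | Hit z t m} ^ 2 := by
  classical
  have h : ({x | Hit (x b) t m} ∩ {x | Hit (x b') t m} : Set Pt) =
      (({b, b'} : Finset K) : Set K).pi (fun _ => {z | Hit z t m}) := by
    ext x
    simp [Set.mem_pi]
  rw [h, mu, Measure.infinitePi_pi _ (fun i _ => measurableSet_Hit1 t m), Finset.prod_pair hb, sq]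

theorem hit_prob (t : List ℕ) (m : ℕ) :
    ∃ q : ℝ, 0 ≤ q ∧ q ≤ 2 * (1 / 2) ^ m ∧ (∀ b : K, (mu {x | Hit (x b) t m}).toReal = q) ∧
      ∀ b b' : K, b ≠ b' →
        (mu ({x | Hit (x b) t m} ∩ {x | Hit (x b') t m})).toReal = q ^ 2 := by
  refine ⟨(lam {z | Hit z t m}).toReal, ENNReal.toReal_nonneg, lam_Hit_le t m, ?_, ?_⟩
  · intro b
    rw [mu_Hit]
  · intro b b' hb
    rw [mu_Hit2 hb, ENNReal.toReal_pow]

end Pool.Agent.H83.T
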